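import Pool.Agent.H95.Leh.FDefs

/-!
# LH-MM: Mahler measure as a sum over the Galois group

`card_orb`: PROOF. `orb x` is the set of roots in `K` of `minpoly ℚ x`: every root is `g x` for some `g` (K/ℚ normal:
`minpoly.exists_algEquiv_of_root` or `IsConjRoot`/`isConjRoot_iff_exists_algEquiv`), the polynomial is separable and splits in `K`.
(Or: orbit-stabiliser and `index_stabilizer` of FIdx.)

`log_mm`: PROOF. `(minpoly ℤ x).map = (minpoly ℚ x).map` (`minpoly.isIntegrallyClosed_eq_field_fractions'`), monic, its roots in ℂ are the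
`σ y`, `y ∈ orb x` (the image under σ of the factorisation `minpoly ℚ x = ∏_{y ∈ orb x} (X - y)` in `K`). So
`log mm x = ∑_{y ∈ orb x} log max(1,‖σ y‖)` (`Polynomial.mahlerMeasure_eq_leadingCoeff_mul_prod_roots`). In `∑_g log max(1, ‖σ (g x)‖)` every
`y ∈ orb x` occurs `|G| / |orb x|` times (fibres of `g ↦ g x` are cosets of the stabiliser), so
`hh σ x = (1/|orb x|) ∑_{y ∈ orb x} log max (1, ‖σ y‖)`.
-/

namespace Pool.H95.Leh

open Polynomial in
/-- the minimal polynomial is the product of `X - y`, `y` a conjugate -/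
theorem fmm_prod {K : Type*} [Field K] [NumberField K] [IsGalois ℚ K] (x : K) :
    (minpoly ℚ x).map (algebraMap ℚ K) = ((H25.Arith.orb x).val.map fun y => X - C y).prod := by
  classical
  have hint : IsIntegral ℚ x := Algebra.IsIntegral.isIntegral x
  have hmon : ((minpoly ℚ x).map (algebraMap ℚ K)).Monic := (minpoly.monic hint).map _
  have hspl : ((minpoly ℚ x).map (algebraMap ℚ K)).Splits := Normal.splits inferInstance x
  have hsep : ((minpoly ℚ x).map (algebraMap ℚ K)).Separable :=
    Polynomial.Separable.map (IsGalois.separable ℚ x)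
  have hnd := nodup_roots hsep
  have hroots : ((minpoly ℚ x).map (algebraMap ℚ K)).roots = (H25.Arith.orb x).val := by
    refine (Multiset.Nodup.ext hnd (H25.Arith.orb x).nodup).2 fun y => ?_
    rw [mem_roots hmon.ne_zero, IsRoot.def, eval_map_algebraMap]
    change _ ↔ y ∈ H25.Arith.orb x
    unfold H25.Arith.orb
    rw [Finset.mem_image]
    constructor
    · intro h
      obtain ⟨g, hg⟩ := minpoly.exists_algEquiv_of_root' hint.isAlgebraic h
      exact ⟨g, Finset.mem_univ _, hg⟩
    · rintro ⟨g, -, rfl⟩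
      have h1 : aeval (g x) (minpoly ℚ x) = g (aeval x (minpoly ℚ x)) :=
        aeval_algHom_apply g.toAlgHom x _
      rw [h1, minpoly.aeval, map_zero]
  rw [← hroots]
  exact hspl.eq_prod_roots_of_monic hmon

theorem card_orb {K : Type*} [Field K] [NumberField K] [IsGalois ℚ K] (x : K) :
    (H25.Arith.orb x).card = (minpoly ℚ x).natDegree := by
  have h := congrArg Polynomial.natDegree (fmm_prod x)
  rw [Polynomial.natDegree_map, Polynomial.natDegree_multiset_prod_X_sub_C_eq_card] at h
  rw [h, Finset.card_val]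

/-- the fibres of `g ↦ g x` have the same number of elements -/
theorem fmm_sum {K : Type*} [Field K] [NumberField K] (x : K) : ∃ s : ℕ, 0 < s ∧
    ∀ F : K → ℝ, ∑ g : K ≃ₐ[ℚ] K, F (g x) = s * ∑ y ∈ H25.Arith.orb x, F y := by
  classical
  refine ⟨(Finset.univ.filter fun g : K ≃ₐ[ℚ] K => g x = x).card, ?_, fun F => ?_⟩
  · exact Finset.card_pos.2 ⟨1, by simp⟩
  · rw [Finset.sum_comp F (fun g : K ≃ₐ[ℚ] K => g x)]
    unfold H25.Arith.orb
    rw [Finset.mul_sum]
    refine Finset.sum_congr (by ext; simp) fun y hy => ?_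
    obtain ⟨g₀, -, rfl⟩ := Finset.mem_image.1 hy
    rw [nsmul_eq_mul]
    congr 2
    refine Finset.card_bij' (fun g _ => g₀⁻¹ * g) (fun g _ => g₀ * g) ?_ ?_ ?_ ?_
    · intro g hg
      rw [Finset.mem_filter] at hg ⊢
      refine ⟨Finset.mem_univ _, ?_⟩
      rw [AlgEquiv.mul_apply, hg.2, ← AlgEquiv.mul_apply, inv_mul_cancel, AlgEquiv.one_apply]
    · intro g hg
      rw [Finset.mem_filter] at hg ⊢
      refine ⟨Finset.mem_univ _, ?_⟩
      rw [AlgEquiv.mul_apply, hg.2]
    · intro g _
      simp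
    · intro g _
      simp

theorem log_mm {K : Type*} [Field K] [NumberField K] [IsGalois ℚ K] (σ : K →+* ℂ) (x : K) (hx : IsIntegral ℤ x) :
    Real.log (mm x) = (minpoly ℚ x).natDegree * H25.Arith.hh σ x := by
  classical
  have h1 : (minpoly ℤ x).map (Int.castRingHom ℂ) =
      ((H25.Arith.orb x).val.map fun y => Polynomial.X - Polynomial.C (σ y)).prod := by
    have h2 : (minpoly ℤ x).map (Int.castRingHom ℂ) =
        ((minpoly ℚ x).map (algebraMap ℚ K)).map σ := by
      rw [minpoly.isIntegrallyClosed_eq_field_fractions' ℚ hx, Polynomial.map_map,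
        Polynomial.map_map]
      congr 1
      exact RingHom.ext_int _ _
    rw [h2, fmm_prod, Polynomial.map_multiset_prod, Multiset.map_map]
    congr 1
    refine Multiset.map_congr rfl fun y _ => ?_
    simp
  have h3 : Real.log (mm x) = ∑ y ∈ H25.Arith.orb x, Real.log (max 1 ‖σ y‖) := by
    unfold mm
    rw [h1, Polynomial.prod_mahlerMeasure_eq_mahlerMeasure_prod, Multiset.map_map]
    have h4 : (Multiset.map ((fun p : Polynomial ℂ => p.mahlerMeasure) ∘
        fun y : K => Polynomial.X - Polynomial.C (σ y)) (H25.Arith.orb x).val).prod =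
        ∏ y ∈ H25.Arith.orb x, max 1 ‖σ y‖ := by
      rw [Finset.prod]
      congr 1
      refine Multiset.map_congr rfl fun y _ => ?_
      exact Polynomial.mahlerMeasure_X_sub_C _
    rw [h4, Real.log_prod]
    intro y _
    have : (0 : ℝ) < max 1 ‖σ y‖ := lt_of_lt_of_le one_pos (le_max_left _ _)
    exact this.ne'
  obtain ⟨s, hs0, hs⟩ := fmm_sum x
  have hcard : (Fintype.card (K ≃ₐ[ℚ] K) : ℝ) = s * (H25.Arith.orb x).card := by
    have h5 := hs (fun _ => 1)
    simpa using h5
  have horb : (H25.Arith.orb x).Nonempty := ⟨x, by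
    unfold H25.Arith.orb
    exact Finset.mem_image.2 ⟨1, Finset.mem_univ _, rfl⟩⟩
  have hc : ((H25.Arith.orb x).card : ℝ) ≠ 0 := by
    exact_mod_cast horb.card_pos.ne'
  have hs' : (s : ℝ) ≠ 0 := by exact_mod_cast hs0.ne'
  rw [h3, ← card_orb]
  unfold H25.Arith.hh
  rw [hs (fun y => Real.log (max 1 ‖σ y‖)), hcard]
  field_simp

theorem one_le_mm {K : Type*} [Field K] (x : K) (hx : IsIntegral ℤ x) : 1 ≤ mm x := by
  unfold mm
  apply Polynomial.one_le_mahlerMeasure_of_one_le_norm_leadingCoeff
  have h1 : ((minpoly ℤ x).map (Int.castRingHom ℂ)).Monic := (minpoly.monic hx).map _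
  rw [h1.leadingCoeff, norm_one]

end Pool.H95.Leh
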