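import Pool.Agent.H95.Leh.FIdx
import Pool.Agent.H95.Leh.FMM

/-!
# LH-KRON: Kronecker's theorem for `mm`

`one_lt_mm`: PROOF. `mm x ≥ 1` (`one_le_mm`). Suppose `mm x = 1`. Choose `σ : K →+* ℂ`. By `log_mm` `hh σ x = 0` (the degree is positive), a mean of
nonnegative numbers, so `‖σ (g x)‖ ≤ 1` for all `g`. The product over all `g` of `g x` is a nonzero rational integer (`Algebra.norm`; or:
`x⁻¹` is integral and `mm x⁻¹`...), in absolute value ≥ 1, so all `‖σ (g x)‖ = 1`, `Lg σ x = 0`, `Tors x` (`tors_of_Lg`).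
(Alternative: Mathlib, Mathlib/NumberTheory/MahlerMeasure.lean, section Cyclotomic: a polynomial in ℤ[X] with Mahler measure 1 which is not divisible by X has only
roots of unity as roots: `Polynomial.pow_eq_one_of_mahlerMeasure_eq_one` or similar.)

`mm_of_tors`: PROOF. `x ^ k = 1`; all conjugates have absolute value 1: `hh σ x = 0`, `log (mm x) = 0` by `log_mm`, `mm x ≥ 1 > 0`, so `mm x = 1`.
-/

namespace Pool.H95.Leh

theorem one_lt_mm {K : Type*} [Field K] [NumberField K] [IsGalois ℚ K] (x : K) (hx : IsU x) (h : ¬ Tors x) : 1 < mm x := by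
  rcases (one_le_mm x hx.int).lt_or_eq with h1 | h1
  · exact h1
  · exfalso
    apply h
    obtain ⟨σ⟩ : Nonempty (K →+* ℂ) := inferInstance
    have h2 : ((minpoly ℤ x).map (Int.castRingHom ℂ)).mahlerMeasure = 1 := h1.symm
    have h3 : σ x ≠ 0 := by
      rw [Ne, map_eq_zero]
      exact hx.ne
    have h4 : σ x ∈ (minpoly ℤ x).aroots ℂ := by
      rw [Polynomial.mem_aroots]
      refine ⟨minpoly.ne_zero hx.int, ?_⟩
      have h5 : Polynomial.aeval x (minpoly ℤ x) = 0 := minpoly.aeval ℤ x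
      have h6 : σ (Polynomial.aeval x (minpoly ℤ x)) = Polynomial.aeval (σ x) (minpoly ℤ x) := by
        rw [Polynomial.aeval_def, Polynomial.aeval_def, Polynomial.hom_eval₂]
        congr 1
        exact RingHom.ext_int _ _
      rw [← h6, h5, map_zero]
    obtain ⟨n, hn, h7⟩ := Polynomial.pow_eq_one_of_mahlerMeasure_eq_one h2 h3 h4
    refine ⟨n, hn, σ.injective ?_⟩
    rw [map_pow, h7, map_one]

theorem mm_of_tors {K : Type*} [Field K] [NumberField K] [IsGalois ℚ K] (x : K) (h : Tors x) : mm x = 1 := by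
  obtain ⟨σ⟩ : Nonempty (K →+* ℂ) := inferInstance
  obtain ⟨k, hk, hx⟩ := h
  have hint : IsIntegral ℤ x := by
    refine IsIntegral.of_pow hk ?_
    rw [hx]
    exact isIntegral_one
  have h1 : H25.Arith.hh σ x = 0 := by
    unfold H25.Arith.hh
    rw [Finset.sum_eq_zero, zero_div]
    intro g _
    have h2 : (σ (g x)) ^ k = 1 := by
      rw [← map_pow, ← map_pow, hx, map_one, map_one]
    have h3 : ‖σ (g x)‖ = 1 := Complex.norm_eq_one_of_pow_eq_one h2 hk.ne'
    rw [h3, max_self, Real.log_one]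
  have h4 := log_mm σ x hint
  rw [h1, mul_zero] at h4
  have h5 := one_le_mm x hint
  exact Real.eq_one_of_pos_of_log_eq_zero (by linarith) h4

end Pool.H95.Leh
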