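import Pool.Agent.H95.Leh.FDefs

/-!
# LH-NORTH: Northcott and the passage from polynomials to numbers

`northcott`: PROOF. `Polynomial.finite_mahlerMeasure_le n 2` gives a finite set `S` of polynomials of degree ≤ n and measure ≤ 2; take `c` =
the minimum of 2 and of the (finitely many) measures > 1 occurring in `S`.

`poly_cases`: PROOF. `f` irreducible in ℤ[X], so primitive and not constant (or a constant prime: then `M(f) ≥ 2` and `aeval α f ≠ 0`).
If `|lc f| ≥ 2` then `M(f) ≥ |lc f| ≥ 2`; if `|f(0)| ≥ 2` then `M(f) ≥ 2` (`M(f) ≥ |f(0)|`: product of the roots, or `Polynomial.norm_coeff_le...`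
with coefficient 0; or the reverse polynomial). If `f(0) = 0` then `f = ± X` and `α = 0`. Otherwise `f` or `-f` is monic, `f(0) = ±1`, `± f = minpoly ℤ α`
(`minpoly.isIntegrallyClosed_eq...`, irreducible monic), `α` and `α⁻¹` are integral, `M(f) = mm α`.
-/

namespace Pool.H95.Leh

open Polynomial

theorem northcott (n : ℕ) : ∃ c : ℝ, 1 < c ∧ ∀ f : ℤ[X], f.natDegree ≤ n →
    1 < (f.map (Int.castRingHom ℂ)).mahlerMeasure → c ≤ (f.map (Int.castRingHom ℂ)).mahlerMeasure := by
  classical
  have hfin := finite_mahlerMeasure_le n 2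
  set S := hfin.toFinset.filter (fun f => 1 < (f.map (Int.castRingHom ℂ)).mahlerMeasure) with hS
  have hmem : ∀ f : ℤ[X], f.natDegree ≤ n → 1 < (f.map (Int.castRingHom ℂ)).mahlerMeasure →
      (f.map (Int.castRingHom ℂ)).mahlerMeasure ≤ 2 → f ∈ S := by
    intro f h1 h2 h3
    rw [hS, Finset.mem_filter, Set.Finite.mem_toFinset]
    exact ⟨⟨h1, by simpa using h3⟩, h2⟩
  by_cases hne : S.Nonempty
  · obtain ⟨f0, hf0, hmin⟩ :=
      S.exists_min_image (fun f => (f.map (Int.castRingHom ℂ)).mahlerMeasure) hne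
    refine ⟨min 2 (f0.map (Int.castRingHom ℂ)).mahlerMeasure,
      lt_min one_lt_two (Finset.mem_filter.1 hf0).2, fun f hn h1 => ?_⟩
    by_cases h2 : (f.map (Int.castRingHom ℂ)).mahlerMeasure ≤ 2
    · exact (min_le_right _ _).trans (hmin f (hmem f hn h1 h2))
    · exact (min_le_left _ _).trans (not_le.1 h2).le
  · refine ⟨2, one_lt_two, fun f hn h1 => ?_⟩
    by_contra h2
    exact hne ⟨f, hmem f hn h1 (not_le.1 h2).le⟩

theorem poly_cases {K : Type*} [Field K] [CharZero K] (f : ℤ[X]) (hf : Irreducible f) (α : K) (h0 : aeval α f = 0) (hα : α ≠ 0) :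
    2 ≤ (f.map (Int.castRingHom ℂ)).mahlerMeasure ∨ (IsU α ∧ (f.map (Int.castRingHom ℂ)).mahlerMeasure = mm α) := by
  have hinj : Function.Injective (Int.castRingHom ℂ) := (Int.castRingHom ℂ).injective_int
  by_cases hlc : 2 ≤ |f.leadingCoeff|
  · left
    have h1 := leadingCoeff_le_mahlerMeasure (f.map (Int.castRingHom ℂ))
    rw [leadingCoeff_map_of_injective hinj] at h1
    refine le_trans ?_ h1
    rw [eq_intCast, Complex.norm_intCast]
    exact_mod_cast hlc
  by_cases hc0 : 2 ≤ |f.coeff 0|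
  · left
    have h1 := norm_coeff_le_choose_mul_mahlerMeasure 0 (f.map (Int.castRingHom ℂ))
    rw [Nat.choose_zero_right, Nat.cast_one, one_mul, coeff_map] at h1
    refine le_trans ?_ h1
    rw [eq_intCast, Complex.norm_intCast]
    exact_mod_cast hc0
  right
  have hlc0 : f.leadingCoeff ≠ 0 := leadingCoeff_ne_zero.2 hf.ne_zero
  have hl1 : f.leadingCoeff * f.leadingCoeff = 1 := by
    have h1 : |f.leadingCoeff| = 1 := by
      have := abs_pos.2 hlc0
      omega
    rw [← abs_mul_abs_self, h1, one_mul]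
  have hc1 : f.coeff 0 ≠ 0 := by
    intro h
    obtain ⟨g, hg⟩ := X_dvd_iff.2 h
    rcases hf.isUnit_or_isUnit hg with h1 | h1
    · exact not_isUnit_X h1
    · rw [hg, map_mul, aeval_X] at h0
      rcases mul_eq_zero.1 h0 with h2 | h2
      · exact hα h2
      · exact (h1.map (aeval α)).ne_zero h2
  have hcc : f.coeff 0 * f.coeff 0 = 1 := by
    have h1 : |f.coeff 0| = 1 := by
      have := abs_pos.2 hc1
      omega
    rw [← abs_mul_abs_self, h1, one_mul]
  have hint : IsIntegral ℤ α := by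
    refine ⟨C f.leadingCoeff * f, ?_, ?_⟩
    · rw [Monic, leadingCoeff_mul, leadingCoeff_C, hl1]
    · rw [← aeval_def, map_mul, h0, mul_zero]
  have hinv : IsIntegral ℤ α⁻¹ := by
    have h1 := divX_mul_X_add f
    have h2 : aeval α (divX f) * α + algebraMap ℤ K (f.coeff 0) = 0 := by
      rw [← h0]
      conv_rhs => rw [← h1]
      simp
    have h3 : α⁻¹ = -(algebraMap ℤ K (f.coeff 0)) * aeval α (divX f) := by
      have h4 : algebraMap ℤ K (f.coeff 0) * algebraMap ℤ K (f.coeff 0) = 1 := by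
        rw [← map_mul, hcc, map_one]
      field_simp
      linear_combination algebraMap ℤ K (f.coeff 0) * h2 - h4
    rw [h3]
    refine (isIntegral_algebraMap.neg).mul ?_
    have h5 : aeval α (divX f) ∈ Algebra.adjoin ℤ {α} := aeval_mem_adjoin_singleton ℤ α
    have h6 : Algebra.adjoin ℤ {α} ≤ integralClosure ℤ K := by
      rw [Algebra.adjoin_le_iff, Set.singleton_subset_iff]
      exact hint
    exact h6 h5
  refine ⟨⟨hint, hinv, hα⟩, ?_⟩
  obtain ⟨g, hg⟩ := minpoly.isIntegrallyClosed_dvd hint h0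
  rcases hf.isUnit_or_isUnit hg with h1 | h1
  · exact absurd h1 (minpoly.not_isUnit ℤ α)
  · obtain ⟨u, hu, rfl⟩ := isUnit_iff.1 h1
    have hu1 : ‖(u : ℂ)‖ = 1 := by
      rcases Int.isUnit_iff.1 hu with h2 | h2 <;> rw [h2] <;> simp
    rw [mm, hg, Polynomial.map_mul, map_C, mahlerMeasure_mul, mahlerMeasure_const, eq_intCast, hu1,
      mul_one]

end Pool.H95.Leh
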