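import Pool.Agent.H95.Leh.FIdx
import Pool.Agent.H95.Leh.FMM

/-!
# LH-RED: reduction to numbers whose conjugates are distinct modulo torsion

PROOF of `exists_red`. `T = (orb α).filter (fun y => Tors (y / α))`, `k = T.card > 0` (`α ∈ T`), `β = ∏_{y ∈ T} y`. `P = {g : Tors (g α / α)}` is a
subgroup; `g ∈ P` permutes `T` (`g y / α = g (y/α) * (g α / α)`), so `g β = β`. `β / α^k = ∏_{y ∈ T} (y / α)` is torsion. For every `g`:
`g β / β = g(β/α^k) * (g α / α)^k / (β / α^k)`, so `g β / β` torsion implies `(g α/α)^k` torsion implies `g ∈ P` implies `g β = β`: `Red β`, and the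
stabiliser of `β` is `P`. `T` is the `P`-orbit of `α` (`y ∈ T` is `g α` with `Tors (g α / α)`), so `[P : Stab α] = k` and
`deg α = [G : Stab α] = [G : P] k = deg β * k`. `‖σ (g β)‖ = ‖σ (g α)‖^k` (torsion elements have norm 1), so `hh σ β = k * hh σ α`
(`H25.Arith.hh_pow` style: `max 1 (t^k) = (max 1 t)^k`). By `log_mm` `log mm β = deg β * k * hh σ α = deg α * hh σ α = log mm α`, and `mm ≥ 1`.
-/

namespace Pool.H95.Leh

open H25.Arith

namespace RedAux

variable {K : Type*} [Field K]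

theorem torsOne : Tors (1 : K) := ⟨1, one_pos, by simp⟩

theorem torsDiv {x y : K} (hx : Tors x) (hy : Tors y) : Tors (x / y) := by
  rw [div_eq_mul_inv]
  exact hx.mul hy.inv

theorem torsNorm {x : K} (hx : Tors x) (σ : K →+* ℂ) : ‖σ x‖ = 1 := by
  obtain ⟨k, hk, h⟩ := hx
  have h1 : ‖σ x‖ ^ k = 1 := by
    rw [← norm_pow, ← map_pow, h, map_one, norm_one]
  exact (pow_eq_one_iff_of_nonneg (norm_nonneg _) hk.ne').1 h1

variable [NumberField K]

theorem mem_orb' {x y : K} : y ∈ orb x ↔ ∃ g : K ≃ₐ[ℚ] K, g x = y := by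
  classical
  unfold orb
  simp

open Classical in
/-- the conjugates of `α` equal to `α` modulo torsion -/
noncomputable def TT (α : K) : Finset K := (orb α).filter fun y => Tors (y / α)

theorem mem_TT {α y : K} : y ∈ TT α ↔ (∃ g : K ≃ₐ[ℚ] K, g α = y) ∧ Tors (y / α) := by
  classical
  unfold TT
  rw [Finset.mem_filter, mem_orb']

theorem self_mem_TT {α : K} (hα : α ≠ 0) : α ∈ TT α := by
  rw [mem_TT]
  exact ⟨⟨AlgEquiv.refl, rfl⟩, by rw [div_self hα]; exact torsOne⟩

/-- the group elements fixing `α` modulo torsion -/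
def PP {α : K} (hα : α ≠ 0) : Subgroup (K ≃ₐ[ℚ] K) where
  carrier := {g | Tors (g α / α)}
  one_mem' := by
    show Tors ((1 : K ≃ₐ[ℚ] K) α / α)
    rw [AlgEquiv.one_apply, div_self hα]
    exact torsOne
  mul_mem' := by
    intro g h hg hh
    show Tors ((g * h) α / α)
    have h1 : (g * h) α / α = g (h α / α) * (g α / α) := by
      have h2 : g α ≠ 0 := by
        intro h0
        exact hα (g.injective (by rw [h0, map_zero]))
      rw [AlgEquiv.mul_apply, map_div₀]
      field_simp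
    rw [h1]
    exact (Tors.map hh g).mul hg
  inv_mem' := by
    intro g hg
    show Tors (g⁻¹ α / α)
    have h1 : g⁻¹ α / α = (g⁻¹ (g α / α))⁻¹ := by
      rw [map_div₀, ← AlgEquiv.mul_apply, inv_mul_cancel, AlgEquiv.one_apply, inv_div]
    rw [h1]
    exact (Tors.map hg g⁻¹).inv

theorem mem_PP {α : K} (hα : α ≠ 0) {g : K ≃ₐ[ℚ] K} : g ∈ PP hα ↔ Tors (g α / α) := Iff.rfl

theorem map_ne_zero' {α : K} (hα : α ≠ 0) (g : K ≃ₐ[ℚ] K) : g α ≠ 0 := by
  intro h0
  exact hα (g.injective (by rw [h0, map_zero]))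

theorem map_mem_TT {α y : K} (hα : α ≠ 0) {g : K ≃ₐ[ℚ] K} (hg : g ∈ PP hα) (hy : y ∈ TT α) :
    g y ∈ TT α := by
  rw [mem_TT] at hy ⊢
  obtain ⟨⟨h, rfl⟩, h2⟩ := hy
  refine ⟨⟨g * h, rfl⟩, ?_⟩
  have h3 := (PP hα).mul_mem hg ((mem_PP hα).2 h2)
  rwa [mem_PP] at h3

theorem image_TT {α : K} (hα : α ≠ 0) {g : K ≃ₐ[ℚ] K} (hg : g ∈ PP hα) [DecidableEq K] :
    (TT α).image g = TT α := by
  apply Finset.eq_of_subset_of_card_le
  · intro z hz
    obtain ⟨y, hy, rfl⟩ := Finset.mem_image.1 hz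
    exact map_mem_TT hα hg hy
  · rw [Finset.card_image_of_injective _ g.injective]

/-- the product of the conjugates of `α` equal to `α` modulo torsion -/
noncomputable def bb (α : K) : K := ∏ y ∈ TT α, y

theorem map_bb {α : K} (hα : α ≠ 0) {g : K ≃ₐ[ℚ] K} (hg : g ∈ PP hα) : g (bb α) = bb α := by
  classical
  unfold bb
  rw [map_prod]
  conv_rhs => rw [← image_TT hα hg]
  rw [Finset.prod_image (fun x _ y _ h => g.injective h)]

theorem isU_bb {α : K} (hα : IsU α) : IsU (bb α) := by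
  unfold bb
  refine IsU.prod _ _ fun y hy => ?_
  obtain ⟨⟨g, rfl⟩, _⟩ := mem_TT.1 hy
  exact hα.map g

theorem tors_bb {α : K} : Tors (bb α / α ^ (TT α).card) := by
  have h : bb α / α ^ (TT α).card = ∏ y ∈ TT α, (y / α) := by
    unfold bb
    rw [Finset.prod_div_distrib, Finset.prod_const]
  rw [h]
  exact Tors.prod _ _ fun y hy => (mem_TT.1 hy).2

theorem card_TT_pos {α : K} (hα : α ≠ 0) : 0 < (TT α).card := Finset.card_pos.2 ⟨α, self_mem_TT hα⟩

theorem mem_PP_of_tors {α : K} (hα : IsU α) {g : K ≃ₐ[ℚ] K} (h : Tors (g (bb α) / bb α)) :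
    g ∈ PP hα.ne := by
  rw [mem_PP]
  apply Tors.of_pow (card_TT_pos hα.ne)
  have hb := (isU_bb hα).ne
  have hgb := map_ne_zero' hb g
  have hga := map_ne_zero' hα.ne g
  have h1 : (g α / α) ^ (TT α).card =
      (g (bb α) / bb α) * (bb α / α ^ (TT α).card) / g (bb α / α ^ (TT α).card) := by
    have ha := hα.ne
    rw [map_div₀, map_pow, div_pow]
    field_simp
  rw [h1]
  exact torsDiv (h.mul tors_bb) (tors_bb.map g)

theorem stabilizer_bb {α : K} (hα : IsU α) :
    MulAction.stabilizer (K ≃ₐ[ℚ] K) (bb α) = PP hα.ne := by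
  ext g
  rw [MulAction.mem_stabilizer_iff]
  constructor
  · intro h
    apply mem_PP_of_tors hα
    have h2 : g (bb α) = bb α := h
    rw [h2, div_self (isU_bb hα).ne]
    exact torsOne
  · intro h
    exact map_bb hα.ne h

theorem red_bb {α : K} (hα : IsU α) : Red (bb α) := fun _ h => map_bb hα.ne (mem_PP_of_tors hα h)

theorem stabilizer_le {α : K} (hα : α ≠ 0) : MulAction.stabilizer (K ≃ₐ[ℚ] K) α ≤ PP hα := by
  intro g hg
  have h2 : g α = α := hg
  rw [mem_PP, h2, div_self hα]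
  exact torsOne

theorem relIndex_PP {α : K} (hα : α ≠ 0) :
    (MulAction.stabilizer (K ≃ₐ[ℚ] K) α).relIndex (PP hα) = (TT α).card := by
  have h1 : (MulAction.stabilizer (K ≃ₐ[ℚ] K) α).relIndex (PP hα) =
      (MulAction.stabilizer (PP hα) α).index := rfl
  rw [h1, MulAction.index_stabilizer]
  have h2 : MulAction.orbit (PP hα) α = (TT α : Set K) := by
    ext y
    rw [Finset.mem_coe, mem_TT]
    constructor
    · rintro ⟨⟨g, hg⟩, rfl⟩
      exact ⟨⟨g, rfl⟩, hg⟩
    · rintro ⟨⟨g, rfl⟩, hg⟩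
      exact ⟨⟨g, hg⟩, rfl⟩
  rw [h2, Set.ncard_coe_finset]

theorem hh_bb {α : K} (hα : IsU α) (σ : K →+* ℂ) : hh σ (bb α) = (TT α).card * hh σ α := by
  unfold hh
  rw [← mul_div_assoc, Finset.mul_sum]
  congr 1
  refine Finset.sum_congr rfl fun g _ => ?_
  have hga := map_ne_zero' hα.ne g
  have h1 : g (bb α) = g (bb α / α ^ (TT α).card) * (g α) ^ (TT α).card := by
    rw [map_div₀, map_pow]
    field_simp
  rw [h1, map_mul, norm_mul, torsNorm (tors_bb.map g) σ, one_mul, map_pow, norm_pow]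
  rcases le_total ‖σ (g α)‖ 1 with h | h
  · rw [max_eq_left h, max_eq_left (pow_le_one₀ (norm_nonneg _) h), Real.log_one, mul_zero]
  · rw [max_eq_right h, max_eq_right (one_le_pow₀ h), Real.log_pow]

end RedAux

open RedAux

theorem exists_red {K : Type*} [Field K] [NumberField K] [IsGalois ℚ K] (α : K) (hα : IsU α) :
    ∃ (β : K) (k : ℕ), 0 < k ∧ β ∈ IntermediateField.adjoin ℚ {α} ∧ IsU β ∧ Red β ∧ Tors (β / α ^ k) ∧ mm β = mm α := by
  have hdeg : (minpoly ℚ α).natDegree = (TT α).card * (minpoly ℚ (bb α)).natDegree := by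
    rw [← index_stabilizer α, ← index_stabilizer (bb α), stabilizer_bb hα, ← relIndex_PP hα.ne]
    exact (Subgroup.relIndex_mul_index (stabilizer_le hα.ne)).symm
  refine ⟨bb α, (TT α).card, card_TT_pos hα.ne, ?_, isU_bb hα, red_bb hα, tors_bb, ?_⟩
  · rw [← IsGalois.fixedField_fixingSubgroup (IntermediateField.adjoin ℚ {α}),
      IntermediateField.mem_fixedField_iff]
    intro g hg
    apply map_bb hα.ne
    apply stabilizer_le hα.ne
    exact (IntermediateField.mem_fixingSubgroup_iff _ _).1 hg α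
      (IntermediateField.subset_adjoin ℚ {α} rfl)
  · obtain ⟨σ⟩ : Nonempty (K →+* ℂ) := inferInstance
    have h1 := log_mm σ α hα.int
    have h2 := log_mm σ (bb α) (isU_bb hα).int
    rw [hh_bb hα σ] at h2
    rw [hdeg] at h1
    push_cast at h1
    refine Real.log_injOn_pos (lt_of_lt_of_le one_pos (one_le_mm _ (isU_bb hα).int))
      (lt_of_lt_of_le one_pos (one_le_mm _ hα.int)) ?_
    rw [h1, h2]
    ring

end Pool.H95.Leh
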