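import Pool.Agent.H95.Leh.FIdx

/-!
# LH-WIDE: from Theorem W to `Wide`

PROOF. Take `n0` from `TheoremW r E`. Let `x i = act (g_i) (Lg ι β) = Lg ι (g_i β)`, `a i = g_i β`; these are integral, of degree `n`
(same minimal polynomial as `β`: `minpoly.algEquiv_eq`), Mahler measure `≤ e` (same minimal polynomial over ℤ:
`minpoly ℤ (g β) = minpoly ℤ β`). If `∏ a_i ^ m_i = 1` then `0 = Lg ι 1 = ∑ m_i x_i` (`Lg_prod_zpow`), so `m = 0` by independence over ℚ.
So `n ^ E < finrank ℚ (adjoin ℚ (range a)) = index (⨅ stabilizer (a i)) = index (⨅ stab (act K) (x i))` by `index_iInf`, `stab_Lg`; and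
`n = (minpoly ℚ β).natDegree = (stabilizer β).index = (stab (act K) (Lg ι β)).index`.
-/

namespace Pool.H95.Leh

open Pool.Agent.H49.St

theorem stab_index_Lg {K : Type*} [Field K] [NumberField K] [IsGalois ℚ K] (ι : K →+* ℂ) {β : K}
    (hβ : IsU β) (hr : Red β) : (stab (act K) (Lg ι β)).index = (minpoly ℚ β).natDegree := by
  have h := stab_Lg ι hβ hr 1
  simp only [AlgEquiv.one_apply] at h
  rw [h, index_stabilizer]

theorem wide_of_W (r : ℕ) (E : ℝ) (hW : H25.TheoremW r E) :
    ∃ n0 : ℕ, ∀ (K : Type) [Field K] [NumberField K] [IsGalois ℚ K] (ι : K →+* ℂ) (β : K),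
      IsU β → Red β → mm β ≤ Real.exp 1 → n0 ≤ (minpoly ℚ β).natDegree →
      Wide (act K) (Lg ι β) r E := by
  obtain ⟨n0, h0⟩ := hW
  refine ⟨n0, fun K _ _ _ ι β hβ hr hm hn => ?_⟩
  intro x hx hli
  choose g hg using hx
  have hx' : ∀ i, x i = Lg ι (g i β) := fun i => hg i
  have h1 := h0 K (minpoly ℚ β).natDegree (fun i => g i β) hn
    (fun i => (IsU.map hβ (g i)).int)
    (fun i => by rw [minpoly.algEquiv_eq])
    (fun i => by
      have h2 : minpoly ℤ (g i β) = minpoly ℤ β :=
        minpoly.algEquiv_eq ((g i).restrictScalars ℤ) β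
      rw [h2]
      exact hm)
    (fun m h2 => by
      have h3 := Lg_prod_zpow ι (fun i => g i β) (fun i => (IsU.map hβ (g i)).ne) m
      have h4 : Lg ι (1 : K) = 0 := by
        funext h
        simp [Lg]
      rw [h2, h4] at h3
      have h5 : ∑ i, (m i : ℚ) • x i = 0 := by
        rw [h3]
        exact Finset.sum_congr rfl fun i _ => by rw [hx']
      have h6 := Fintype.linearIndependent_iff.1 hli (fun i => (m i : ℚ)) h5
      funext i
      exact_mod_cast h6 i)
  have h2 : ∀ i, stab (act K) (x i) = MulAction.stabilizer (K ≃ₐ[ℚ] K) (g i β) := fun i => by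
    rw [hx', stab_Lg ι hβ hr (g i)]
  simp only [h2]
  rw [stab_index_Lg ι hβ hr, index_iInf]
  exact h1

end Pool.H95.Leh
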