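import Pool.Agent.H95.Leh.FSolv

/-!
# The solvable theorem, finite form
-/

namespace Pool.H95.Leh

open Polynomial Pool.Agent.H49.St

/-- the reduced number has bounded degree -/
theorem solv_deg (h2 : H25.TheoremW 2 (19 / 10)) (h4 : H25.TheoremW 4 (7 / 2)) :
    ∃ n2 : ℕ, ∀ (K : Type) [Field K] [NumberField K] [IsGalois ℚ K] (α : K), IsU α → mm α ≤ Real.exp 1 →
      ∀ N : Subgroup (K ≃ₐ[ℚ] K), N.Normal → Group.IsSolvable N →
      (∃ s ∈ N, ¬ Tors (s α / α) ∧ ¬ Tors (s α * α)) →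
      ∃ (β : K) (k : ℕ), 0 < k ∧ β ∈ IntermediateField.adjoin ℚ {α} ∧ IsU β ∧ Red β ∧ Tors (β / α ^ k) ∧
        mm β = mm α ∧ (minpoly ℚ β).natDegree ≤ n2 := by
  obtain ⟨n2, hn2⟩ := wide_of_W 2 (19 / 10) h2
  obtain ⟨n4, hn4⟩ := wide_of_W 4 (7 / 2) h4
  obtain ⟨n1, hn1⟩ := pure_solv
  refine ⟨max (max n2 n4) n1, ?_⟩
  intro K _ _ _ α hα hmme N hNn hNs hex
  obtain ⟨s, hsN, hs1, hs2⟩ := hex
  obtain ⟨β, k, hk, hmem, hβ, hred, htors, hmm⟩ := exists_red α hα
  refine ⟨β, k, hk, hmem, hβ, hred, htors, hmm, ?_⟩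
  by_contra hd
  push Not at hd
  have hlte : mm β ≤ Real.exp 1 := by rw [hmm]; exact hmme
  obtain ⟨ι⟩ : Nonempty (K →+* ℂ) := inferInstance
  have hle : N ≤ lstab (act K) (Lg ι β) := by
    refine hn1 (K ≃ₐ[ℚ] K) ((K ≃ₐ[ℚ] K) → ℝ) (act K) (Lg ι β) ?_ ?_ ?_ N hNn hNs
    · rw [stab_index_Lg ι hβ hred]
      exact le_trans (le_max_right _ _) hd.le
    · exact hn2 K ι β hβ hred hlte (le_trans (le_trans (le_max_left _ _) (le_max_left _ _)) hd.le)
    · exact hn4 K ι β hβ hred hlte (le_trans (le_trans (le_max_right _ _) (le_max_left _ _)) hd.le)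
  rcases (mem_lstab_Lg ι hβ s).mp (hle hsN) with h | h
  · exact hs1 (tors_aux_div hk hα.ne hβ.ne htors s h)
  · exact hs2 (tors_aux_mul hk hα.ne hβ.ne htors s h)

/-- a reduced number all of whose conjugates are `β ^ (± 1)` modulo torsion has degree at most 2 -/
theorem deg_le_two {K : Type} [Field K] [NumberField K] [IsGalois ℚ K] (β : K) (hβ : IsU β) (hred : Red β)
    (hcase : ∀ s : K ≃ₐ[ℚ] K, s β = β ∨ Tors (s β * β)) : (minpoly ℚ β).natDegree ≤ 2 := by
  rw [← card_orb β]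
  by_cases hall : ∀ s : K ≃ₐ[ℚ] K, s β = β
  · classical
    refine le_trans (Finset.card_le_card (t := {β}) ?_) (by simp)
    intro y hy
    unfold H25.Arith.orb at hy
    obtain ⟨g, -, rfl⟩ := Finset.mem_image.mp hy
    simp [hall g]
  · push Not at hall
    obtain ⟨s0, hs0⟩ := hall
    have ht0 : Tors (s0 β * β) := (hcase s0).resolve_left hs0
    classical
    refine le_trans (Finset.card_le_card (t := {β, s0 β}) ?_) Finset.card_le_two
    intro y hy
    unfold H25.Arith.orb at hy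
    obtain ⟨g, -, rfl⟩ := Finset.mem_image.mp hy
    simp only [Finset.mem_insert, Finset.mem_singleton]
    rcases hcase g with h | h
    · exact Or.inl h
    · right
      have hq : Tors (g β / s0 β) := by
        have e : g β / s0 β = (g β * β) * (s0 β * β)⁻¹ := by
          have h1 : β ≠ 0 := hβ.ne
          have h2 : s0 β ≠ 0 := by simpa using hβ.ne
          field_simp
        rw [e]
        exact h.mul ht0.inv
      have hq2 : Tors ((s0⁻¹ * g) β / β) := by
        have := hq.map s0⁻¹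
        rw [map_div₀] at this
        have e0 : s0⁻¹ (s0 β) = β := by
          rw [← AlgEquiv.mul_apply, inv_mul_cancel, AlgEquiv.one_apply]
        rw [e0] at this
        simpa [AlgEquiv.mul_apply] using this
      have h3 := hred _ hq2
      have h4 : s0 ((s0⁻¹ * g) β) = s0 β := by rw [h3]
      rwa [← AlgEquiv.mul_apply, mul_inv_cancel_left] at h4

theorem solv_deg' (h2 : H25.TheoremW 2 (19 / 10)) (h4 : H25.TheoremW 4 (7 / 2)) :
    ∃ n2 : ℕ, ∀ (K : Type) [Field K] [NumberField K] [IsGalois ℚ K] (α : K), IsU α → mm α ≤ Real.exp 1 →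
      Group.IsSolvable (K ≃ₐ[ℚ] K) →
      ∃ (β : K) (k : ℕ), 0 < k ∧ β ∈ IntermediateField.adjoin ℚ {α} ∧ IsU β ∧ Red β ∧ Tors (β / α ^ k) ∧
        mm β = mm α ∧ (minpoly ℚ β).natDegree ≤ n2 := by
  obtain ⟨n2, H⟩ := solv_deg h2 h4
  refine ⟨max n2 2, ?_⟩
  intro K _ _ _ α hα hmme hsol
  by_cases hex : ∃ s : K ≃ₐ[ℚ] K, ¬ Tors (s α / α) ∧ ¬ Tors (s α * α)
  · obtain ⟨s, hs⟩ := hex
    obtain ⟨β, k, h1, h2, h3, h4, h5, h6, h7⟩ :=
      H K α hα hmme ⊤ inferInstance (by infer_instance) ⟨s, Subgroup.mem_top _, hs⟩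
    exact ⟨β, k, h1, h2, h3, h4, h5, h6, h7.trans (le_max_left _ _)⟩
  · push Not at hex
    obtain ⟨β, k, hk, hmem, hβ, hred, htors, hmm⟩ := exists_red α hα
    refine ⟨β, k, hk, hmem, hβ, hred, htors, hmm, ?_⟩
    refine le_trans (deg_le_two β hβ hred ?_) (le_max_right _ _)
    intro s
    by_cases h : Tors (s α / α)
    · exact Or.inl (hred s (tors_aux_div' hα.ne hβ.ne htors s h))
    · exact Or.inr (tors_aux_mul' hα.ne hβ.ne htors s (hex s h))

theorem exists_root_aux (p : ℚ[X]) (hdeg : p.degree ≠ 0) (K : Type) [Field K] [CharZero K] [A : Algebra ℚ K]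
    [IsSplittingField ℚ K p] (hs : Group.IsSolvable (K ≃ₐ[ℚ] K)) :
    ∃ (K : Type) (_ : Field K) (_ : NumberField K) (_ : IsGalois ℚ K) (α : K),
      eval₂ (algebraMap ℚ K) α p = 0 ∧ Group.IsSolvable (K ≃ₐ[ℚ] K) := by
  obtain rfl : A = DivisionRing.toRatAlgebra := Subsingleton.elim _ _
  have hfd : FiniteDimensional ℚ K := IsSplittingField.finiteDimensional K p
  have : NumberField K := { to_finiteDimensional := hfd, to_charZero := inferInstance }
  have hn : Normal ℚ K := Normal.of_isSplittingField p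
  have hg : IsGalois ℚ K := { to_isSeparable := inferInstance, to_normal := hn }
  have hsp : (p.map (algebraMap ℚ K)).Splits := IsSplittingField.splits K p
  obtain ⟨α, hα⟩ := hsp.exists_eval_eq_zero (by simpa using hdeg)
  exact ⟨K, inferInstance, this, hg, α, by rwa [Polynomial.eval_map] at hα, hs⟩

/-- a root of a polynomial with solvable Galois group in a solvable Galois number field -/
theorem exists_root_solv (f : ℤ[X]) (hf : f.natDegree ≠ 0)
    (hs : Group.IsSolvable (f.map (Int.castRingHom ℚ)).Gal) :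
    ∃ (K : Type) (_ : Field K) (_ : NumberField K) (_ : IsGalois ℚ K) (α : K), aeval α f = 0 ∧
      Group.IsSolvable (K ≃ₐ[ℚ] K) := by
  have hdeg : (f.map (Int.castRingHom ℚ)).degree ≠ 0 := by
    intro h
    apply hf
    have h2 : (f.map (Int.castRingHom ℚ)).natDegree = 0 := Polynomial.natDegree_eq_of_degree_eq_some h
    rwa [Polynomial.natDegree_map_eq_of_injective (Int.cast_injective (α := ℚ))] at h2
  obtain ⟨K, i1, i2, i3, α, hα, hs'⟩ := exists_root_aux (f.map (Int.castRingHom ℚ)) hdeg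
    (f.map (Int.castRingHom ℚ)).SplittingField hs
  refine ⟨K, i1, i2, i3, α, ?_, hs'⟩
  rw [Polynomial.eval₂_map] at hα
  have e : (algebraMap ℚ K).comp (Int.castRingHom ℚ) = algebraMap ℤ K := Subsingleton.elim _ _
  rw [e] at hα
  exact hα

/-- Mahler measure of an integer polynomial -/
noncomputable abbrev MZ (f : ℤ[X]) : ℝ := (f.map (Int.castRingHom ℂ)).mahlerMeasure

theorem one_le_MZ {f : ℤ[X]} (hf : f ≠ 0) : 1 ≤ MZ f := one_le_mahlerMeasure_of_ne_zero hf

theorem MZ_const_of_irreducible {f : ℤ[X]} (hf : Irreducible f) (hd : f.natDegree = 0) : 2 ≤ MZ f := by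
  obtain ⟨a, rfl⟩ : ∃ a, f = C a := ⟨f.coeff 0, Polynomial.eq_C_of_natDegree_eq_zero hd⟩
  have ha : Irreducible a := by
    constructor
    · intro hu
      exact hf.not_isUnit (hu.map C)
    · intro x y hxy
      rcases hf.isUnit_or_isUnit (show C a = C x * C y by rw [← C_mul, hxy]) with h | h
      · left; exact (Polynomial.isUnit_C.1 h)
      · right; exact (Polynomial.isUnit_C.1 h)
  have h2 : 2 ≤ |a| := by
    have h0 : a ≠ 0 := ha.ne_zero
    have h1 : ¬ IsUnit a := ha.not_isUnit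
    rw [Int.isUnit_iff] at h1
    rcases abs_cases a with ⟨h, _⟩ | ⟨h, _⟩ <;> omega
  have : MZ (C a) = ‖(a : ℂ)‖ := by
    have e : (C a : ℤ[X]).map (Int.castRingHom ℂ) = C (a : ℂ) := by rw [Polynomial.map_C]; rfl
    rw [MZ, e, Polynomial.mahlerMeasure_const]
  rw [this, Complex.norm_intCast]
  exact_mod_cast h2

theorem MZ_of_root_zero {f : ℤ[X]} (hf : Irreducible f) (h0 : f.coeff 0 = 0) : MZ f = 1 := by
  obtain ⟨g, rfl⟩ := Polynomial.X_dvd_iff.2 h0
  have hg : IsUnit g := by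
    rcases hf.isUnit_or_isUnit rfl with h | h
    · exact absurd h Polynomial.not_isUnit_X
    · exact h
  obtain ⟨u, hu, rfl⟩ := Polynomial.isUnit_iff.1 hg
  have : ‖(u : ℂ)‖ = 1 := by
    rw [Int.isUnit_iff] at hu
    rcases hu with rfl | rfl <;> simp
  have hX : (X : ℂ[X]).mahlerMeasure = 1 := by
    have := Polynomial.mahlerMeasure_X_sub_C 0
    simpa using this
  have e : (X * C u : ℤ[X]).map (Int.castRingHom ℂ) = X * C (u : ℂ) := by
    rw [Polynomial.map_mul, Polynomial.map_X, Polynomial.map_C]; rfl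
  rw [MZ, e, Polynomial.mahlerMeasure_mul, hX, Polynomial.mahlerMeasure_const, this, one_mul]

/-- **(A)** the set of Mahler measures `< 2` of irreducible integer polynomials with solvable Galois group is finite -/
theorem finite_of_W (h2 : H25.TheoremW 2 (19 / 10)) (h4 : H25.TheoremW 4 (7 / 2)) :
    {x : ℝ | x < 2 ∧ ∃ f : ℤ[X], Irreducible f ∧ Group.IsSolvable (f.map (Int.castRingHom ℚ)).Gal ∧
      (f.map (Int.castRingHom ℂ)).mahlerMeasure = x}.Finite := by
  obtain ⟨n2, H⟩ := solv_deg' h2 h4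
  refine (((finite_mahlerMeasure_le n2 2).image MZ).union (Set.finite_singleton 1)).subset ?_
  rintro x ⟨hx2, f, hf, hs, rfl⟩
  by_cases hd : f.natDegree = 0
  · exact absurd (MZ_const_of_irreducible hf hd) (not_le.2 hx2)
  obtain ⟨K, i1, i2, i3, α, h0, hs'⟩ := exists_root_solv f hd hs
  by_cases hα : α = 0
  · right
    subst hα
    refine MZ_of_root_zero hf ?_
    have : (f.coeff 0 : K) = 0 := by
      simpa [Polynomial.aeval_def, Polynomial.eval₂_at_zero] using h0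
    exact_mod_cast this
  rcases poly_cases f hf α h0 hα with h | ⟨hU, hM⟩
  · exact absurd h (not_le.2 hx2)
  left
  have he : mm α ≤ Real.exp 1 := by
    rw [← hM]
    have := Real.add_one_le_exp (1 : ℝ)
    linarith
  obtain ⟨β, k, _, _, hβ, _, _, hmm, hdeg⟩ := H K α hU he hs'
  refine ⟨minpoly ℤ β, ⟨?_, ?_⟩, ?_⟩
  · rwa [natDegree_minpoly_int β hβ.int]
  · change mm β ≤ 2
    rw [hmm, ← hM]
    exact hx2.le
  · change mm β = _
    rw [hmm, ← hM]

/-- same for numbers moved by a solvable normal subgroup -/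
theorem finite_of_W' (h2 : H25.TheoremW 2 (19 / 10)) (h4 : H25.TheoremW 4 (7 / 2)) :
    {x : ℝ | x < 2 ∧ ∃ (K : Type) (_ : Field K) (_ : NumberField K) (_ : IsGalois ℚ K) (α : K) (f : ℤ[X])
      (N : Subgroup (K ≃ₐ[ℚ] K)), Irreducible f ∧ aeval α f = 0 ∧ N.Normal ∧ Group.IsSolvable N ∧
      (∃ s ∈ N, (∀ k : ℕ, 0 < k → (s α) ^ k ≠ α ^ k) ∧ (∀ k : ℕ, 0 < k → (s α * α) ^ k ≠ 1)) ∧
      (f.map (Int.castRingHom ℂ)).mahlerMeasure = x}.Finite := by
  obtain ⟨n2, H⟩ := solv_deg h2 h4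
  refine ((finite_mahlerMeasure_le n2 2).image MZ).subset ?_
  rintro x ⟨hx2, K, _, _, _, α, f, N, hf, h0, hN, hNs, ⟨s, hsN, hs1, hs2⟩, rfl⟩
  have hα : α ≠ 0 := by
    rintro rfl
    exact hs1 1 one_pos (by simp)
  rcases poly_cases f hf α h0 hα with h | ⟨hU, hM⟩
  · exact absurd h (not_le.2 hx2)
  have he : mm α ≤ Real.exp 1 := by
    rw [← hM]
    have := Real.add_one_le_exp (1 : ℝ)
    linarith
  have t1 : ¬ Tors (s α / α) := by
    rintro ⟨k, hk, hk1⟩
    refine hs1 k hk ?_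
    rwa [div_pow, div_eq_one_iff_eq (pow_ne_zero _ hα)] at hk1
  have t2 : ¬ Tors (s α * α) := by
    rintro ⟨k, hk, hk1⟩
    exact hs2 k hk hk1
  obtain ⟨β, k, _, _, hβ, _, _, hmm, hdeg⟩ := H K α hU he N hN hNs ⟨s, hsN, t1, t2⟩
  refine ⟨minpoly ℤ β, ⟨?_, ?_⟩, ?_⟩
  · rwa [natDegree_minpoly_int β hβ.int]
  · change mm β ≤ 2
    rw [hmm, ← hM]
    exact hx2.le
  · change mm β = _
    rw [hmm, ← hM]

theorem exists_c_of_finite {S : Set ℝ} (hS : S.Finite) : ∃ c : ℝ, 1 < c ∧ c ≤ 2 ∧ ∀ x ∈ S, 1 < x → c ≤ x := by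
  classical
  let T := insert (2 : ℝ) (hS.toFinset.filter fun x => 1 < x)
  have hT : T.Nonempty := ⟨2, by simp [T]⟩
  refine ⟨T.min' hT, ?_, T.min'_le 2 (by simp [T]), fun x hx h1 => T.min'_le x (by simp [T, hx, h1])⟩
  have := T.min'_mem hT
  simp only [T, Finset.mem_insert, Finset.mem_filter, Set.Finite.mem_toFinset] at this
  rcases this with h | h
  · rw [h]; norm_num
  · exact h.2

theorem MZ_eq_one_of_factors (f : ℤ[X]) (hf : f ≠ 0) (h : ∀ g : ℤ[X], Irreducible g → g ∣ f → MZ g = 1) :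
    MZ f = 1 := by
  induction f using UniqueFactorizationMonoid.induction_on_prime with
  | h₁ => exact absurd rfl hf
  | h₂ u hu =>
    obtain ⟨a, ha, rfl⟩ := Polynomial.isUnit_iff.1 hu
    have e : (C a : ℤ[X]).map (Int.castRingHom ℂ) = C (a : ℂ) := by rw [Polynomial.map_C]; rfl
    rw [MZ, e, Polynomial.mahlerMeasure_const]
    rw [Int.isUnit_iff] at ha
    rcases ha with rfl | rfl <;> simp
  | h₃ a p ha hp ih =>
    have h1 : MZ p = 1 := h p hp.irreducible (dvd_mul_right p a)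
    have h2 : MZ a = 1 := ih ha fun g hg hga => h g hg (hga.mul_left p)
    simp only [MZ, Polynomial.map_mul, Polynomial.mahlerMeasure_mul] at *
    rw [h1, h2, one_mul]

/-- **(A')** -/
theorem lehmer_of_W (h2 : H25.TheoremW 2 (19 / 10)) (h4 : H25.TheoremW 4 (7 / 2)) :
    ∃ c : ℝ, 1 < c ∧ ∀ f : ℤ[X], Group.IsSolvable (f.map (Int.castRingHom ℚ)).Gal →
      1 < (f.map (Int.castRingHom ℂ)).mahlerMeasure → c ≤ (f.map (Int.castRingHom ℂ)).mahlerMeasure := by
  obtain ⟨c, hc1, hc2, hc⟩ := exists_c_of_finite (finite_of_W h2 h4)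
  refine ⟨c, hc1, fun f hs hM => ?_⟩
  have hf0 : f ≠ 0 := by
    rintro rfl
    simp at hM
    linarith
  obtain ⟨g, hg, hgf, hg1⟩ : ∃ g : ℤ[X], Irreducible g ∧ g ∣ f ∧ MZ g ≠ 1 := by
    by_contra hcon
    push Not at hcon
    exact hM.ne' (MZ_eq_one_of_factors f hf0 hcon)
  obtain ⟨q, rfl⟩ := hgf
  have hg0 : g ≠ 0 := left_ne_zero_of_mul hf0
  have hq0 : q ≠ 0 := right_ne_zero_of_mul hf0
  have hg1' : 1 < MZ g := lt_of_le_of_ne (one_le_MZ hg0) (Ne.symm hg1)
  have hcg : c ≤ MZ g := by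
    by_cases h : MZ g < 2
    · refine hc _ ⟨h, g, hg, ?_, rfl⟩ hg1'
      have hdvd : g.map (Int.castRingHom ℚ) ∣ (g * q).map (Int.castRingHom ℚ) := by
        rw [Polynomial.map_mul]; exact dvd_mul_right _ _
      have hne : (g * q).map (Int.castRingHom ℚ) ≠ 0 :=
        (Polynomial.map_ne_zero_iff (Int.cast_injective (α := ℚ))).2 hf0
      exact Group.isSolvable_of_surjective (Polynomial.Gal.restrictDvd_surjective hdvd hne)
    · push Not at h
      exact hc2.trans h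
  have hmul : MZ (g * q) = MZ g * MZ q := by
    simp [MZ, Polynomial.map_mul, Polynomial.mahlerMeasure_mul]
  change c ≤ MZ (g * q)
  rw [hmul]
  have := one_le_MZ hq0
  nlinarith

end Pool.H95.Leh
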