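import Pool.Agent.H95.Leh.LADefs

/-!
# LH-SUB

`exists_sub`: PROOF. `v = c + x b`; `span {b, c} = span {b, v} =: P`. `B = {s : A | s b ∈ P}`. It contains 1; if `s, t ∈ B` then
`t b = p b + q v`, `s t b = p s b + q χ(s) v ∈ P`; inverses: `A` is finite (or: `ρ s` maps `P` into `P` for `s ∈ B`, so `ρ s⁻¹` (a power)).
Index: for `s ∈ A` write `s = u w`, `u` a coset representative of `A / B`, `w ∈ B`: `s b = u (w b) ∈ u P`. So `spn ρ A b ≤ ⨆_{u} u P`, whose
finrank is ≤ 2 · index. So 9 ≤ 2 · index.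

`char_eq`: PROOF. Suppose `χ₁ ≠ χ₂`; `K = {s : χ₁ s = χ₂ s} = ker (χ₁ / χ₂)`, proper, so `2 |K| ≤ |A|`; `A = K ∪ B₁ ∪ B₂`,
`5 |B_i| ≤ |B_i| * index = |A|`, so `|A| ≤ |A|/2 + 2|A|/5 < |A|`.
-/

namespace Pool.H95.Leh

open Module

variable {Γ V : Type*} [Group Γ] [AddCommGroup V] [Module ℚ V]

/-- If `v = c + x b` is a common eigenvector of `A`, the elements `s ∈ A` with `s b` in the plane `<b, c>` form
a subgroup; its index is at least 5 when the orbit of `b` spans a space of dimension at least 9. -/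
theorem exists_sub [Finite Γ] (ρ : Representation ℚ Γ V) (A : Subgroup Γ) (b c : V) (x : ℚ) (χ : A →* ℤˣ)
    (hv : IsEig ρ A χ (c + x • b)) (hD : 9 ≤ finrank ℚ (spn ρ A b)) :
    ∃ B : Subgroup A, (∀ s : A, s ∈ B ↔ ρ (s : Γ) b ∈ Submodule.span ℚ {b, c}) ∧ 5 ≤ B.index := by
  classical
  set P : Submodule ℚ V := Submodule.span ℚ {b, c} with hP
  have hbP : b ∈ P := Submodule.subset_span (by simp)
  have hcP : c ∈ P := Submodule.subset_span (by simp)
  have hvP : c + x • b ∈ P := P.add_mem hcP (P.smul_mem _ hbP)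
  have hst : ∀ s : A, ρ (s : Γ) b ∈ P → ∀ w ∈ P, ρ (s : Γ) w ∈ P := by
    intro s hs w hw
    have hsv : ρ (s : Γ) (c + x • b) ∈ P := by
      rw [hv s]
      exact P.smul_mem _ hvP
    have hsc : ρ (s : Γ) c ∈ P := by
      have h1 : ρ (s : Γ) c = ρ (s : Γ) (c + x • b) - x • ρ (s : Γ) b := by
        rw [map_add, map_smul]
        abel
      rw [h1]
      exact P.sub_mem hsv (P.smul_mem _ hs)
    rw [hP, Submodule.mem_span_pair] at hw
    obtain ⟨p, q, rfl⟩ := hw
    rw [map_add, map_smul, map_smul]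
    exact P.add_mem (P.smul_mem _ hs) (P.smul_mem _ hsc)
  have hmul : ∀ s t : A, ρ (s : Γ) b ∈ P → ρ (t : Γ) b ∈ P → ρ ((s * t : A) : Γ) b ∈ P := by
    intro s t hs ht
    rw [Subgroup.coe_mul, map_mul, Module.End.mul_apply]
    exact hst s hs _ ht
  have hone : ρ ((1 : A) : Γ) b ∈ P := by
    rw [Subgroup.coe_one, map_one, Module.End.one_apply]
    exact hbP
  have hpow : ∀ (s : A) (n : ℕ), ρ (s : Γ) b ∈ P → ρ ((s ^ n : A) : Γ) b ∈ P := by
    intro s n hs
    induction n with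
    | zero => simpa using hone
    | succ n ih =>
      rw [pow_succ]
      exact hmul _ _ ih hs
  have hinv : ∀ s : A, ρ (s : Γ) b ∈ P → ρ ((s⁻¹ : A) : Γ) b ∈ P := by
    intro s hs
    have h1 : s⁻¹ = s ^ (orderOf s - 1) := by
      rw [inv_eq_iff_mul_eq_one, ← pow_succ']
      have := orderOf_pos s
      rw [Nat.sub_add_cancel this]
      exact pow_orderOf_eq_one s
    rw [h1]
    exact hpow s _ hs
  let B : Subgroup A :=
    { carrier := {s | ρ (s : Γ) b ∈ P}
      mul_mem' := fun {s t} hs ht => hmul s t hs ht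
      one_mem' := hone
      inv_mem' := fun {s} hs => hinv s hs }
  have hB : ∀ s : A, s ∈ B ↔ ρ (s : Γ) b ∈ P := fun s => Iff.rfl
  refine ⟨B, hB, ?_⟩
  haveI : Fintype (A ⧸ B) := Fintype.ofFinite _
  let f : (A ⧸ B) × Bool → V := fun q => ρ ((q.1.out : A) : Γ) (if q.2 then b else c)
  have hle : spn ρ A b ≤ Submodule.span ℚ (Set.range f) := by
    unfold spn
    rw [Submodule.span_le]
    rintro _ ⟨s, hs, rfl⟩
    let s' : A := ⟨s, hs⟩
    let q : A ⧸ B := (s' : A ⧸ B)
    have hw : q.out⁻¹ * s' ∈ B := by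
      rw [← QuotientGroup.eq]
      exact Quotient.out_eq' q
    have hw2 : ρ ((q.out⁻¹ * s' : A) : Γ) b ∈ P := (hB _).1 hw
    rw [hP, Submodule.mem_span_pair] at hw2
    obtain ⟨p, r, hpr⟩ := hw2
    have h2 : ρ s b = p • f (q, true) + r • f (q, false) := by
      have h3 : s = (q.out : Γ) * ((q.out⁻¹ * s' : A) : Γ) := by
        rw [Subgroup.coe_mul, Subgroup.coe_inv, mul_inv_cancel_left]
      rw [h3, map_mul, Module.End.mul_apply, ← hpr, map_add, map_smul, map_smul]
      simp [f]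
    change ρ s b ∈ Submodule.span ℚ (Set.range f)
    rw [h2]
    exact Submodule.add_mem _ (Submodule.smul_mem _ _ (Submodule.subset_span ⟨_, rfl⟩))
      (Submodule.smul_mem _ _ (Submodule.subset_span ⟨_, rfl⟩))
  haveI : FiniteDimensional ℚ (Submodule.span ℚ (Set.range f)) :=
    FiniteDimensional.span_of_finite ℚ (Set.finite_range f)
  have h4 : finrank ℚ (spn ρ A b) ≤ finrank ℚ (Submodule.span ℚ (Set.range f)) := Submodule.finrank_mono hle
  have h5 : finrank ℚ (Submodule.span ℚ (Set.range f)) ≤ Fintype.card ((A ⧸ B) × Bool) :=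
    finrank_range_le_card f
  rw [Fintype.card_prod, Fintype.card_bool, ← Nat.card_eq_fintype_card] at h5
  have h6 : B.index = Nat.card (A ⧸ B) := rfl
  omega

/-- Two sign characters which agree outside the union of two subgroups of index at least 5 are equal. -/
theorem char_eq {A : Type*} [Group A] [Finite A] (χ₁ χ₂ : A →* ℤˣ) (B₁ B₂ : Subgroup A)
    (h₁ : 5 ≤ B₁.index) (h₂ : 5 ≤ B₂.index) (h : ∀ s, s ∉ B₁ → s ∉ B₂ → χ₁ s = χ₂ s) : χ₁ = χ₂ := by
  classical
  by_contra hne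
  let K : Subgroup A := MonoidHom.eqLocus χ₁ χ₂
  have hK : K ≠ ⊤ := by
    intro hK
    apply hne
    ext1 s
    have : s ∈ K := by rw [hK]; trivial
    exact this
  have hK2 : 1 < K.index := Subgroup.one_lt_index_of_ne_top hK
  have e0 := K.card_mul_index
  have e1 := B₁.card_mul_index
  have e2 := B₂.card_mul_index
  have hcov : (Set.univ : Set A) ⊆ ((K : Set A) ∪ (B₁ : Set A)) ∪ (B₂ : Set A) := by
    intro s _
    by_cases h1 : s ∈ B₁
    · exact Or.inl (Or.inr h1)
    · by_cases h2 : s ∈ B₂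
      · exact Or.inr h2
      · exact Or.inl (Or.inl (h s h1 h2))
  have hc : Nat.card A ≤ Nat.card K + Nat.card B₁ + Nat.card B₂ := by
    have c1 := Set.ncard_le_ncard hcov (Set.toFinite _)
    have c2 := Set.ncard_union_le ((K : Set A) ∪ (B₁ : Set A)) (B₂ : Set A)
    have c3 := Set.ncard_union_le (K : Set A) (B₁ : Set A)
    rw [Set.ncard_univ] at c1
    have d0 : (K : Set A).ncard = Nat.card K := rfl
    have d1 : (B₁ : Set A).ncard = Nat.card B₁ := rfl
    have d2 : (B₂ : Set A).ncard = Nat.card B₂ := rfl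
    omega
  have hpos : 0 < Nat.card A := Nat.card_pos
  have m0 : Nat.card K * 2 ≤ Nat.card A := by
    rw [← e0]; exact Nat.mul_le_mul_left _ hK2
  have m1 : Nat.card B₁ * 5 ≤ Nat.card A := by
    rw [← e1]; exact Nat.mul_le_mul_left _ h₁
  have m2 : Nat.card B₂ * 5 ≤ Nat.card A := by
    rw [← e2]; exact Nat.mul_le_mul_left _ h₂
  omega

end Pool.H95.Leh
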