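import Pool.Agent.H95.Leh.LADefs

/-!
# LH-TWO

PROOF of `two_eigen`. Write `η = ±1` for the sign in `H.comm` with `g = 1`: `ρ (s t) b = η ρ (t s) b`. `c = χ s`, `c' = χ' t` (as ±1 in ℚ).
Put `v = t b + x b`, `v' = s b + x' b`; `s v = c v`, `t v' = c' v'`. Then
`s t b = s (v - x b) = c v - x s b = c (t b + x b) - x s b` and `t s b = t (v' - x' b) = c' (s b + x' b) - x' t b`.
Compare coefficients in `s t b = η t s b` with respect to the independent vectors `b, s b, t b`: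
`t b`: `c = - η x'`; `s b`: `- x = η c'`; `b`: `c x = η c' x'`. From the first two, `x' = -η c`, `x = -η c'`, and the third reads
`-η c c' = -η² c c' = - c c'`, so `η = 1`. (`η, c, c' ∈ {1, -1}`.)
-/

namespace Pool.H95.Leh

open Module

variable {Γ V : Type*} [Group Γ] [AddCommGroup V] [Module ℚ V]

theorem three_coeff {u v w : V} (h : LinearIndependent ℚ ![u, v, w]) {α β γ : ℚ}
    (h0 : α • u + β • v + γ • w = 0) : α = 0 ∧ β = 0 ∧ γ = 0 := by
  have h1 := Fintype.linearIndependent_iff.1 h ![α, β, γ] (by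
    simp only [Fin.sum_univ_three, Matrix.cons_val_zero, Matrix.cons_val_one, Matrix.cons_val]
    exact h0)
  exact ⟨h1 0, h1 1, h1 2⟩

theorem two_eigen {ρ : Representation ℚ Γ V} {A₁ A₂ : Subgroup Γ} {b : V}
    (H : Hyp ρ A₁ A₂ b) (s : A₁) (t : A₂) (hind : LinearIndependent ℚ ![b, ρ (s : Γ) b, ρ (t : Γ) b])
    (x x' : ℚ) (χ : A₁ →* ℤˣ) (χ' : A₂ →* ℤˣ)
    (hx : IsEig ρ A₁ χ (ρ (t : Γ) b + x • b)) (hx' : IsEig ρ A₂ χ' (ρ (s : Γ) b + x' • b)) :
    ρ ((s : Γ) * t) b = ρ ((t : Γ) * s) b ∧ x = - ((((χ' t : ℤˣ) : ℤ) : ℚ)) ∧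
      x' = - ((((χ s : ℤˣ) : ℤ) : ℚ)) := by
  have h1 := hx s
  have h2 := hx' t
  set c : ℚ := ((((χ s : ℤˣ) : ℤ) : ℚ)) with hc
  set c' : ℚ := ((((χ' t : ℤˣ) : ℤ) : ℚ)) with hc'
  have hc1 : c ≠ 0 := by
    rcases Int.units_eq_one_or (χ s) with h | h <;> rw [hc, h] <;> norm_num
  have hc1' : c' ≠ 0 := by
    rcases Int.units_eq_one_or (χ' t) with h | h <;> rw [hc', h] <;> norm_num
  rw [map_add, map_smul] at h1 h2
  have e1 : ρ ((s : Γ) * t) b = ρ (s : Γ) (ρ (t : Γ) b) := by rw [map_mul]; rfl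
  have e2 : ρ ((t : Γ) * s) b = ρ (t : Γ) (ρ (s : Γ) b) := by rw [map_mul]; rfl
  have e3 := H.comm s s.2 t t.2 1
  rw [mul_one, mul_one] at e3
  rcases e3 with e3 | e3
  · refine ⟨e3, ?_⟩
    rw [e1, e2] at e3
    have h3 : (c * x - c' * x') • b + (-x - c') • ρ (s : Γ) b + (c + x') • ρ (t : Γ) b = 0 := by
      linear_combination (norm := module) (e3 - h1 + h2)
    obtain ⟨-, h4, h5⟩ := three_coeff hind h3
    exact ⟨by linarith, by linarith⟩
  · exfalso
    rw [e1, e2] at e3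
    have h3 : (c * x + c' * x') • b + (-x + c') • ρ (s : Γ) b + (c - x') • ρ (t : Γ) b = 0 := by
      linear_combination (norm := module) (e3 - h1 - h2)
    obtain ⟨h6, h4, h5⟩ := three_coeff hind h3
    have h7 : x = c' := by linarith
    have h8 : x' = c := by linarith
    rw [h7, h8] at h6
    have h9 : c * c' = 0 := by linarith
    exact (mul_ne_zero hc1 hc1') h9

end Pool.H95.Leh
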