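import Pool.Agent.H95.Leh.Eigen
import Pool.Agent.H95.Leh.Two
import Pool.Agent.H95.Leh.Sub

/-!
# LH-CHARS

PROOF of `exists_chars`. For `t ∈ A₂` moving the line of `b` (`t b ∉ span {b}`) `exists_eigen` gives `x_t`, `χ_t` with `t b + x_t b` an
`A₁`-eigenvector; for `s ∈ A₁` moving the line, `exists_eigen H.symm` gives `x'_s`, `χ'_s`. `B_t = {s ∈ A₁ | s b ∈ span {b, t b}}` is the
subgroup of `exists_sub` (with `c = t b`), index ≥ 5.
(1) `two_eigen` for `s ∉ B_t` (then `b, s b, t b` are independent and `s` moves the line of `b`): `x_t = -χ'_s(t)`, `x'_s = -χ_t(s)`.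
(2) for `t, t'` moving the line: `s ∉ B_t`, `s ∉ B_t'` implies `χ_t(s) = -x'_s = χ_t'(s)`; so `χ_t = χ_t'` by `char_eq`. So all `χ_t` are equal
to one `χ` (choose any `t`, exists since `hD₂`: otherwise `spn ρ A₂ b ≤ span {b}`); symmetrically all `χ'_s` are equal to one `χ'`.
(3) for `t` moving the line there is `s ∈ A₁` with `s b ∉ span {b, t b}` (else `spn ρ A₁ b ≤ span {b, t b}` has finrank ≤ 2), so
`x_t = -χ'(t)` by (1); symmetrically `x'_s = -χ(s)`.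
-/

namespace Pool.H95.Leh

open Module

variable {Γ V : Type*} [Group Γ] [AddCommGroup V] [Module ℚ V]

omit [Group Γ] in
theorem cast_inj_units {u v : ℤˣ} (h : (((u : ℤˣ) : ℤ) : ℚ) = (((v : ℤˣ) : ℤ) : ℚ)) : u = v :=
  Units.ext (by exact_mod_cast h)

theorem indep_three {b c e : V} (hb : b ≠ 0) (h1 : c ∉ Submodule.span ℚ {b})
    (h2 : e ∉ Submodule.span ℚ {b, c}) : LinearIndependent ℚ ![b, e, c] := by
  rw [Fintype.linearIndependent_iff]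
  intro g hg
  simp only [Fin.sum_univ_three, Matrix.cons_val_zero, Matrix.cons_val_one,
    Matrix.cons_val] at hg
  have g1 : g 1 = 0 := by
    by_contra hne
    refine h2 (Submodule.mem_span_pair.2 ⟨-(g 0 / g 1), -(g 2 / g 1), ?_⟩)
    have h3 : e = (g 1)⁻¹ • (g 1 • e) := by rw [smul_smul, inv_mul_cancel₀ hne, one_smul]
    have h4 : g 1 • e = -(g 0 • b) - g 2 • c := by
      have : g 1 • e = (g 0 • b + g 1 • e + g 2 • c) - g 0 • b - g 2 • c := by abel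
      rw [this, hg]
      abel
    rw [h3, h4, smul_sub, smul_neg, smul_smul, smul_smul, neg_smul, neg_smul, ← sub_eq_add_neg]
    congr 2 <;> congr 1 <;> field_simp
  have g2 : g 2 = 0 := by
    by_contra hne
    refine h1 (Submodule.mem_span_singleton.2 ⟨-(g 0 / g 2), ?_⟩)
    rw [g1, zero_smul, add_zero] at hg
    have h3 : c = (g 2)⁻¹ • (g 2 • c) := by rw [smul_smul, inv_mul_cancel₀ hne, one_smul]
    have h4 : g 2 • c = -(g 0 • b) := by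
      have : g 2 • c = (g 0 • b + g 2 • c) - g 0 • b := by abel
      rw [this, hg]
      abel
    rw [h3, h4, smul_neg, smul_smul, neg_smul]
    congr 2
    field_simp
  have g0 : g 0 = 0 := by
    rw [g1, g2, zero_smul, zero_smul, add_zero, add_zero] at hg
    exact (smul_eq_zero.1 hg).resolve_right hb
  intro i
  fin_cases i
  · exact g0
  · exact g1
  · exact g2

/-- Some element moves the line of `b`. -/
theorem exists_moving [Finite Γ] (ρ : Representation ℚ Γ V) (A : Subgroup Γ) (b : V)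
    (hD : 9 ≤ finrank ℚ (spn ρ A b)) : ∃ t : A, ρ (t : Γ) b ∉ Submodule.span ℚ {b} := by
  by_contra hne
  push Not at hne
  have h1 : spn ρ A b ≤ Submodule.span ℚ {b} := by
    refine Submodule.span_le.2 ?_
    rintro _ ⟨s, hs, rfl⟩
    exact hne ⟨s, hs⟩
  have h2 : finrank ℚ (spn ρ A b) ≤ finrank ℚ (Submodule.span ℚ {b}) :=
    Submodule.finrank_mono h1
  have h3 : finrank ℚ (Submodule.span ℚ ({b} : Set V)) ≤ 1 := by
    have := finrank_span_le_card (R := ℚ) ({b} : Set V)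
    simpa using this
  omega

/-- One half of the statement for all `t`, `s`. -/
theorem half [Finite Γ] {ρ : Representation ℚ Γ V} {A₁ A₂ : Subgroup Γ} {b : V}
    (hD₁ : 9 ≤ finrank ℚ (spn ρ A₁ b)) (x : A₂ → ℚ) (χt : A₂ → (A₁ →* ℤˣ))
    (hχ : ∀ t : A₂, ρ (t : Γ) b ∉ Submodule.span ℚ {b} → IsEig ρ A₁ (χt t) (ρ (t : Γ) b + x t • b))
    (x' : A₁ → ℚ) (χs : A₁ → (A₂ →* ℤˣ))
    (h12 : ∀ t : A₂, ∀ s : A₁, ρ (t : Γ) b ∉ Submodule.span ℚ {b} →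
      ρ (s : Γ) b ∉ Submodule.span ℚ {b, ρ (t : Γ) b} →
      x t = - (((χs s t : ℤˣ) : ℤ) : ℚ) ∧ x' s = - (((χt t s : ℤˣ) : ℤ) : ℚ)) :
    (∀ t t' : A₂, ρ (t : Γ) b ∉ Submodule.span ℚ {b} → ρ (t' : Γ) b ∉ Submodule.span ℚ {b} →
      χt t = χt t') ∧
    ∀ t : A₂, ρ (t : Γ) b ∉ Submodule.span ℚ {b} → ∃ s : A₁,
      ρ (s : Γ) b ∉ Submodule.span ℚ {b} ∧ x t = - (((χs s t : ℤˣ) : ℤ) : ℚ) := by
  constructor
  · intro t t' ht ht'
    obtain ⟨B, hB, hB5⟩ := exists_sub ρ A₁ b (ρ (t : Γ) b) (x t) (χt t) (hχ t ht) hD₁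
    obtain ⟨B', hB', hB5'⟩ := exists_sub ρ A₁ b (ρ (t' : Γ) b) (x t') (χt t') (hχ t' ht') hD₁
    refine char_eq _ _ B B' hB5 hB5' fun s hs hs' => cast_inj_units ?_
    have h1 := (h12 t s ht (fun h => hs ((hB s).2 h))).2
    have h2 := (h12 t' s ht' (fun h => hs' ((hB' s).2 h))).2
    linarith
  · intro t ht
    obtain ⟨B, hB, hB5⟩ := exists_sub ρ A₁ b (ρ (t : Γ) b) (x t) (χt t) (hχ t ht) hD₁
    have hBt : B ≠ ⊤ := by
      rintro rfl
      rw [Subgroup.index_top] at hB5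
      omega
    obtain ⟨s, hs⟩ : ∃ s, s ∉ B := by
      by_contra hne
      push Not at hne
      exact hBt (eq_top_iff.2 fun s _ => hne s)
    have hs2 : ρ (s : Γ) b ∉ Submodule.span ℚ {b, ρ (t : Γ) b} := fun h => hs ((hB s).2 h)
    refine ⟨s, fun h => hs2 (Submodule.span_mono (by simp) h), (h12 t s ht hs2).1⟩

/-- There are sign characters `χ, χ'` of `A₁, A₂` such that `t b - χ'(t) b` is an `A₁`-eigenvector with character
`χ` for all `t ∈ A₂` moving the line of `b`, and `s b - χ(s) b` is an `A₂`-eigenvector with character `χ'` for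
all `s ∈ A₁` moving the line of `b`. -/
theorem exists_chars [Finite Γ] {ρ : Representation ℚ Γ V} {A₁ A₂ : Subgroup Γ} {b : V}
    (H : Hyp ρ A₁ A₂ b) (hD₁ : 9 ≤ finrank ℚ (spn ρ A₁ b)) (hD₂ : 9 ≤ finrank ℚ (spn ρ A₂ b)) :
    ∃ (χ : A₁ →* ℤˣ) (χ' : A₂ →* ℤˣ),
      (∀ t : A₂, ρ (t : Γ) b ∉ Submodule.span ℚ {b} →
        IsEig ρ A₁ χ (ρ (t : Γ) b - (((χ' t : ℤˣ) : ℤ) : ℚ) • b)) ∧
      (∀ s : A₁, ρ (s : Γ) b ∉ Submodule.span ℚ {b} →
        IsEig ρ A₂ χ' (ρ (s : Γ) b - (((χ s : ℤˣ) : ℤ) : ℚ) • b)) := by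
  have h1 : ∀ t : A₂, ρ (t : Γ) b ∉ Submodule.span ℚ {b} → ∃ (x : ℚ) (χ : A₁ →* ℤˣ),
      IsEig ρ A₁ χ (ρ (t : Γ) b + x • b) := fun t ht => exists_eigen H (by omega) t.2 ht
  have h2 : ∀ s : A₁, ρ (s : Γ) b ∉ Submodule.span ℚ {b} → ∃ (x : ℚ) (χ : A₂ →* ℤˣ),
      IsEig ρ A₂ χ (ρ (s : Γ) b + x • b) := fun s hs => exists_eigen H.symm (by omega) s.2 hs
  obtain ⟨t₀, ht₀⟩ := exists_moving ρ A₂ b hD₂
  obtain ⟨s₀, hs₀⟩ := exists_moving ρ A₁ b hD₁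
  have hb : b ≠ 0 := by
    rintro rfl
    exact ht₀ (by simp)
  choose! x χt hχ using h1
  choose! x' χs hχ' using h2
  have hmov : ∀ (t : A₂) (s : A₁), ρ (s : Γ) b ∉ Submodule.span ℚ {b, ρ (t : Γ) b} →
      ρ (s : Γ) b ∉ Submodule.span ℚ {b} := fun t s h h' =>
    h (Submodule.span_mono (by simp) h')
  have hmov' : ∀ (s : A₁) (t : A₂), ρ (t : Γ) b ∉ Submodule.span ℚ {b, ρ (s : Γ) b} →
      ρ (t : Γ) b ∉ Submodule.span ℚ {b} := fun s t h h' =>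
    h (Submodule.span_mono (by simp) h')
  have h12 : ∀ t : A₂, ∀ s : A₁, ρ (t : Γ) b ∉ Submodule.span ℚ {b} →
      ρ (s : Γ) b ∉ Submodule.span ℚ {b, ρ (t : Γ) b} →
      x t = - (((χs s t : ℤˣ) : ℤ) : ℚ) ∧ x' s = - (((χt t s : ℤˣ) : ℤ) : ℚ) := by
    intro t s ht hs
    have := two_eigen H s t (indep_three hb ht hs) (x t) (x' s) (χt t) (χs s) (hχ t ht)
      (hχ' s (hmov t s hs))
    exact ⟨this.2.1, this.2.2⟩
  have h21 : ∀ s : A₁, ∀ t : A₂, ρ (s : Γ) b ∉ Submodule.span ℚ {b} →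
      ρ (t : Γ) b ∉ Submodule.span ℚ {b, ρ (s : Γ) b} →
      x' s = - (((χt t s : ℤˣ) : ℤ) : ℚ) ∧ x t = - (((χs s t : ℤˣ) : ℤ) : ℚ) := by
    intro s t hs ht
    have := two_eigen H.symm t s (indep_three hb hs ht) (x' s) (x t) (χs s) (χt t) (hχ' s hs)
      (hχ t (hmov' s t ht))
    exact ⟨this.2.1, this.2.2⟩
  obtain ⟨e1, e2⟩ := half hD₁ x χt hχ x' χs h12
  obtain ⟨e3, e4⟩ := half hD₂ x' χs hχ' x χt h21
  refine ⟨χt t₀, χs s₀, fun t ht => ?_, fun s hs => ?_⟩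
  · obtain ⟨s, hs, hx⟩ := e2 t ht
    have h5 := hχ t ht
    rw [hx, e3 s s₀ hs hs₀, e1 t t₀ ht ht₀, neg_smul, ← sub_eq_add_neg] at h5
    exact h5
  · obtain ⟨t, ht, hx⟩ := e4 s hs
    have h5 := hχ' s hs
    rw [hx, e1 t t₀ ht ht₀, e3 s s₀ hs hs₀, neg_smul, ← sub_eq_add_neg] at h5
    exact h5

end Pool.H95.Leh
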