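import Mathlib

/-!
# LH-PLANES: pairwise intersecting planes

PROOF of `exists_common`. Take `i0` from `h3 ⊥`. `h3 (U i0)` gives `i1` with `U i1 ≰ U i0`. `U i0 ⊓ U i1` has finrank exactly 1
(≥ 1 by `hp`, < 2 since `U i1 ≰ U i0`), spanned by `v ≠ 0`. `W = U i0 ⊔ U i1` has finrank 2 + 2 - 1 = 3, so `h3 W` gives `i2` with
`U i2 ≰ W`; so `U i2 ⊓ W` has finrank ≤ 1. CLAIM: for every `i` with `U i ≰ W`: `v ∈ U i` and `U i ⊓ W = span v`.
[`U i ⊓ W` has finrank ≤ 1 and contains nonzero `w0 ∈ U i ⊓ U i0`, `w1 ∈ U i ⊓ U i1`; so `w1 ∈ span w0 ≤ U i0`, so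
`w1 ∈ U i0 ⊓ U i1 = span v`, so `v ∈ span w1 ≤ U i` and `U i ⊓ W = span v`.] If `U i ≤ W`: take `0 ≠ w ∈ U i ⊓ U i2 ≤ W ⊓ U i2 = span v`,
so `v ∈ span w ≤ U i`. (All `U i` are finite dimensional since their finrank is 2.)
-/

namespace Pool.H95.Leh

open Module

/-- a nonzero vector of a subspace of dimension at most one spans it -/
theorem le_span_of_le_one {K V : Type*} [Field K] [AddCommGroup V] [Module K V]
    {W : Submodule K V} [FiniteDimensional K W] (h : finrank K W ≤ 1) {v : V} (hv : v ∈ W)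
    (hv0 : v ≠ 0) : W ≤ Submodule.span K {v} := by
  have h1 : Submodule.span K {v} ≤ W := by
    rw [Submodule.span_le, Set.singleton_subset_iff]
    exact hv
  have h2 : finrank K (Submodule.span K {v}) = 1 := finrank_span_singleton hv0
  have h3 : Submodule.span K {v} = W := Submodule.eq_of_le_of_finrank_le h1 (by omega)
  exact h3.ge

theorem exists_ne {K V : Type*} [Field K] [AddCommGroup V] [Module K V]
    {W : Submodule K V} (h : W ≠ ⊥) : ∃ v ∈ W, v ≠ 0 := (Submodule.ne_bot_iff W).1 h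

/-- a nonzero vector in the span of `v` spans `v` -/
theorem mem_of_mem_span {K V : Type*} [Field K] [AddCommGroup V] [Module K V]
    {W : Submodule K V} {v w : V} (hw : w ∈ Submodule.span K {v}) (hw0 : w ≠ 0) (hW : w ∈ W) :
    v ∈ W := by
  obtain ⟨c, rfl⟩ := Submodule.mem_span_singleton.1 hw
  have hc : c ≠ 0 := by
    rintro rfl
    simp at hw0
  have h1 : c⁻¹ • (c • v) = v := by rw [smul_smul, inv_mul_cancel₀ hc, one_smul]
  rw [← h1]
  exact W.smul_mem _ hW

/-- a plane which is not contained in `W` meets it in dimension at most one -/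
theorem finrank_inf_le {K V : Type*} [Field K] [AddCommGroup V] [Module K V]
    {U W : Submodule K V} [FiniteDimensional K U] (h2 : finrank K U = 2) (h : ¬ U ≤ W) :
    finrank K (U ⊓ W : Submodule K V) ≤ 1 := by
  by_contra hcon
  push Not at hcon
  apply h
  have h1 : U ⊓ W = U := Submodule.eq_of_le_of_finrank_le inf_le_left (by omega)
  exact inf_eq_left.1 h1

/-- Pairwise intersecting planes which do not all lie in a three dimensional space have a common vector. -/
theorem exists_common {K V ι : Type*} [Field K] [AddCommGroup V] [Module K V]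
    (U : ι → Submodule K V) (h2 : ∀ i, finrank K (U i) = 2) (hp : ∀ i j, U i ⊓ U j ≠ ⊥)
    (h3 : ∀ W : Submodule K V, FiniteDimensional K W → finrank K W ≤ 3 → ∃ i, ¬ U i ≤ W) :
    ∃ v : V, v ≠ 0 ∧ ∀ i, v ∈ U i := by
  have hfd : ∀ i, FiniteDimensional K (U i) := fun i =>
    FiniteDimensional.of_finrank_pos (by rw [h2 i]; norm_num)
  obtain ⟨i0, -⟩ := h3 ⊥ inferInstance (by simp)
  obtain ⟨i1, hi1⟩ := h3 (U i0) inferInstance (by rw [h2]; norm_num)
  -- the common line of the first two planes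
  obtain ⟨v, hv, hv0⟩ := exists_ne (hp i1 i0)
  have h10 : U i1 ⊓ U i0 ≤ Submodule.span K {v} :=
    le_span_of_le_one (finrank_inf_le (h2 i1) hi1) hv hv0
  set W : Submodule K V := U i1 ⊔ U i0 with hW
  have hWfin : finrank K W ≤ 3 := by
    have h4 := Submodule.finrank_sup_add_finrank_inf_eq (U i1) (U i0)
    have h5 : 0 < finrank K (U i1 ⊓ U i0 : Submodule K V) := by
      rw [Nat.pos_iff_ne_zero, Ne, Submodule.finrank_eq_zero]
      exact hp i1 i0
    rw [h2, h2, ← hW] at h4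
    omega
  obtain ⟨i2, hi2⟩ := h3 W inferInstance hWfin
  have key : ∀ i, ¬ U i ≤ W → v ∈ U i ∧ U i ⊓ W ≤ Submodule.span K {v} := by
    intro i hi
    have h4 := finrank_inf_le (h2 i) hi
    obtain ⟨w0, hw0, hw00⟩ := exists_ne (hp i i0)
    obtain ⟨w1, hw1, hw10⟩ := exists_ne (hp i i1)
    have h5 : w0 ∈ U i ⊓ W := ⟨hw0.1, (le_sup_right : U i0 ≤ W) hw0.2⟩
    have h6 : w1 ∈ U i ⊓ W := ⟨hw1.1, (le_sup_left : U i1 ≤ W) hw1.2⟩
    have h7 := le_span_of_le_one h4 h5 hw00
    -- `w1` is in both planes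
    have h8 : w1 ∈ U i0 := by
      obtain ⟨c, hc⟩ := Submodule.mem_span_singleton.1 (h7 h6)
      rw [← hc]
      exact (U i0).smul_mem _ hw0.2
    have h9 : w1 ∈ Submodule.span K {v} := h10 ⟨hw1.2, h8⟩
    have h11 : v ∈ U i := mem_of_mem_span h9 hw10 hw1.1
    refine ⟨h11, ?_⟩
    exact le_span_of_le_one h4 ⟨h11, (le_sup_left : U i1 ≤ W) hv.1⟩ hv0
  refine ⟨v, hv0, fun i => ?_⟩
  by_cases hi : U i ≤ W
  · obtain ⟨w, hw, hw0⟩ := exists_ne (hp i i2)
    have h4 : w ∈ Submodule.span K {v} := (key i2 hi2).2 ⟨hw.2, hi hw.1⟩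
    exact mem_of_mem_span h4 hw0 hw.1
  · exact (key i hi).1

end Pool.H95.Leh
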