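import Pool.Agent.H95.Leh.LADefs
import Pool.Agent.H95.Leh.Planes

/-!
# LH-EIGEN

`exists_char`: PROOF. `ρ s v = c(s) v` with `c(s) ∈ ℚ` unique since `v ≠ 0`; `c(s) c(t) = c(s t)`; `s` has finite order so `c(s)^k = 1`,
`c(s) = ± 1`. Define `χ s = 1` if `c(s) = 1` and `-1` otherwise; multiplicative.

`exists_eigen`: PROOF. `b ≠ 0`, `b, t b` independent. For `s : A₁` put `U s = span {ρ s b, ρ s (ρ t b)}` = image of `U 1` under `ρ s`,
finrank 2. Pairwise: `U s ⊓ U s' ≠ ⊥`: apply `ρ s⁻¹`; by `H.dep (s⁻¹ s') t` the four vectors `b, s'' b, t b, s'' t b` (`s'' = s⁻¹ s'`) are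
dependent so `finrank (U 1 ⊔ U s'') ≤ 3` and `finrank (U 1 ⊓ U s'') ≥ 1`. Not all `U s` lie in a space `W` of finrank ≤ 3, since then
`spn ρ A₁ b ≤ W` (`s b ∈ U s`), contradiction to `hD`. So `exists_common` (Planes) gives `v ≠ 0` in all `U s`.
For `g ∈ A₁`, `g v` is in all `U s` (`g U s = U (g s)`). If `g v ∉ span {v}` then `U s = span {v, g v}` for all `s` (finrank 2), so
`spn ρ A₁ b ≤ span {v, g v}` has finrank ≤ 2, contradiction. So `exists_char` gives `χ` with `IsEig ρ A₁ χ v`.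
`v ∈ U 1`: `v = x b + y t b`. If `y = 0`: `x ≠ 0`, `b` is an eigenvector of all `s ∈ A₁`, `spn ρ A₁ b ≤ span {b}`, contradiction.
So `y ≠ 0` and `y⁻¹ v = t b + (x / y) b`.
-/

namespace Pool.H95.Leh

open Module

variable {Γ V : Type*} [Group Γ] [AddCommGroup V] [Module ℚ V]

theorem rho_mul (ρ : Representation ℚ Γ V) (g h : Γ) (x : V) : ρ (g * h) x = ρ g (ρ h x) := by
  rw [map_mul]; rfl

theorem rho_inv_apply (ρ : Representation ℚ Γ V) (g : Γ) (x : V) : ρ g⁻¹ (ρ g x) = x := by
  rw [← rho_mul, inv_mul_cancel, map_one]; rfl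

theorem rho_apply_inv (ρ : Representation ℚ Γ V) (g : Γ) (x : V) : ρ g (ρ g⁻¹ x) = x := by
  rw [← rho_mul, mul_inv_cancel, map_one]; rfl

theorem rho_injective (ρ : Representation ℚ Γ V) (g : Γ) : Function.Injective (ρ g) := by
  intro x y h
  rw [← rho_inv_apply ρ g x, h, rho_inv_apply]

theorem rho_pow (ρ : Representation ℚ Γ V) (s : Γ) {v : V} {c : ℚ} (h : ρ s v = c • v) (k : ℕ) :
    ρ (s ^ k) v = c ^ k • v := by
  induction k with
  | zero => simp
  | succ k ih => rw [pow_succ', rho_mul, ih, map_smul, h, smul_smul, pow_succ]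

theorem rho_sign [Finite Γ] (ρ : Representation ℚ Γ V) (s : Γ) {v : V} (hv : v ≠ 0)
    (h : ∃ c : ℚ, ρ s v = c • v) : ρ s v = v ∨ ρ s v = -v := by
  obtain ⟨c, hc⟩ := h
  have h1 := rho_pow ρ s hc (orderOf s)
  rw [pow_orderOf_eq_one, map_one, Module.End.one_apply] at h1
  have h2 : c ^ orderOf s = 1 := by
    have h3 : (c ^ orderOf s - 1) • v = 0 := by rw [sub_smul, one_smul, ← h1, sub_self]
    rcases smul_eq_zero.mp h3 with h4 | h4
    · exact sub_eq_zero.mp h4
    · exact absurd h4 hv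
  have h0 : orderOf s ≠ 0 := (orderOf_pos s).ne'
  rcases (pow_eq_one_iff_of_ne_zero h0).mp h2 with h4 | ⟨h4, _⟩
  · left; rw [hc, h4, one_smul]
  · right; rw [hc, h4, neg_one_smul]

/-- A vector which is an eigenvector for every element of the finite group `A` has a sign character. -/
theorem exists_char [Finite Γ] (ρ : Representation ℚ Γ V) (A : Subgroup Γ) (v : V) (hv : v ≠ 0)
    (h : ∀ s ∈ A, ∃ c : ℚ, ρ s v = c • v) : ∃ χ : A →* ℤˣ, IsEig ρ A χ v := by
  classical
  set f : A → ℤˣ := fun s => if ρ (s : Γ) v = v then 1 else -1 with hf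
  have hspec : ∀ s : A, ρ (s : Γ) v = (((f s : ℤˣ) : ℤ) : ℚ) • v := by
    intro s
    by_cases h1 : ρ (s : Γ) v = v
    · have : f s = 1 := by rw [hf]; simp only [h1, if_true]
      rw [this, h1]; simp
    · have : f s = -1 := by rw [hf]; simp only [h1, if_false]
      rcases rho_sign ρ (s : Γ) hv (h s s.2) with h2 | h2
      · exact absurd h2 h1
      · rw [this, h2]; simp
  have huniq : ∀ a b : ℤˣ, (((a : ℤˣ) : ℤ) : ℚ) • v = (((b : ℤˣ) : ℤ) : ℚ) • v → a = b := by
    intro a b hab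
    have h3 : ((((a : ℤˣ) : ℤ) : ℚ) - (((b : ℤˣ) : ℤ) : ℚ)) • v = 0 := by
      rw [sub_smul, hab, sub_self]
    rcases smul_eq_zero.mp h3 with h4 | h4
    · have h5 : (((a : ℤˣ) : ℤ) : ℚ) = (((b : ℤˣ) : ℤ) : ℚ) := sub_eq_zero.mp h4
      have h6 : ((a : ℤˣ) : ℤ) = ((b : ℤˣ) : ℤ) := by exact_mod_cast h5
      exact Units.ext h6
    · exact absurd h4 hv
  refine ⟨⟨⟨f, ?_⟩, ?_⟩, hspec⟩
  · apply huniq
    rw [← hspec]
    simp
  · intro s t
    apply huniq
    rw [← hspec]
    have : ((s * t : A) : Γ) = (s : Γ) * (t : Γ) := rfl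
    rw [this, rho_mul, hspec t, map_smul, hspec s, smul_smul]
    congr 1
    push_cast
    ring

theorem exists_eigen [Finite Γ] {ρ : Representation ℚ Γ V} {A₁ A₂ : Subgroup Γ} {b : V}
    (H : Hyp ρ A₁ A₂ b) (hD : 4 ≤ finrank ℚ (spn ρ A₁ b)) {t : Γ} (ht : t ∈ A₂)
    (htb : ρ t b ∉ Submodule.span ℚ {b}) :
    ∃ (x : ℚ) (χ : A₁ →* ℤˣ), IsEig ρ A₁ χ (ρ t b + x • b) := by
  classical
  have hb : b ≠ 0 := by
    rintro rfl
    apply htb
    rw [map_zero]
    exact Submodule.zero_mem _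
  -- independence of `b` and `ρ t b`
  have hind : ∀ x y : ℚ, x • b + y • ρ t b = 0 → x = 0 ∧ y = 0 := by
    intro x y hxy
    have hy : y = 0 := by
      by_contra hy
      apply htb
      rw [Submodule.mem_span_singleton]
      refine ⟨-(y⁻¹ * x), ?_⟩
      have h1 : y • ρ t b = -(x • b) := by
        rw [eq_neg_iff_add_eq_zero, add_comm]; exact hxy
      have h2 : ρ t b = y⁻¹ • (y • ρ t b) := by rw [smul_smul, inv_mul_cancel₀ hy, one_smul]
      rw [h2, h1, smul_neg, smul_smul, neg_smul]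
    refine ⟨?_, hy⟩
    rw [hy, zero_smul, add_zero] at hxy
    rcases smul_eq_zero.mp hxy with h | h
    · exact h
    · exact absurd h hb
  set P : Submodule ℚ V := Submodule.span ℚ {b, ρ t b} with hP
  have hbP : b ∈ P := Submodule.subset_span (by simp)
  have htP : ρ t b ∈ P := Submodule.subset_span (by simp)
  have hfP : finrank ℚ P = 2 := by
    have hli : LinearIndependent ℚ ![b, ρ t b] := by
      rw [LinearIndependent.pair_iff]
      exact hind
    have h1 := finrank_span_eq_card hli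
    rw [Matrix.range_cons, Matrix.range_cons, Matrix.range_empty, Set.union_empty,
      Set.singleton_union, Fintype.card_fin] at h1
    exact h1
  -- the planes
  set U : A₁ → Submodule ℚ V := fun s => P.map (ρ (s : Γ)) with hU
  have hUmem : ∀ (s : A₁) (w : V), w ∈ P → ρ (s : Γ) w ∈ U s := fun s w hw =>
    Submodule.mem_map_of_mem hw
  have hmove : ∀ (g s : A₁) (w : V), w ∈ U s → ρ (g : Γ) w ∈ U (g * s) := by
    intro g s w hw
    obtain ⟨w', hw', rfl⟩ := hw
    rw [← rho_mul]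
    exact hUmem (g * s) w' hw'
  have h2 : ∀ s, finrank ℚ (U s) = 2 := by
    intro s
    rw [← hfP]
    exact ((Submodule.equivMapOfInjective (ρ (s : Γ)) (rho_injective ρ _) P).finrank_eq).symm
  have hpair1 : ∀ s : A₁, ∃ w, w ≠ 0 ∧ w ∈ P ∧ w ∈ U s := by
    intro s
    have hdep := H.dep s s.2 t ht
    rw [Fintype.not_linearIndependent_iff] at hdep
    obtain ⟨c, hc, i, hi⟩ := hdep
    rw [Fin.sum_univ_four] at hc
    have hc' : c 0 • b + c 1 • ρ (s : Γ) b + c 2 • ρ t b + c 3 • ρ (s : Γ) (ρ t b) = 0 := by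
      rw [← rho_mul]
      exact hc
    refine ⟨c 0 • b + c 2 • ρ t b, ?_, ?_, ?_⟩
    · intro h0
      obtain ⟨h00, h02⟩ := hind _ _ h0
      rw [h00, h02, zero_smul, zero_smul, zero_add, add_zero, ← map_smul, ← map_smul,
        ← map_add] at hc'
      have h3 : c 1 • b + c 3 • ρ t b = 0 := by
        apply rho_injective ρ (s : Γ)
        rw [hc', map_zero]
      obtain ⟨h01, h03⟩ := hind _ _ h3
      apply hi
      fin_cases i
      · exact h00
      · exact h01
      · exact h02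
      · exact h03
    · exact P.add_mem (P.smul_mem _ hbP) (P.smul_mem _ htP)
    · have h4 : c 0 • b + c 2 • ρ t b
          = ρ (s : Γ) (-(c 1 • b) - c 3 • ρ t b) := by
        rw [map_sub, map_neg, map_smul, map_smul]
        have h5 : c 0 • b + c 2 • ρ t b - (-(c 1 • ρ (s : Γ) b) - c 3 • ρ (s : Γ) (ρ t b)) = 0 := by
          rw [← hc']; abel
        exact sub_eq_zero.mp h5
      rw [h4]
      apply hUmem
      exact P.sub_mem (P.neg_mem (P.smul_mem _ hbP)) (P.smul_mem _ htP)
  have hp : ∀ s s' : A₁, U s ⊓ U s' ≠ ⊥ := by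
    intro s s' hbot
    obtain ⟨w, hw0, hwP, hwU⟩ := hpair1 (s⁻¹ * s')
    have h5 : ρ (s : Γ) w ∈ U s ⊓ U s' := by
      refine ⟨hUmem s w hwP, ?_⟩
      have := hmove s (s⁻¹ * s') w hwU
      rwa [mul_inv_cancel_left] at this
    rw [hbot, Submodule.mem_bot] at h5
    apply hw0
    apply rho_injective ρ (s : Γ)
    rw [h5, map_zero]
  have hspn : ∀ W : Submodule ℚ V, FiniteDimensional ℚ W → (∀ s : A₁, ρ (s : Γ) b ∈ W) →
      4 ≤ finrank ℚ W := by
    intro W hW hs
    have hle : spn ρ A₁ b ≤ W := by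
      unfold spn
      rw [Submodule.span_le]
      rintro _ ⟨s, hs', rfl⟩
      exact hs ⟨s, hs'⟩
    exact hD.trans (Submodule.finrank_mono hle)
  have h3 : ∀ W : Submodule ℚ V, FiniteDimensional ℚ W → finrank ℚ W ≤ 3 → ∃ s, ¬ U s ≤ W := by
    intro W hW h3
    by_contra hcon
    push Not at hcon
    have := hspn W hW (fun s => hcon s (hUmem s b hbP))
    omega
  obtain ⟨v, hv0, hv⟩ := exists_common U h2 hp h3
  have hgv : ∀ (g s : A₁), ρ (g : Γ) v ∈ U s := by
    intro g s
    have := hmove g (g⁻¹ * s) v (hv _)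
    rwa [mul_inv_cancel_left] at this
  have heig : ∀ g ∈ A₁, ∃ c : ℚ, ρ g v = c • v := by
    intro g hg
    by_contra hcon
    push Not at hcon
    have hli : LinearIndependent ℚ ![v, ρ g v] := by
      rw [LinearIndependent.pair_iff]
      intro x y hxy
      have hy : y = 0 := by
        by_contra hy
        apply hcon (-(y⁻¹ * x))
        have h1 : y • ρ g v = -(x • v) := by
          rw [eq_neg_iff_add_eq_zero, add_comm]; exact hxy
        have h2 : ρ g v = y⁻¹ • (y • ρ g v) := by rw [smul_smul, inv_mul_cancel₀ hy, one_smul]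
        rw [h2, h1, smul_neg, smul_smul, neg_smul]
      refine ⟨?_, hy⟩
      rw [hy, zero_smul, add_zero] at hxy
      rcases smul_eq_zero.mp hxy with h | h
      · exact h
      · exact absurd h hv0
    have hfin : finrank ℚ (Submodule.span ℚ {v, ρ g v}) = 2 := by
      have h1 := finrank_span_eq_card hli
      rw [Matrix.range_cons, Matrix.range_cons, Matrix.range_empty, Set.union_empty,
        Set.singleton_union, Fintype.card_fin] at h1
      exact h1
    have hWfd : FiniteDimensional ℚ (Submodule.span ℚ {v, ρ g v}) :=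
      FiniteDimensional.span_of_finite ℚ (Set.toFinite _)
    obtain ⟨s, hs⟩ := h3 _ hWfd (by rw [hfin]; norm_num)
    apply hs
    have hle : Submodule.span ℚ {v, ρ g v} ≤ U s := by
      rw [Submodule.span_le]
      intro w hw
      rcases hw with rfl | hw
      · exact hv s
      · rw [Set.mem_singleton_iff] at hw
        rw [hw]
        exact hgv ⟨g, hg⟩ s
    have hUfd : FiniteDimensional ℚ (U s) :=
      Module.finite_of_finrank_pos (by rw [h2 s]; norm_num)
    have heq := Submodule.eq_of_le_of_finrank_eq hle (by rw [hfin, h2 s])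
    rw [heq]
  obtain ⟨χ, hχ⟩ := exists_char ρ A₁ v hv0 heig
  -- `v` lies in `P`
  have hvP : v ∈ P := by
    have := hv 1
    obtain ⟨w, hw, hw'⟩ := this
    have h1 : ρ ((1 : A₁) : Γ) w = w := by
      rw [Subgroup.coe_one, map_one]; rfl
    rw [← hw', h1]
    exact hw
  rw [hP, Submodule.mem_span_pair] at hvP
  obtain ⟨x, y, hxy⟩ := hvP
  by_cases hy : y = 0
  · exfalso
    rw [hy, zero_smul, add_zero] at hxy
    have hx : x ≠ 0 := by
      rintro rfl
      rw [zero_smul] at hxy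
      exact hv0 hxy.symm
    have hbv : b = x⁻¹ • v := by rw [← hxy, smul_smul, inv_mul_cancel₀ hx, one_smul]
    have hWfd : FiniteDimensional ℚ (Submodule.span ℚ {b}) :=
      FiniteDimensional.span_of_finite ℚ (Set.toFinite _)
    have h4 := hspn (Submodule.span ℚ {b}) hWfd (by
      intro s
      rw [Submodule.mem_span_singleton]
      obtain ⟨c, hc⟩ := heig s s.2
      refine ⟨c, ?_⟩
      calc c • b = x⁻¹ • (c • v) := by
            conv_lhs => rw [hbv]
            rw [smul_smul, smul_smul, mul_comm]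
        _ = ρ (s : Γ) b := by
            rw [← hc, ← map_smul, ← hbv])
    have h5 : finrank ℚ (Submodule.span ℚ {b}) ≤ 1 := by
      rw [finrank_span_singleton hb]
    omega
  · refine ⟨y⁻¹ * x, χ, fun s => ?_⟩
    have h6 : ρ t b + (y⁻¹ * x) • b = y⁻¹ • v := by
      rw [← hxy, smul_add, smul_smul, smul_smul, inv_mul_cancel₀ hy, one_smul, add_comm]
    rw [h6, map_smul, hχ s, smul_comm]

end Pool.H95.Leh
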