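import Mathlib
import Pool.Agent.H49.St.Defs
import Pool.Agent.H25.Arith.TW
import Pool.Agent.H25.Arith.Defs

/-!
# Field side of the Lehmer application: definitions

`K` is a number field (Galois over `ℚ` where needed), `G = K ≃ₐ[ℚ] K`. The logarithm of a unit `x` is the
vector `Lg ι x = (log ‖ι (g x)‖)_g` in the rational vector space `G → ℝ`, on which `G` acts by right
translations (`act`), so that `act h (Lg ι x) = Lg ι (h x)`.
-/

namespace Pool.H95.Leh

open Pool.Agent.H49.St

/-- torsion (a root of unity) -/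
def Tors {K : Type*} [Field K] (x : K) : Prop := ∃ k : ℕ, 0 < k ∧ x ^ k = 1

/-- units of the ring of integers -/
structure IsU {K : Type*} [Field K] (x : K) : Prop where
  int : IsIntegral ℤ x
  inv : IsIntegral ℤ x⁻¹
  ne : x ≠ 0

/-- conjugates of `β` are distinct modulo torsion -/
def Red {K : Type*} [Field K] [Algebra ℚ K] (β : K) : Prop := ∀ g : K ≃ₐ[ℚ] K, Tors (g β / β) → g β = β

/-- the vector of logarithms of the conjugates -/
noncomputable def Lg {K : Type*} [Field K] [Algebra ℚ K] (ι : K →+* ℂ) (x : K) : (K ≃ₐ[ℚ] K) → ℝ :=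
  fun g => Real.log ‖ι (g x)‖

/-- the action of the Galois group by right translations -/
def act (K : Type*) [Field K] [Algebra ℚ K] : (K ≃ₐ[ℚ] K) →* Module.End ℚ ((K ≃ₐ[ℚ] K) → ℝ) where
  toFun h :=
    { toFun := fun v g => v (g * h)
      map_add' := fun _ _ => rfl
      map_smul' := fun _ _ => rfl }
  map_one' := by ext v g; simp
  map_mul' h h' := by ext v g; simp [mul_assoc]

/-- `r` independent vectors in the orbit of `a` have a stabiliser of large index -/
def Wide {G V : Type*} [Group G] [AddCommGroup V] [Module ℚ V] (ρ : G →* Module.End ℚ V) (a : V)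
    (r : ℕ) (E : ℝ) : Prop :=
  ∀ x : Fin r → V, (∀ i, ∃ g, x i = ρ g a) → LinearIndependent ℚ x →
    ((stab ρ a).index : ℝ) ^ E < ((⨅ i, stab ρ (x i)).index : ℝ)

/-- the Mahler measure of (the minimal polynomial over `ℤ` of) an algebraic integer -/
noncomputable def mm {K : Type*} [Field K] (x : K) : ℝ :=
  ((minpoly ℤ x).map (Int.castRingHom ℂ)).mahlerMeasure

theorem Lg_act {K : Type*} [Field K] [Algebra ℚ K] (ι : K →+* ℂ) (h : K ≃ₐ[ℚ] K) (x : K) :
    act K h (Lg ι x) = Lg ι (h x) := rfl

end Pool.H95.Leh
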