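import Pool.Agent.H95.Leh.FSolv

/-!
# LH-FINAL: Lehmer's conjecture for solvable Galois groups, from Theorem W

`main_of_W`: PROOF. `c = min` of 2 and of the constants of `solv_unit`, `solv_unit'`.
Part 1: `f` irreducible; if `f` is constant (± a prime number): `M(f) ≥ 2`. Otherwise let `K = (f.map (Int.castRingHom ℚ)).SplittingField` (number field,
Galois over ℚ: `IsGalois.of_separable_splitting_field`, the polynomial is irreducible over ℚ by Gauss, char 0; `K ≃ₐ[ℚ] K = Gal` is solvable by hypothesis), `α` a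
root of `f` in `K` (`Polynomial.SplittingField.splits`, `rootOfSplits`). If `α = 0`, `X ∣ f`, `f = ± X`, `M(f) = 1`. Otherwise `poly_cases`: `M(f) ≥ 2`, or `α` is a unit and
`M(f) = mm α`. If `Tors α` then `mm α = 1` (`mm_of_tors`), else `solv_unit'`.
Part 2: `poly_cases` and `solv_unit`; the hypothesis implies `α ≠ 0` (else `(s 0)^1 = 0^1`). `Tors (s α / α)` iff `(s α)^k = α^k` for some `k > 0`.
-/

namespace Pool.H95.Leh

open Polynomial

/-- a unit of `ℤ[X]` has Mahler measure 1 -/
theorem mahler_of_isUnit (u : ℤ[X]) (hu : IsUnit u) : (u.map (Int.castRingHom ℂ)).mahlerMeasure = 1 := by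
  obtain ⟨r, hr, rfl⟩ := Polynomial.isUnit_iff.mp hu
  rw [Polynomial.map_C, Polynomial.mahlerMeasure_const]
  rcases Int.isUnit_iff.mp hr with h | h <;> subst h <;> simp

/-- the algebra structure of the splitting field -/
noncomputable abbrev sfAlg (F : Type*) [Field F] (p : F[X]) : Algebra F p.SplittingField := inferInstance

/-- part 1 in a splitting field -/
theorem part1 {c2 : ℝ} (H2 : ∀ (K : Type) [Field K] [NumberField K] [IsGalois ℚ K] (α : K), IsU α → ¬ Tors α →
      Group.IsSolvable (K ≃ₐ[ℚ] K) → c2 ≤ mm α) (K : Type) [Field K] [hA : Algebra ℚ K] (f : ℤ[X])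
    (hf : Irreducible f) (hd : f.natDegree ≠ 0) [hsp : IsSplittingField ℚ K (f.map (Int.castRingHom ℚ))]
    (hs : Group.IsSolvable (K ≃ₐ[ℚ] K)) :
    (f.map (Int.castRingHom ℂ)).mahlerMeasure = 1 ∨ min 2 c2 ≤ (f.map (Int.castRingHom ℂ)).mahlerMeasure := by
  have hcz : CharZero K := algebraRat.charZero K
  have hAe : hA = DivisionRing.toRatAlgebra := Subsingleton.elim _ _
  subst hAe
  have hprim : f.IsPrimitive := hf.isPrimitive hd
  have hirr : Irreducible (f.map (Int.castRingHom ℚ)) :=
    (Polynomial.IsPrimitive.Int.irreducible_iff_irreducible_map_cast hprim).mp hf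
  have hsep : (f.map (Int.castRingHom ℚ)).Separable := hirr.separable
  have hnf : NumberField K :=
    { to_charZero := hcz, to_finiteDimensional := IsSplittingField.finiteDimensional K (f.map (Int.castRingHom ℚ)) }
  have hgal : IsGalois ℚ K := IsGalois.of_separable_splitting_field hsep
  have hmm : (f.map (Int.castRingHom ℚ)).map (algebraMap ℚ K) = f.map (algebraMap ℤ K) := by
    rw [Polynomial.map_map]
    congr 1
    exact RingHom.ext_int _ _
  have hsplit := IsSplittingField.splits K (f.map (Int.castRingHom ℚ))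
  rw [hmm] at hsplit
  have hinj : Function.Injective (algebraMap ℤ K) := by
    rw [algebraMap_int_eq]
    exact RingHom.injective_int _
  have hdeg : (f.map (algebraMap ℤ K)).degree ≠ 0 := by
    rw [Polynomial.degree_map_eq_of_injective hinj]
    intro h
    exact hd (Polynomial.natDegree_eq_of_degree_eq_some h)
  obtain ⟨α, hα⟩ := hsplit.exists_eval_eq_zero hdeg
  have h0 : aeval α f = 0 := by
    rw [aeval_def, ← eval_map]
    exact hα
  by_cases hα0 : α = 0
  · left
    have hX : X ∣ f := by
      rw [Polynomial.X_dvd_iff]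
      rw [hα0, ← Polynomial.coeff_zero_eq_aeval_zero'] at h0
      exact hinj (by rw [h0, map_zero])
    obtain ⟨g, hg⟩ := hX
    have hgu : IsUnit g := by
      rcases hf.isUnit_or_isUnit hg with h | h
      · exact absurd h Polynomial.not_isUnit_X
      · exact h
    have hX1 : (X : ℂ[X]).mahlerMeasure = 1 := by simpa using Polynomial.mahlerMeasure_X_sub_C 0
    rw [hg, Polynomial.map_mul, Polynomial.mahlerMeasure_mul, mahler_of_isUnit g hgu, Polynomial.map_X, hX1,
      mul_one]
  · rcases poly_cases f hf α h0 hα0 with h | ⟨hU, hM⟩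
    · right
      exact le_trans (min_le_left _ _) h
    · rw [hM]
      by_cases ht : Tors α
      · left
        exact mm_of_tors α ht
      · right
        exact le_trans (min_le_right _ _) (H2 K α hU ht hs)

theorem main_of_W (h2 : H25.TheoremW 2 (19 / 10)) (h4 : H25.TheoremW 4 (7 / 2)) :
    ∃ c : ℝ, 1 < c ∧
      (∀ f : ℤ[X], Irreducible f → Group.IsSolvable (f.map (Int.castRingHom ℚ)).Gal →
        (f.map (Int.castRingHom ℂ)).mahlerMeasure = 1 ∨ c ≤ (f.map (Int.castRingHom ℂ)).mahlerMeasure) ∧
      (∀ (K : Type) [Field K] [NumberField K] [IsGalois ℚ K] (f : ℤ[X]) (α : K), Irreducible f → aeval α f = 0 →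
        ∀ N : Subgroup (K ≃ₐ[ℚ] K), N.Normal → Group.IsSolvable N →
        (∃ s ∈ N, (∀ k : ℕ, 0 < k → (s α) ^ k ≠ α ^ k) ∧ (∀ k : ℕ, 0 < k → (s α * α) ^ k ≠ 1)) →
        c ≤ (f.map (Int.castRingHom ℂ)).mahlerMeasure) := by
  obtain ⟨c1, hc1, H1⟩ := solv_unit h2 h4
  obtain ⟨c2, hc2, H2⟩ := solv_unit' h2 h4
  refine ⟨min (min 2 c2) c1, lt_min (lt_min (by norm_num) hc2) hc1, ?_, ?_⟩
  · intro f hf hs
    by_cases hd : f.natDegree = 0
    · right
      obtain ⟨a, rfl⟩ := Polynomial.natDegree_eq_zero.mp hd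
      have ha0 : a ≠ 0 := by
        rintro rfl
        exact hf.ne_zero (by simp)
      have ha1 : ¬ IsUnit a := fun h => hf.not_isUnit (Polynomial.isUnit_C.mpr h)
      have ha2 : 2 ≤ |a| := by
        have h1 : |a| ≠ 1 := by
          intro h
          exact ha1 (Int.isUnit_iff_abs_eq.mpr h)
        have h2 : 0 < |a| := abs_pos.mpr ha0
        omega
      refine le_trans (min_le_left _ _) (le_trans (min_le_left _ _) ?_)
      rw [Polynomial.map_C, Polynomial.mahlerMeasure_const]
      simp only [eq_intCast, Complex.norm_intCast]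
      exact_mod_cast ha2
    · rcases part1 (hA := sfAlg ℚ (f.map (Int.castRingHom ℚ))) (hsp := Polynomial.IsSplittingField.splittingField _) H2
          (f.map (Int.castRingHom ℚ)).SplittingField f hf hd hs with h | h
      · exact Or.inl h
      · exact Or.inr (le_trans (min_le_left _ _) h)
  · intro K _ _ _ f α hf h0 N hN hNs ⟨s, hsN, hs1, hs2⟩
    have hα0 : α ≠ 0 := by
      rintro rfl
      exact hs1 1 one_pos (by simp)
    rcases poly_cases f hf α h0 hα0 with h | ⟨hU, hM⟩
    · exact le_trans (min_le_left _ _) (le_trans (min_le_left _ _) h)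
    · rw [hM]
      refine le_trans (min_le_right _ _) (H1 K α hU N hN hNs ⟨s, hsN, ?_, ?_⟩)
      · rintro ⟨k, hk, h⟩
        rw [div_pow, div_eq_one_iff_eq (pow_ne_zero k hα0)] at h
        exact hs1 k hk h
      · rintro ⟨k, hk, h⟩
        exact hs2 k hk h

end Pool.H95.Leh
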