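import Pool.Agent.H95.Leh.FLog

/-!
# LH-IDX: indices and degrees

`stab_Lg`: PROOF. `h ∈ stab (act K) (Lg ι (g β))` iff `Lg ι (h g β) = Lg ι (g β)` iff `h g β / g β` is torsion (`Lg_eq_iff`) iff (applying `g⁻¹`)
`(g⁻¹ h g) β / β` is torsion iff `(g⁻¹ h g) β = β` (`Red`) iff `h (g β) = g β`.

`index_stabilizer`: PROOF. The stabiliser of `x` is `(IntermediateField.adjoin ℚ {x}).fixingSubgroup`, whose index is
`finrank ℚ ℚ(x)` (`IntermediateField.finrank_eq_fixingSubgroup_index`), which is the degree of the minimal polynomial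
(`IntermediateField.adjoin.finrank`).

`index_iInf`: same with `adjoin ℚ (Set.range x)`; `g` fixes the field iff it fixes all `x i`
(`IntermediateField.mem_fixingSubgroup_iff`, `adjoin_le_iff`/`adjoin_induction`).

`mem_lstab_Lg`: PROOF. `Lg_eq_iff`, `Lg_eq_neg_iff`.
-/

namespace Pool.H95.Leh

open Pool.Agent.H49.St

variable {K : Type*} [Field K] [NumberField K] [IsGalois ℚ K]

omit [NumberField K] [IsGalois ℚ K] in
theorem mem_fix_adjoin [Algebra ℚ K] (S : Set K) (g : K ≃ₐ[ℚ] K) :
    g ∈ (IntermediateField.adjoin ℚ S).fixingSubgroup ↔ ∀ x ∈ S, g • x = x := by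
  rw [IntermediateField.mem_fixingSubgroup_iff]
  constructor
  · intro h x hx
    exact h x (IntermediateField.subset_adjoin ℚ S hx)
  · intro h x hx
    induction hx using IntermediateField.adjoin_induction with
    | mem x hx => exact h x hx
    | algebraMap c => exact g.commutes c
    | add x y _ _ hx hy =>
      rw [map_add]
      exact congrArg₂ _ hx hy
    | inv x _ hx =>
      rw [map_inv₀]
      exact congrArg _ hx
    | mul x y _ _ hx hy =>
      rw [map_mul]
      exact congrArg₂ _ hx hy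

theorem stab_Lg (ι : K →+* ℂ) {β : K} (hβ : IsU β) (hr : Red β) (g : K ≃ₐ[ℚ] K) :
    stab (act K) (Lg ι (g β)) = MulAction.stabilizer (K ≃ₐ[ℚ] K) (g β) := by
  ext h
  rw [mem_stab, Lg_act, Lg_eq_iff ι ((hβ.map g).map h) (hβ.map g), MulAction.mem_stabilizer_iff,
    AlgEquiv.smul_def]
  constructor
  · intro ht
    have h1 := ht.map g⁻¹
    have h2 : g⁻¹ (h (g β) / g β) = (g⁻¹ * h * g) β / β := by
      rw [map_div₀]
      congr 1
      show (g⁻¹ * g) β = β
      rw [inv_mul_cancel]
      rfl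
    rw [h2] at h1
    have h3 := hr _ h1
    have h4 : g ((g⁻¹ * h * g) β) = h (g β) := by
      show (g * (g⁻¹ * h * g)) β = (h * g) β
      congr 1
      group
    rw [← h4, h3]
  · intro he
    rw [he, div_self (hβ.map g).ne]
    exact ⟨1, one_pos, one_pow 1⟩

theorem mem_lstab_Lg (ι : K →+* ℂ) {β : K} (hβ : IsU β) (g : K ≃ₐ[ℚ] K) :
    g ∈ lstab (act K) (Lg ι β) ↔ Tors (g β / β) ∨ Tors (g β * β) := by
  rw [mem_lstab, Lg_act, Lg_eq_iff ι (hβ.map g) hβ, Lg_eq_neg_iff ι (hβ.map g) hβ]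

theorem index_stabilizer (x : K) :
    (MulAction.stabilizer (K ≃ₐ[ℚ] K) x).index = (minpoly ℚ x).natDegree := by
  have h1 : MulAction.stabilizer (K ≃ₐ[ℚ] K) x =
      (IntermediateField.adjoin ℚ {x}).fixingSubgroup := by
    ext g
    rw [MulAction.mem_stabilizer_iff, mem_fix_adjoin]
    simp
  rw [h1, ← IntermediateField.finrank_eq_fixingSubgroup_index,
    IntermediateField.adjoin.finrank (IsIntegral.of_finite ℚ x)]

theorem index_iInf {r : ℕ} (x : Fin r → K) :
    (⨅ i, MulAction.stabilizer (K ≃ₐ[ℚ] K) (x i)).index =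
      Module.finrank ℚ (IntermediateField.adjoin ℚ (Set.range x)) := by
  have h1 : (⨅ i, MulAction.stabilizer (K ≃ₐ[ℚ] K) (x i)) =
      (IntermediateField.adjoin ℚ (Set.range x)).fixingSubgroup := by
    ext g
    rw [Subgroup.mem_iInf, mem_fix_adjoin]
    simp [MulAction.mem_stabilizer_iff]
  rw [h1, ← IntermediateField.finrank_eq_fixingSubgroup_index]

end Pool.H95.Leh
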