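import Pool.Agent.H95.Leh.FDefs

/-!
# LH-LOG: elementary properties of `Tors`, `IsU`, `Lg`

PROOFS. `IsU` closure: products, inverses, powers, images under `g` of algebraic integers are algebraic integers
(`IsIntegral.mul`, `IsIntegral.prod`, `IsIntegral.map`). `Lg_*`: `Real.log_mul`, `Real.log_zpow`, `Real.log_prod`
(norms of nonzero numbers are nonzero). `tors_of_Lg`: `Lg ι x = 0` says `‖ι (g x)‖ = 1` for all `g` (a positive
real with logarithm 0); every ring homomorphism `φ : K →+* ℂ` is `ι ∘ g` for some `g` since `K/ℚ` is Galois (normal)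
(e.g. `ι` and `φ` are two embeddings with the same image; or count: `NumberField.Embeddings.card`, `IsGalois.card_aut_eq_finrank`),
so `NumberField.Embeddings.pow_eq_one_of_norm_eq_one` applies. `Lg_of_tors`: `x ^ k = 1` gives `‖ι (g x)‖ = 1`.
`Lg_eq_iff`, `Lg_eq_neg_iff`: apply these to `x / y`, `x * y`.
-/

namespace Pool.H95.Leh

variable {K : Type*} [Field K]

theorem Tors.ne_zero {x : K} (h : Tors x) : x ≠ 0 := by
  obtain ⟨k, hk, h⟩ := h
  rintro rfl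
  rw [zero_pow hk.ne'] at h
  exact zero_ne_one h

theorem Tors.mul {x y : K} (hx : Tors x) (hy : Tors y) : Tors (x * y) := by
  obtain ⟨k, hk, h⟩ := hx
  obtain ⟨l, hl, h'⟩ := hy
  refine ⟨k * l, Nat.mul_pos hk hl, ?_⟩
  rw [mul_pow, pow_mul, h, one_pow, one_mul, mul_comm k l, pow_mul, h', one_pow]

theorem Tors.inv {x : K} (hx : Tors x) : Tors x⁻¹ := by
  obtain ⟨k, hk, h⟩ := hx
  exact ⟨k, hk, by rw [inv_pow, h, inv_one]⟩

theorem Tors.of_pow {x : K} {k : ℕ} (hk : 0 < k) (hx : Tors (x ^ k)) : Tors x := by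
  obtain ⟨l, hl, h⟩ := hx
  exact ⟨k * l, Nat.mul_pos hk hl, by rw [pow_mul, h]⟩

theorem Tors.pow {x : K} (hx : Tors x) (k : ℕ) : Tors (x ^ k) := by
  obtain ⟨l, hl, h⟩ := hx
  exact ⟨l, hl, by rw [← pow_mul, mul_comm, pow_mul, h, one_pow]⟩

theorem Tors.prod {ι : Type*} (s : Finset ι) (f : ι → K) (h : ∀ i ∈ s, Tors (f i)) : Tors (∏ i ∈ s, f i) := by
  classical
  induction s using Finset.induction_on with
  | empty => exact ⟨1, one_pos, by simp⟩
  | insert a s ha ih =>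
    rw [Finset.prod_insert ha]
    exact (h a (Finset.mem_insert_self a s)).mul (ih fun i hi => h i (Finset.mem_insert_of_mem hi))

theorem Tors.map [Algebra ℚ K] {x : K} (hx : Tors x) (g : K ≃ₐ[ℚ] K) : Tors (g x) := by
  obtain ⟨k, hk, h⟩ := hx
  exact ⟨k, hk, by rw [← map_pow, h, map_one]⟩

theorem IsU.mul {x y : K} (hx : IsU x) (hy : IsU y) : IsU (x * y) :=
  ⟨hx.int.mul hy.int, by rw [mul_inv]; exact hx.inv.mul hy.inv, mul_ne_zero hx.ne hy.ne⟩

theorem IsU.inv' {x : K} (hx : IsU x) : IsU x⁻¹ :=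
  ⟨hx.inv, by rw [inv_inv]; exact hx.int, inv_ne_zero hx.ne⟩

theorem IsU.div {x y : K} (hx : IsU x) (hy : IsU y) : IsU (x / y) := by
  rw [div_eq_mul_inv]
  exact hx.mul hy.inv'

theorem FLog_isU_one : IsU (1 : K) := ⟨isIntegral_one, by rw [inv_one]; exact isIntegral_one, one_ne_zero⟩

theorem FLog_isU_pow {x : K} (hx : IsU x) (m : ℕ) : IsU (x ^ m) :=
  ⟨hx.int.pow m, by rw [← inv_pow]; exact hx.inv.pow m, pow_ne_zero m hx.ne⟩

theorem IsU.zpow {x : K} (hx : IsU x) (m : ℤ) : IsU (x ^ m) := by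
  obtain ⟨k, rfl | rfl⟩ := m.eq_nat_or_neg
  · rw [zpow_natCast]
    exact FLog_isU_pow hx k
  · rw [zpow_neg, zpow_natCast]
    exact (FLog_isU_pow hx k).inv'

theorem IsU.prod {ι : Type*} (s : Finset ι) (f : ι → K) (h : ∀ i ∈ s, IsU (f i)) : IsU (∏ i ∈ s, f i) := by
  classical
  induction s using Finset.induction_on with
  | empty => exact FLog_isU_one
  | insert a s ha ih =>
    rw [Finset.prod_insert ha]
    exact (h a (Finset.mem_insert_self a s)).mul (ih fun i hi => h i (Finset.mem_insert_of_mem hi))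

theorem IsU.map [Algebra ℚ K] {x : K} (hx : IsU x) (g : K ≃ₐ[ℚ] K) : IsU (g x) := by
  refine ⟨?_, ?_, ?_⟩
  · exact hx.int.map (g : K ≃+* K).toRingHom.toIntAlgHom
  · rw [← map_inv₀]
    exact hx.inv.map (g : K ≃+* K).toRingHom.toIntAlgHom
  · rw [Ne, map_eq_zero_iff g g.injective]
    exact hx.ne

theorem FLog_norm_ne [Algebra ℚ K] (ι : K →+* ℂ) (g : K ≃ₐ[ℚ] K) {x : K} (hx : x ≠ 0) : ‖ι (g x)‖ ≠ 0 := by
  rw [norm_ne_zero_iff, Ne, map_eq_zero_iff ι ι.injective, map_eq_zero_iff g g.injective]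
  exact hx

theorem Lg_mul [Algebra ℚ K] (ι : K →+* ℂ) {x y : K} (hx : x ≠ 0) (hy : y ≠ 0) :
    Lg ι (x * y) = Lg ι x + Lg ι y := by
  funext g
  change Real.log ‖ι (g (x * y))‖ = Real.log ‖ι (g x)‖ + Real.log ‖ι (g y)‖
  rw [map_mul, map_mul, norm_mul, Real.log_mul (FLog_norm_ne ι g hx) (FLog_norm_ne ι g hy)]

theorem Lg_inv [Algebra ℚ K] (ι : K →+* ℂ) (x : K) : Lg ι x⁻¹ = - Lg ι x := by
  funext g
  change Real.log ‖ι (g x⁻¹)‖ = - Real.log ‖ι (g x)‖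
  rw [map_inv₀, map_inv₀, norm_inv, Real.log_inv]

theorem Lg_zpow [Algebra ℚ K] (ι : K →+* ℂ) (x : K) (m : ℤ) : Lg ι (x ^ m) = (m : ℚ) • Lg ι x := by
  funext g
  change Real.log ‖ι (g (x ^ m))‖ = ((m : ℚ) • Lg ι x) g
  rw [Pi.smul_apply, map_zpow₀, map_zpow₀, norm_zpow, Real.log_zpow, Rat.smul_def, Rat.cast_intCast]
  rfl

theorem FLog_Lg_one [Algebra ℚ K] (ι : K →+* ℂ) : Lg ι (1 : K) = 0 := by
  funext g
  change Real.log ‖ι (g 1)‖ = 0
  rw [map_one, map_one, norm_one, Real.log_one]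

theorem FLog_Lg_prod [Algebra ℚ K] (ι : K →+* ℂ) {J : Type*} (s : Finset J) (a : J → K) (ha : ∀ i, a i ≠ 0) :
    Lg ι (∏ i ∈ s, a i) = ∑ i ∈ s, Lg ι (a i) := by
  classical
  induction s using Finset.induction_on with
  | empty =>
    rw [Finset.prod_empty, Finset.sum_empty]
    exact FLog_Lg_one ι
  | insert b s hb ih =>
    rw [Finset.prod_insert hb, Finset.sum_insert hb,
      Lg_mul ι (ha b) (Finset.prod_ne_zero_iff.2 fun i _ => ha i), ih]

theorem Lg_prod_zpow [Algebra ℚ K] (ι : K →+* ℂ) {r : ℕ} (a : Fin r → K) (ha : ∀ i, a i ≠ 0) (m : Fin r → ℤ) :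
    Lg ι (∏ i, a i ^ m i) = ∑ i, (m i : ℚ) • Lg ι (a i) := by
  rw [FLog_Lg_prod ι Finset.univ (fun i => a i ^ m i) (fun i => zpow_ne_zero _ (ha i))]
  exact Finset.sum_congr rfl fun i _ => Lg_zpow ι (a i) (m i)

variable [NumberField K] [IsGalois ℚ K]

theorem FLog_exists_comp (ι φ : K →+* ℂ) : ∃ g : K ≃ₐ[ℚ] K, ∀ x : K, φ x = ι (g x) := by
  obtain ⟨σ, hσ⟩ := NumberField.ComplexEmbedding.exists_comp_symm_eq_of_comp_eq (k := ℚ) ι φ
    (Subsingleton.elim _ _)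
  exact ⟨σ.symm, fun x => (RingHom.congr_fun hσ x).symm⟩

theorem tors_of_Lg (ι : K →+* ℂ) {x : K} (hx : IsU x) (h : Lg ι x = 0) : Tors x := by
  obtain ⟨k, hk, h1⟩ := NumberField.Embeddings.pow_eq_one_of_norm_eq_one K ℂ hx.int (fun φ => by
    obtain ⟨g, hg⟩ := FLog_exists_comp ι φ
    rw [hg]
    have h2 : Real.log ‖ι (g x)‖ = 0 := congrFun h g
    have h3 : 0 < ‖ι (g x)‖ := lt_of_le_of_ne (norm_nonneg _) (FLog_norm_ne ι g hx.ne).symm
    exact Real.eq_one_of_pos_of_log_eq_zero h3 h2)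
  exact ⟨k, hk, h1⟩

omit [IsGalois ℚ K] in
theorem Lg_of_tors (ι : K →+* ℂ) {x : K} (h : Tors x) : Lg ι x = 0 := by
  obtain ⟨k, hk, h1⟩ := h
  funext g
  change Real.log ‖ι (g x)‖ = 0
  have h2 : ‖ι (g x)‖ ^ k = 1 := by
    rw [← norm_pow, ← map_pow, ← map_pow, h1, map_one, map_one, norm_one]
  rw [(pow_eq_one_iff_of_nonneg (norm_nonneg _) hk.ne').1 h2, Real.log_one]

theorem Lg_eq_iff (ι : K →+* ℂ) {x y : K} (hx : IsU x) (hy : IsU y) : Lg ι x = Lg ι y ↔ Tors (x / y) := by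
  have h1 : Lg ι (x / y) = Lg ι x - Lg ι y := by
    rw [div_eq_mul_inv, Lg_mul ι hx.ne (inv_ne_zero hy.ne), Lg_inv, sub_eq_add_neg]
  constructor
  · intro h
    exact tors_of_Lg ι (hx.div hy) (by rw [h1, h, sub_self])
  · intro h
    have h2 := Lg_of_tors ι h
    rw [h1] at h2
    exact sub_eq_zero.1 h2

theorem Lg_eq_neg_iff (ι : K →+* ℂ) {x y : K} (hx : IsU x) (hy : IsU y) : Lg ι x = - Lg ι y ↔ Tors (x * y) := by
  have h1 : Lg ι (x * y) = Lg ι x + Lg ι y := Lg_mul ι hx.ne hy.ne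
  constructor
  · intro h
    exact tors_of_Lg ι (hx.mul hy) (by rw [h1, h, neg_add_cancel])
  · intro h
    have h2 := Lg_of_tors ι h
    rw [h1] at h2
    exact eq_neg_of_add_eq_zero_left h2

end Pool.H95.Leh
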