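import Pool.Agent.H95.Leh.PSolv
import Pool.Agent.H95.Leh.FWide
import Pool.Agent.H95.Leh.FRed
import Pool.Agent.H95.Leh.FNorth
import Pool.Agent.H95.Leh.FKron

/-!
# LH-SOLV: Lehmer's inequality for units with a solvable normal subgroup

`solv_unit`: PROOF. `n2 = max` of `n0` of `wide_of_W 2 (19/10)`, `n0` of `wide_of_W 4 (7/2)`, `n1` of `pure_solv`. `c = min (c of northcott n2) (exp 1)`.
Let `α` be a unit, `s ∈ N` with `s α / α`, `s α * α` not torsion (so `α` is not torsion: `s α / α` would be torsion). `β, k` from `exists_red`.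
`s ∉ lstab (act K) (Lg ι β)` (`ι` any embedding): `s β / β = s (β/α^k) * (s α / α)^k / (β/α^k)`, `s β * β = s (β/α^k) * (β/α^k) * (s α * α)^k`
(`mem_lstab_Lg`, `Tors.mul`, `Tors.inv`, `Tors.of_pow`). Suppose `mm α < c`. Then `mm β = mm α < c ≤ e`. `mm β > 1` by `one_lt_mm` (`β` is not torsion since
`α` is not). If `deg β < n2`: `natDegree (minpoly ℤ β) = natDegree (minpoly ℚ β)`, so `c ≤ mm β` by `northcott`, contradiction. So `deg β ≥ n2`, and
`wide_of_W` gives `Wide` for `r = 2, 4`, `stab_index_Lg` gives the degree, `pure_solv` gives `N ≤ lstab (act K) (Lg ι β)`: contradiction.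

`solv_unit'` (the whole group solvable): if some `s` satisfies the hypothesis of `solv_unit`, done (`N = ⊤`). Otherwise for every `s`
`s α / α` or `s α * α` is torsion, so `β` of `exists_red` has at most 2 conjugates: if `s β / β` is torsion then `s β = β` (`Red`); if `s β * β` and `s' β * β` are
torsion then `s β / s' β` is torsion, `s'⁻¹ s β = β` by `Red`, `s β = s' β`. So `deg β = (stabiliser).index ≤ 2` (`index_stabilizer`; or `card_orb`), `northcott 2` applies to
`minpoly ℤ β`, `mm β = mm α > 1`.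
-/

namespace Pool.H95.Leh

open Pool.Agent.H49.St

section aux

variable {K : Type*} [Field K] [NumberField K]

theorem tors_aux_div {α β : K} {k : ℕ} (hk : 0 < k) (hα : α ≠ 0) (hβ : β ≠ 0) (h : Tors (β / α ^ k))
    (s : K ≃ₐ[ℚ] K) (hs : Tors (s β / β)) : Tors (s α / α) := by
  refine Tors.of_pow hk ?_
  have hsα : s α ≠ 0 := by simpa using hα
  have hsβ : s β ≠ 0 := by simpa using hβ
  have e : (s α / α) ^ k = (s β / β) * (β / α ^ k) * (s (β / α ^ k))⁻¹ := by
    rw [map_div₀, map_pow]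
    simp only [div_pow]
    field_simp
  rw [e]
  exact (hs.mul h).mul (h.map s).inv

theorem tors_aux_mul {α β : K} {k : ℕ} (hk : 0 < k) (hα : α ≠ 0) (hβ : β ≠ 0) (h : Tors (β / α ^ k))
    (s : K ≃ₐ[ℚ] K) (hs : Tors (s β * β)) : Tors (s α * α) := by
  refine Tors.of_pow hk ?_
  have hsα : s α ≠ 0 := by simpa using hα
  have hsβ : s β ≠ 0 := by simpa using hβ
  have e : (s α * α) ^ k = (s β * β) * (β / α ^ k)⁻¹ * (s (β / α ^ k))⁻¹ := by
    rw [map_div₀, map_pow]
    simp only [mul_pow]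
    field_simp
  rw [e]
  exact (hs.mul h.inv).mul (h.map s).inv

theorem tors_aux_div' {α β : K} {k : ℕ} (hα : α ≠ 0) (hβ : β ≠ 0) (h : Tors (β / α ^ k))
    (s : K ≃ₐ[ℚ] K) (hs : Tors (s α / α)) : Tors (s β / β) := by
  have hsα : s α ≠ 0 := by simpa using hα
  have hsβ : s β ≠ 0 := by simpa using hβ
  have e : s β / β = (s α / α) ^ k * (β / α ^ k)⁻¹ * (s (β / α ^ k)) := by
    rw [map_div₀, map_pow]
    simp only [div_pow]
    field_simp
  rw [e]
  exact ((hs.pow k).mul h.inv).mul (h.map s)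

theorem tors_aux_mul' {α β : K} {k : ℕ} (hα : α ≠ 0) (hβ : β ≠ 0) (h : Tors (β / α ^ k))
    (s : K ≃ₐ[ℚ] K) (hs : Tors (s α * α)) : Tors (s β * β) := by
  have hsα : s α ≠ 0 := by simpa using hα
  have hsβ : s β ≠ 0 := by simpa using hβ
  have e : s β * β = (s α * α) ^ k * (β / α ^ k) * (s (β / α ^ k)) := by
    rw [map_div₀, map_pow]
    simp only [mul_pow]
    field_simp
  rw [e]
  exact ((hs.pow k).mul h).mul (h.map s)

theorem natDegree_minpoly_int (β : K) (hβ : IsIntegral ℤ β) :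
    (minpoly ℤ β).natDegree = (minpoly ℚ β).natDegree := by
  rw [minpoly.isIntegrallyClosed_eq_field_fractions' ℚ hβ,
    Polynomial.natDegree_map_eq_of_injective (algebraMap ℤ ℚ).injective_int]

theorem not_tors_of_div {α : K} (s : K ≃ₐ[ℚ] K) (h : ¬ Tors (s α / α)) : ¬ Tors α := by
  intro hα
  exact h (by rw [div_eq_mul_inv]; exact (hα.map s).mul hα.inv)

omit [NumberField K] in
theorem not_tors_red {α β : K} {k : ℕ} (hk : 0 < k) (hα : α ≠ 0) (h : Tors (β / α ^ k)) (hna : ¬ Tors α) :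
    ¬ Tors β := by
  intro hb
  refine hna (Tors.of_pow hk ?_)
  have e : α ^ k = β * (β / α ^ k)⁻¹ := by
    have : β ≠ 0 := hb.ne_zero
    field_simp
  rw [e]
  exact hb.mul h.inv

end aux

theorem solv_unit (h2 : H25.TheoremW 2 (19 / 10)) (h4 : H25.TheoremW 4 (7 / 2)) :
    ∃ c : ℝ, 1 < c ∧ ∀ (K : Type) [Field K] [NumberField K] [IsGalois ℚ K] (α : K), IsU α →
      ∀ N : Subgroup (K ≃ₐ[ℚ] K), N.Normal → Group.IsSolvable N →
      (∃ s ∈ N, ¬ Tors (s α / α) ∧ ¬ Tors (s α * α)) → c ≤ mm α := by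
  obtain ⟨n2, hn2⟩ := wide_of_W 2 (19 / 10) h2
  obtain ⟨n4, hn4⟩ := wide_of_W 4 (7 / 2) h4
  obtain ⟨n1, hn1⟩ := pure_solv
  obtain ⟨c0, hc0, hN⟩ := northcott (max (max n2 n4) n1)
  refine ⟨min c0 (Real.exp 1), lt_min hc0 (by simp), ?_⟩
  intro K _ _ _ α hα N hNn hNs hex
  obtain ⟨s, hsN, hs1, hs2⟩ := hex
  obtain ⟨β, k, hk, -, hβ, hred, htors, hmm⟩ := exists_red α hα
  by_contra hlt
  push Not at hlt
  obtain ⟨hltc, hlte⟩ := lt_min_iff.mp hlt
  rw [← hmm] at hltc hlte
  have hnt : ¬ Tors β := not_tors_red hk hα.ne htors (not_tors_of_div s hs1)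
  have hone := one_lt_mm β hβ hnt
  have hdeg : max (max n2 n4) n1 ≤ (minpoly ℚ β).natDegree := by
    by_contra hd
    push Not at hd
    have := hN (minpoly ℤ β) (by rw [natDegree_minpoly_int β hβ.int]; exact hd.le) hone
    exact absurd this (not_le.mpr hltc)
  obtain ⟨ι⟩ : Nonempty (K →+* ℂ) := inferInstance
  have hle : N ≤ lstab (act K) (Lg ι β) := by
    refine hn1 (K ≃ₐ[ℚ] K) ((K ≃ₐ[ℚ] K) → ℝ) (act K) (Lg ι β) ?_ ?_ ?_ N hNn hNs
    · rw [stab_index_Lg ι hβ hred]
      exact le_trans (le_max_right _ _) hdeg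
    · exact hn2 K ι β hβ hred hlte.le (le_trans (le_trans (le_max_left _ _) (le_max_left _ _)) hdeg)
    · exact hn4 K ι β hβ hred hlte.le (le_trans (le_trans (le_max_right _ _) (le_max_left _ _)) hdeg)
  rcases (mem_lstab_Lg ι hβ s).mp (hle hsN) with h | h
  · exact hs1 (tors_aux_div hk hα.ne hβ.ne htors s h)
  · exact hs2 (tors_aux_mul hk hα.ne hβ.ne htors s h)

theorem solv_unit' (h2 : H25.TheoremW 2 (19 / 10)) (h4 : H25.TheoremW 4 (7 / 2)) :
    ∃ c : ℝ, 1 < c ∧ ∀ (K : Type) [Field K] [NumberField K] [IsGalois ℚ K] (α : K), IsU α → ¬ Tors α →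
      Group.IsSolvable (K ≃ₐ[ℚ] K) → c ≤ mm α := by
  obtain ⟨c1, hc1, H1⟩ := solv_unit h2 h4
  obtain ⟨c0, hc0, hN⟩ := northcott 2
  refine ⟨min c1 c0, lt_min hc1 hc0, ?_⟩
  intro K _ _ _ α hα hna hsol
  by_cases hex : ∃ s : K ≃ₐ[ℚ] K, ¬ Tors (s α / α) ∧ ¬ Tors (s α * α)
  · obtain ⟨s, hs⟩ := hex
    refine le_trans (min_le_left _ _) (H1 K α hα ⊤ inferInstance ?_ ⟨s, Subgroup.mem_top _, hs⟩)
    infer_instance
  · push Not at hex
    obtain ⟨β, k, hk, -, hβ, hred, htors, hmm⟩ := exists_red α hα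
    refine le_trans (min_le_right _ _) ?_
    rw [← hmm]
    have hnt : ¬ Tors β := not_tors_red hk hα.ne htors hna
    have hone := one_lt_mm β hβ hnt
    refine hN (minpoly ℤ β) ?_ hone
    rw [natDegree_minpoly_int β hβ.int, ← card_orb β]
    have hcase : ∀ s : K ≃ₐ[ℚ] K, s β = β ∨ Tors (s β * β) := by
      intro s
      by_cases h : Tors (s α / α)
      · exact Or.inl (hred s (tors_aux_div' hα.ne hβ.ne htors s h))
      · exact Or.inr (tors_aux_mul' hα.ne hβ.ne htors s (hex s h))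
    by_cases hall : ∀ s : K ≃ₐ[ℚ] K, s β = β
    · classical
      refine le_trans (Finset.card_le_card (t := {β}) ?_) (by simp)
      intro y hy
      unfold H25.Arith.orb at hy
      obtain ⟨g, -, rfl⟩ := Finset.mem_image.mp hy
      simp [hall g]
    · push Not at hall
      obtain ⟨s0, hs0⟩ := hall
      have ht0 : Tors (s0 β * β) := (hcase s0).resolve_left hs0
      classical
      refine le_trans (Finset.card_le_card (t := {β, s0 β}) ?_) Finset.card_le_two
      intro y hy
      unfold H25.Arith.orb at hy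
      obtain ⟨g, -, rfl⟩ := Finset.mem_image.mp hy
      simp only [Finset.mem_insert, Finset.mem_singleton]
      rcases hcase g with h | h
      · exact Or.inl h
      · right
        have hq : Tors (g β / s0 β) := by
          have e : g β / s0 β = (g β * β) * (s0 β * β)⁻¹ := by
            have h1 : β ≠ 0 := hβ.ne
            have h2 : s0 β ≠ 0 := by simpa using hβ.ne
            field_simp
          rw [e]
          exact h.mul ht0.inv
        have hq2 : Tors ((s0⁻¹ * g) β / β) := by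
          have := hq.map s0⁻¹
          rw [map_div₀] at this
          have e0 : s0⁻¹ (s0 β) = β := by
            rw [← AlgEquiv.mul_apply, inv_mul_cancel, AlgEquiv.one_apply]
          rw [e0] at this
          simpa [AlgEquiv.mul_apply] using this
        have h3 := hred _ hq2
        have h4 : s0 ((s0⁻¹ * g) β) = s0 β := by rw [h3]
        rwa [← AlgEquiv.mul_apply, mul_inv_cancel_left] at h4

end Pool.H95.Leh
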