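import Mathlib

/-!
(LADefs.lean; `Hyp.symm` is job LH-SYM: `comm` from `comm` (swap sides, change sign), `dep`: `ρ (t s) b = ± ρ (s t) b` by `comm` with `g = 1`, and
`![b, t b, s b, ± st b]` is a permutation (up to sign) of `![b, s b, t b, st b]`.)
-/

/-!
# Linear algebra for the Lehmer application (commuting normal subgroups): definitions

`Hyp ρ A₁ A₂ b` : `A₁, A₂` are normal subgroups of the group `Γ` acting linearly on the rational vector
space `V` by `ρ`, which commute up to sign on the orbit of `b`, and for `s ∈ A₁`, `t ∈ A₂` the four vectors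
`b, s b, t b, s t b` are linearly dependent.
-/

namespace Pool.H95.Leh

open Module

variable {Γ V : Type*} [Group Γ] [AddCommGroup V] [Module ℚ V]

/-- the orbit of `b` under the subgroup `A` -/
def orb (ρ : Representation ℚ Γ V) (A : Subgroup Γ) (b : V) : Set V := (fun s => ρ s b) '' (A : Set Γ)

/-- the rational span of the orbit of `b` under the subgroup `A` -/
def spn (ρ : Representation ℚ Γ V) (A : Subgroup Γ) (b : V) : Submodule ℚ V := Submodule.span ℚ (orb ρ A b)

structure Hyp (ρ : Representation ℚ Γ V) (A₁ A₂ : Subgroup Γ) (b : V) : Prop where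
  n₁ : A₁.Normal
  n₂ : A₂.Normal
  comm : ∀ s ∈ A₁, ∀ t ∈ A₂, ∀ g : Γ, ρ (s * t * g) b = ρ (t * s * g) b ∨ ρ (s * t * g) b = - ρ (t * s * g) b
  dep : ∀ s ∈ A₁, ∀ t ∈ A₂, ¬ LinearIndependent ℚ ![b, ρ s b, ρ t b, ρ (s * t) b]

/-- `v` is a common eigenvector of `A` with the sign character `χ`. -/
def IsEig (ρ : Representation ℚ Γ V) (A : Subgroup Γ) (χ : A →* ℤˣ) (v : V) : Prop :=
  ∀ s : A, ρ (s : Γ) v = (((χ s : ℤˣ) : ℤ) : ℚ) • v

theorem mem_orb {ρ : Representation ℚ Γ V} {A : Subgroup Γ} {b : V} {s : Γ} (hs : s ∈ A) : ρ s b ∈ orb ρ A b :=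
  ⟨s, hs, rfl⟩

theorem mem_spn {ρ : Representation ℚ Γ V} {A : Subgroup Γ} {b : V} {s : Γ} (hs : s ∈ A) : ρ s b ∈ spn ρ A b :=
  Submodule.subset_span (mem_orb hs)

theorem self_mem_spn {ρ : Representation ℚ Γ V} {A : Subgroup Γ} {b : V} : b ∈ spn ρ A b := by
  simpa using mem_spn (ρ := ρ) (b := b) A.one_mem

theorem orb_finite [Finite Γ] (ρ : Representation ℚ Γ V) (A : Subgroup Γ) (b : V) : (orb ρ A b).Finite :=
  (Set.toFinite _).image _

instance [Finite Γ] (ρ : Representation ℚ Γ V) (A : Subgroup Γ) (b : V) : FiniteDimensional ℚ (spn ρ A b) :=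
  FiniteDimensional.span_of_finite ℚ (orb_finite ρ A b)

theorem spn_stable {ρ : Representation ℚ Γ V} {A : Subgroup Γ} {b v : V} {s : Γ} (hs : s ∈ A)
    (hv : v ∈ spn ρ A b) : ρ s v ∈ spn ρ A b := by
  unfold spn at hv ⊢
  induction hv using Submodule.span_induction with
  | mem x hx =>
    obtain ⟨u, hu, rfl⟩ := hx
    apply Submodule.subset_span
    exact ⟨s * u, A.mul_mem hs hu, by simp [map_mul]⟩
  | zero => simp
  | add x y _ _ hx hy => simpa using Submodule.add_mem _ hx hy
  | smul c x _ hx => simpa using Submodule.smul_mem _ c hx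

theorem Hyp.symm {ρ : Representation ℚ Γ V} {A₁ A₂ : Subgroup Γ} {b : V} (h : Hyp ρ A₁ A₂ b) :
    Hyp ρ A₂ A₁ b := by
  refine ⟨h.n₂, h.n₁, fun s hs t ht g => ?_, fun s hs t ht hL => ?_⟩
  · rcases h.comm t ht s hs g with h1 | h1
    · exact Or.inl h1.symm
    · right
      rw [h1, neg_neg]
  · apply h.dep t ht s hs
    have h1 := hL.comp (Equiv.swap (1 : Fin 4) 2) (Equiv.injective _)
    have h2 : ∃ e : ℚˣ, ρ (t * s) b = e • ρ (s * t) b := by
      rcases h.comm t ht s hs 1 with h3 | h3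
      · exact ⟨1, by simpa using h3⟩
      · exact ⟨-1, by simpa using h3⟩
    obtain ⟨e, he⟩ := h2
    have h4 := h1.units_smul ![1, 1, 1, e]
    convert h4 using 1
    funext i
    fin_cases i
    · simp [Equiv.swap_apply_of_ne_of_ne]
    · simp
    · simp
    · simp only [map_mul, Module.End.mul_apply] at he
      simp [Equiv.swap_apply_of_ne_of_ne, he]

end Pool.H95.Leh
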