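import Pool.Agent.H95.Leh.LADefs

/-!
# LH-MINK (Minkowski, reduction modulo 3)

`eq_id_of_mod_three`: PROOF. `Λ ≅ ℤ^d`. Define `Q x = ∑_{i < k} ∑_j (coordinate j of f^i x)^2 ∈ ℤ`, `≥ 0`. Since `f^k = 1` the sum over
`i < k` may be shifted: `Q (f x) = Q x`. `Q (3y) = 9 Q y`, `Q (x - y) ≤ 2 Q x + 2 Q y`, and `Q x > 0` for `x ≠ 0` (term `i = 0`).
Suppose `f ≠ 1`; among all `x` with `f x ≠ x` take one with `Q x` minimal (well ordering of ℕ). `f x - x = 3 y`, so
`9 Q y = Q (f x - x) ≤ 4 Q x`, so `Q y < Q x` (`Q x > 0` as `x ≠ 0`), so `f y = y` by minimality. Then `f^m x = x + 3 m y` by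
induction, so `0 = 3 k y`, `y = 0` (torsion free), `f x = x`: contradiction.
(Alternative: 3-adic, `f = 1 + 3^j N`, `N` not divisible by 3.)

`orb_ncard_le`: PROOF. `Λ = span ℤ (orb ρ A b)` (a submodule of `V` over ℤ), finitely generated and torsion free, hence free;
its rank is `finrank ℚ (spn ρ A b) ≤ d` (only `rank Λ ≤ d` is needed: a ℤ-basis of `Λ` is ℚ-linearly independent in `V`
(`LinearIndependent.iff_fractionRing` or clearing denominators) and lies in `spn`). Every `s ∈ A` restricts to a ℤ-linear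
`f_s : Λ → Λ` with `f_s^(orderOf s) = 1`. Map `A → Matrix (Fin r) (Fin r) (ZMod 3)`, `s ↦` matrix of `f_s` in a basis modulo 3,
`r = rank Λ ≤ d`. If `s, t` have the same image then `f_s x - f_t x ∈ 3 Λ` for all `x ∈ Λ`, so `f = f_(t⁻¹ s)` satisfies
`f x - x ∈ 3 Λ`, `f = 1` and `s b = t b`. So `orb ρ A b` has at most `3 ^ (r * r) ≤ 3 ^ (d * d)` elements.
-/

namespace Pool.H95.Leh

open Module

variable {Γ V : Type*} [Group Γ] [AddCommGroup V] [Module ℚ V]

namespace mink

variable {Λ : Type*} [AddCommGroup Λ] {ι : Type*} [Fintype ι]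

/-- sum of the squares of the coordinates -/
noncomputable def q (B : Basis ι ℤ Λ) (x : Λ) : ℤ := ∑ j, (B.repr x j) ^ 2

lemma q_nonneg (B : Basis ι ℤ Λ) (x : Λ) : 0 ≤ q B x := Finset.sum_nonneg fun _ _ => sq_nonneg _

lemma q_pos (B : Basis ι ℤ Λ) {x : Λ} (hx : x ≠ 0) : 0 < q B x := by
  obtain ⟨j, hj⟩ : ∃ j, B.repr x j ≠ 0 := by
    by_contra h
    push Not at h
    apply hx
    apply B.repr.injective
    ext j
    simpa using h j
  refine Finset.sum_pos' (fun _ _ => sq_nonneg _) ⟨j, Finset.mem_univ _, ?_⟩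
  positivity

lemma q_sub (B : Basis ι ℤ Λ) (x y : Λ) : q B (x - y) ≤ 2 * q B x + 2 * q B y := by
  unfold q
  rw [Finset.mul_sum, Finset.mul_sum, ← Finset.sum_add_distrib]
  refine Finset.sum_le_sum fun j _ => ?_
  rw [map_sub, Finsupp.sub_apply]
  nlinarith [sq_nonneg (B.repr x j + B.repr y j)]

lemma q_three (B : Basis ι ℤ Λ) (x : Λ) : q B ((3 : ℤ) • x) = 9 * q B x := by
  unfold q
  rw [Finset.mul_sum]
  refine Finset.sum_congr rfl fun j _ => ?_
  rw [map_smul, Finsupp.smul_apply, smul_eq_mul]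
  ring

/-- the invariant form -/
noncomputable def QQ (B : Basis ι ℤ Λ) (f : Λ →ₗ[ℤ] Λ) (k : ℕ) (x : Λ) : ℤ :=
  ∑ i ∈ Finset.range k, q B ((f ^ i) x)

lemma QQ_nonneg (B : Basis ι ℤ Λ) (f : Λ →ₗ[ℤ] Λ) (k : ℕ) (x : Λ) : 0 ≤ QQ B f k x :=
  Finset.sum_nonneg fun _ _ => q_nonneg _ _

lemma QQ_pos (B : Basis ι ℤ Λ) (f : Λ →ₗ[ℤ] Λ) {k : ℕ} (hk : 0 < k) {x : Λ} (hx : x ≠ 0) :
    0 < QQ B f k x := by
  refine Finset.sum_pos' (fun _ _ => q_nonneg _ _) ⟨0, Finset.mem_range.2 hk, ?_⟩
  exact q_pos B hx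

lemma QQ_sub (B : Basis ι ℤ Λ) (f : Λ →ₗ[ℤ] Λ) (k : ℕ) (x y : Λ) :
    QQ B f k (x - y) ≤ 2 * QQ B f k x + 2 * QQ B f k y := by
  unfold QQ
  rw [Finset.mul_sum, Finset.mul_sum, ← Finset.sum_add_distrib]
  refine Finset.sum_le_sum fun j _ => ?_
  rw [map_sub]
  exact q_sub B _ _

lemma QQ_three (B : Basis ι ℤ Λ) (f : Λ →ₗ[ℤ] Λ) (k : ℕ) (x : Λ) :
    QQ B f k ((3 : ℤ) • x) = 9 * QQ B f k x := by
  unfold QQ
  rw [Finset.mul_sum]
  refine Finset.sum_congr rfl fun j _ => ?_
  rw [map_smul]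
  exact q_three B _

lemma QQ_inv (B : Basis ι ℤ Λ) (f : Λ →ₗ[ℤ] Λ) (k : ℕ) (hf : f ^ k = 1) (x : Λ) :
    QQ B f k (f x) = QQ B f k x := by
  unfold QQ
  have h1 : ∑ i ∈ Finset.range k, q B ((f ^ i) (f x)) =
      ∑ i ∈ Finset.range k, q B ((f ^ (i + 1)) x) := by
    refine Finset.sum_congr rfl fun i _ => ?_
    rw [pow_succ]
    rfl
  have h2 := Finset.sum_range_succ' (fun i => q B ((f ^ i) x)) k
  have h3 := Finset.sum_range_succ (fun i => q B ((f ^ i) x)) k
  rw [hf] at h3
  simp only [pow_zero] at h2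
  rw [h1]
  linarith

end mink

open mink in
/-- Reduction modulo 3 is injective on a finite group of automorphisms of a free lattice: an automorphism of
finite order which is the identity modulo `3` is the identity (Minkowski). -/
theorem eq_id_of_mod_three {Λ : Type*} [AddCommGroup Λ] [Module.Free ℤ Λ] [Module.Finite ℤ Λ]
    (f : Λ →ₗ[ℤ] Λ) (k : ℕ) (hk : 0 < k) (hf : f ^ k = 1) (h3 : ∀ x, ∃ y, f x - x = (3 : ℤ) • y) :
    f = 1 := by
  classical
  let B := Module.Free.chooseBasis ℤ Λ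
  have key : ∀ n : ℕ, ∀ x : Λ, (QQ B f k x).toNat = n → f x = x := by
    intro n
    induction n using Nat.strong_induction_on with
    | _ n ih =>
      intro x hx
      by_cases h0 : x = 0
      · rw [h0, map_zero]
      obtain ⟨y, hy⟩ := h3 x
      have h1 := QQ_pos B f hk h0
      have h2 := QQ_three B f k y
      have h4 := QQ_sub B f k (f x) x
      rw [hy, h2, QQ_inv B f k hf] at h4
      have h5 := QQ_nonneg B f k y
      have h6 : (QQ B f k y).toNat < n := by omega
      have h7 := ih _ h6 y rfl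
      have h8 : ∀ m : ℕ, (f ^ m) x = x + (m : ℤ) • (3 : ℤ) • y := by
        intro m
        induction m with
        | zero => simp
        | succ m ihm =>
          have h9 : f x = x + (3 : ℤ) • y := by rw [← hy]; abel
          rw [pow_succ', Module.End.mul_apply, ihm, map_add, map_smul, map_smul, h7, h9]
          push_cast
          rw [add_smul, one_smul]
          abel
      have h9 := h8 k
      rw [hf, Module.End.one_apply, left_eq_add, smul_smul] at h9
      have h10 : y = 0 := by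
        apply B.repr.injective
        ext j
        have h11 := congrArg (fun z => B.repr z j) h9
        simp only [map_smul, Finsupp.smul_apply, smul_eq_mul, map_zero, Finsupp.zero_apply] at h11
        have h12 : ((k : ℤ) * 3) ≠ 0 := by positivity
        simpa using (mul_eq_zero.1 h11).resolve_left h12
      rw [h10, smul_zero, sub_eq_zero] at hy
      exact hy
  ext x
  exact key _ x rfl

theorem orb_ncard_le [Finite Γ] (ρ : Representation ℚ Γ V) (A : Subgroup Γ) (b : V) (d : ℕ)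
    (hd : finrank ℚ (spn ρ A b) ≤ d) : (orb ρ A b).ncard ≤ 3 ^ (d * d) := by
  classical
  let Λ : Submodule ℤ V := Submodule.span ℤ (orb ρ A b)
  have hfin : Module.Finite ℤ Λ := Module.Finite.span_of_finite ℤ (orb_finite ρ A b)
  have hatf : IsAddTorsionFree V := IsAddTorsionFree.of_module_rat V
  have hfree : Module.Free ℤ Λ := by
    infer_instance
  let B := Module.finBasis ℤ Λ
  -- the rank
  have hr : finrank ℤ Λ ≤ d := by
    have h1 : LinearIndependent ℤ (fun i => (B i : V)) :=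
      B.linearIndependent.map' Λ.subtype (Submodule.ker_subtype _)
    have h2 : LinearIndependent ℚ (fun i => (B i : V)) :=
      (LinearIndependent.iff_fractionRing ℤ ℚ).1 h1
    have hsub : ∀ x ∈ Λ, x ∈ spn ρ A b := by
      intro x hx
      exact Submodule.span_le_restrictScalars ℤ ℚ (orb ρ A b) hx
    have h3 : LinearIndependent ℚ (fun i => (⟨(B i : V), hsub _ (B i).2⟩ : spn ρ A b)) :=
      LinearIndependent.of_comp (spn ρ A b).subtype h2
    have h4 := h3.fintype_card_le_finrank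
    rw [Fintype.card_fin] at h4
    exact h4.trans hd
  -- the maps
  have hstab : ∀ s ∈ A, ∀ x ∈ Λ, ρ s x ∈ Λ := by
    intro s hs x hx
    induction hx using Submodule.span_induction with
    | mem x hx =>
      obtain ⟨u, hu, rfl⟩ := hx
      apply Submodule.subset_span
      exact ⟨s * u, A.mul_mem hs hu, by simp [map_mul]⟩
    | zero => rw [map_zero]; exact Λ.zero_mem
    | add x y _ _ hx hy => rw [map_add]; exact Λ.add_mem hx hy
    | smul a x _ hx =>
      rw [map_zsmul]
      exact Λ.smul_mem a hx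
  let F : A → (Λ →ₗ[ℤ] Λ) := fun s =>
    { toFun := fun x => ⟨ρ s x, hstab s s.2 x x.2⟩
      map_add' := fun x y => Subtype.ext (map_add _ _ _)
      map_smul' := fun a x => Subtype.ext (map_zsmul _ _ _) }
  have hF : ∀ s x, ((F s x : Λ) : V) = ρ s x := fun s x => rfl
  have hFmul : ∀ s t x, F (s * t) x = F s (F t x) := by
    intro s t x
    apply Subtype.ext
    rw [hF, hF, hF]
    simp [map_mul]
  have hF1 : F 1 = 1 := by
    ext x
    rw [hF]
    simp
  have hFpow : ∀ s n, F (s ^ n) = (F s) ^ n := by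
    intro s n
    induction n with
    | zero => rw [pow_zero, pow_zero, hF1]
    | succ n ih =>
      refine LinearMap.ext fun x => ?_
      rw [pow_succ', pow_succ', hFmul, ih]
      rfl
  let Mt : A → Matrix (Fin (finrank ℤ Λ)) (Fin (finrank ℤ Λ)) (ZMod 3) := fun s i j =>
    ((B.repr (F s (B j)) i : ℤ) : ZMod 3)
  have hinj : ∀ s t : A, Mt s = Mt t → ρ s b = ρ t b := by
    intro s t hst
    have h1 : ∀ x : Λ, ∃ y : Λ, F s x - F t x = (3 : ℤ) • y := by
      have hb : ∀ j, ∃ y : Λ, F s (B j) - F t (B j) = (3 : ℤ) • y := by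
        intro j
        have h2 : ∀ i, ∃ c : ℤ, B.repr (F s (B j)) i - B.repr (F t (B j)) i = 3 * c := by
          intro i
          have h3 := congrFun (congrFun hst i) j
          simp only [Mt] at h3
          have h4 := (ZMod.intCast_eq_intCast_iff_dvd_sub _ _ 3).1 h3.symm
          obtain ⟨c, hc⟩ := h4
          exact ⟨c, by exact_mod_cast hc⟩
        choose c hc using h2
        refine ⟨∑ i, c i • B i, ?_⟩
        apply B.repr.injective
        ext i
        rw [map_sub, Finsupp.sub_apply, hc i, map_smul, Finsupp.smul_apply, smul_eq_mul,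
          B.repr_sum_self]
      choose y hy using hb
      intro x
      refine ⟨∑ j, B.repr x j • y j, ?_⟩
      conv_lhs => rw [← B.sum_repr x]
      rw [map_sum, map_sum, ← Finset.sum_sub_distrib, Finset.smul_sum]
      refine Finset.sum_congr rfl fun j _ => ?_
      rw [map_smul, map_smul, ← smul_sub, hy j, smul_comm]
    have h2 : F (t⁻¹ * s) = 1 := by
      have hfo := isOfFinOrder_of_finite (t⁻¹ * s)
      refine eq_id_of_mod_three (F (t⁻¹ * s)) (orderOf (t⁻¹ * s)) hfo.orderOf_pos ?_ ?_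
      · rw [← hFpow, pow_orderOf_eq_one, hF1]
      · intro x
        obtain ⟨y, hy⟩ := h1 x
        refine ⟨F t⁻¹ y, ?_⟩
        have h3 : F t⁻¹ (F t x) = x := by
          rw [← hFmul, inv_mul_cancel, hF1]
          rfl
        rw [hFmul, ← map_smul, ← hy, map_sub, h3]
    have hbΛ : b ∈ Λ := Submodule.subset_span ⟨1, A.one_mem, by simp⟩
    have h3 : F t (F (t⁻¹ * s) ⟨b, hbΛ⟩) = F t ⟨b, hbΛ⟩ := by rw [h2]; rfl
    rw [← hFmul, mul_inv_cancel_left] at h3
    exact congrArg (fun z : Λ => (z : V)) h3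
  -- counting
  have hch : ∀ v : orb ρ A b, ∃ s : A, ρ s b = v := by
    rintro ⟨v, s, hs, rfl⟩
    exact ⟨⟨s, hs⟩, rfl⟩
  choose σ hσ using hch
  have hinj' : Function.Injective (fun v : orb ρ A b => Mt (σ v)) := by
    intro v w h
    apply Subtype.ext
    rw [← hσ v, ← hσ w]
    exact hinj _ _ h
  have h1 := Nat.card_le_card_of_injective _ hinj'
  rw [Nat.card_coe_set_eq] at h1
  refine h1.trans ?_
  have h2 : Nat.card (Matrix (Fin (finrank ℤ Λ)) (Fin (finrank ℤ Λ)) (ZMod 3)) =
      3 ^ (finrank ℤ Λ * finrank ℤ Λ) := by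
    have h3 : Nat.card (Matrix (Fin (finrank ℤ Λ)) (Fin (finrank ℤ Λ)) (ZMod 3)) =
        Nat.card (Fin (finrank ℤ Λ) → Fin (finrank ℤ Λ) → ZMod 3) := rfl
    rw [h3, Nat.card_eq_fintype_card, Fintype.card_fun, Fintype.card_fun, ZMod.card,
      Fintype.card_fin, ← pow_mul]
  rw [h2]
  exact Nat.pow_le_pow_right (by norm_num) (Nat.mul_le_mul hr hr)

end Pool.H95.Leh
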