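import Pool.Agent.H95.Leh.Chars
import Pool.Agent.H95.Leh.Mink

/-!
# LH-LAMAIN

`fixed_sub`: PROOF. Choose `t ∈ A₂` with `t b ∉ span {b}` (else `spn ρ A₂ b ≤ span {b}`, contradiction to `hD₂`). `v = t b - χ'(t) b` satisfies
`s v = v` (`χ s = 1`). `s b = e b` for some rational `e`. `s t b = ± t s b = ± e t b` by `H.comm` with `g = 1`. So
`± e t b - χ'(t) e b = t b - χ'(t) b`; `b, t b` independent, `χ'(t) = ±1`, so `e = 1`.

`mul_eq`: PROOF. If `t b ∉ span {b}`: `h₁ t` with `χ' t = 1`: `t b - b` is an eigenvector with character `χ`, and `χ s = 1`. If `t b ∈ span {b}`: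
`fixed_sub` with the roles of `A₁, A₂` exchanged (`H.symm`, `h₂`) gives `t b = b`, and `s 0 = 0`. Second half symmetric.

`ncard_mul_le`: PROOF. For `s ∈ B₁, t ∈ B₂`: `s t b = s (b + (t b - b)) = s b + t b - b`. So `(x, y) ↦ x + y - b` maps
`orb B₁ b × orb B₂ b` into `orb ⊤ b`. Injective: let `x_i = s_i b`, `y_i = t_i b`, `x₁ + y₁ = x₂ + y₂`, `z = x₁ - x₂ = y₂ - y₁`.
`z = (t₂ b - b) - (t₁ b - b)` is fixed by all elements of `B₁`. `r = s₂⁻¹ s₁ ∈ B₁`: `r b = s₂⁻¹ (x₂ + z) = b + z`, `r^k b = b + k z`, and for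
`k = orderOf r > 0`: `k z = 0`, `z = 0` (`V` is a ℚ-vector space). So `x₁ = x₂`, `y₁ = y₂`.

`ncard_ker`: PROOF. `A = ker χ ∪ s₀ ker χ` for any `s₀` with `χ s₀ = -1` (if there is none `A = ker χ`), so
`orb A b = orb (ker) b ∪ ρ s₀ '' (orb (ker) b)`.
-/

namespace Pool.H95.Leh

open Module

variable {Γ V : Type*} [Group Γ] [AddCommGroup V] [Module ℚ V]

/-- for `s` in the kernel of `χ`: `A₂' = ker χ'` fixes `s b - b`, also when `s b = ± b`. -/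
theorem fixed_sub [Finite Γ] {ρ : Representation ℚ Γ V} {A₁ A₂ : Subgroup Γ} {b : V}
    (H : Hyp ρ A₁ A₂ b) (hD₁ : 9 ≤ finrank ℚ (spn ρ A₁ b)) (hD₂ : 9 ≤ finrank ℚ (spn ρ A₂ b))
    (χ : A₁ →* ℤˣ) (χ' : A₂ →* ℤˣ)
    (h₁ : ∀ t : A₂, ρ (t : Γ) b ∉ Submodule.span ℚ {b} →
        IsEig ρ A₁ χ (ρ (t : Γ) b - (((χ' t : ℤˣ) : ℤ) : ℚ) • b))
    (s : A₁) (hs : χ s = 1) (hsb : ρ (s : Γ) b ∈ Submodule.span ℚ {b}) : ρ (s : Γ) b = b := by
  obtain ⟨t, ht⟩ : ∃ t : A₂, ρ (t : Γ) b ∉ Submodule.span ℚ {b} := by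
    by_contra hcon
    have hle : spn ρ A₂ b ≤ Submodule.span ℚ {b} := by
      unfold spn
      rw [Submodule.span_le]
      rintro _ ⟨u, hu, rfl⟩
      by_contra h
      exact hcon ⟨⟨u, hu⟩, h⟩
    have h1 : finrank ℚ (spn ρ A₂ b) ≤ finrank ℚ (Submodule.span ℚ {b}) :=
      Submodule.finrank_mono hle
    have h2 : finrank ℚ (Submodule.span ℚ ({b} : Set V)) ≤ 1 := by
      have := finrank_span_le_card (R := ℚ) ({b} : Set V)
      simpa using this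
    omega
  obtain ⟨e, he⟩ := Submodule.mem_span_singleton.1 hsb
  have hb0 : b ≠ 0 := by
    rintro rfl
    apply ht
    simp
  obtain ⟨c, hc⟩ : ∃ c : ℚ, c = (((χ' t : ℤˣ) : ℤ) : ℚ) := ⟨_, rfl⟩
  have hc0 : c ≠ 0 := by
    rw [hc]
    rcases Int.units_eq_one_or (χ' t) with h | h <;> rw [h] <;> norm_num
  have h2 := h₁ t ht s
  rw [hs, ← hc] at h2
  simp only [Units.val_one, Int.cast_one, one_smul, map_sub, map_smul] at h2
  have h3 := H.comm s s.2 t t.2 1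
  rw [mul_one, mul_one, map_mul, map_mul, Module.End.mul_apply, Module.End.mul_apply, ← he,
    map_smul] at h3
  rw [← he] at h2
  obtain ⟨d, hd⟩ : ∃ d : ℚ, ρ (s : Γ) (ρ (t : Γ) b) = d • ρ (t : Γ) b := by
    rcases h3 with h3 | h3
    · exact ⟨e, h3⟩
    · exact ⟨-e, by rw [h3, neg_smul]⟩
  rw [hd] at h2
  have h4 : (d - 1) • ρ (t : Γ) b = (c * (e - 1)) • b := by
    have h5 : d • ρ (t : Γ) b - ρ (t : Γ) b = c • e • b - c • b := by
      have h6 : d • ρ (t : Γ) b = ρ (t : Γ) b - c • b + c • e • b := by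
        rw [← h2]; abel
      rw [h6]; abel
    calc (d - 1) • ρ (t : Γ) b = d • ρ (t : Γ) b - ρ (t : Γ) b := by rw [sub_smul, one_smul]
      _ = c • e • b - c • b := h5
      _ = (c * (e - 1)) • b := by rw [mul_sub, mul_one, sub_smul, mul_smul]
  have h5 : d - 1 = 0 := by
    by_contra h
    apply ht
    rw [Submodule.mem_span_singleton]
    refine ⟨(d - 1)⁻¹ * (c * (e - 1)), ?_⟩
    rw [mul_smul, ← h4, smul_smul, inv_mul_cancel₀ h, one_smul]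
  rw [h5, zero_smul] at h4
  have h6 := (smul_eq_zero.1 h4.symm).resolve_right hb0
  have h7 : e = 1 := by
    have := (mul_eq_zero.1 h6).resolve_left hc0
    linarith
  rw [← he, h7, one_smul]

theorem mul_eq [Finite Γ] {ρ : Representation ℚ Γ V} {A₁ A₂ : Subgroup Γ} {b : V}
    (H : Hyp ρ A₁ A₂ b) (hD₁ : 9 ≤ finrank ℚ (spn ρ A₁ b)) (hD₂ : 9 ≤ finrank ℚ (spn ρ A₂ b))
    (χ : A₁ →* ℤˣ) (χ' : A₂ →* ℤˣ)
    (h₁ : ∀ t : A₂, ρ (t : Γ) b ∉ Submodule.span ℚ {b} →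
        IsEig ρ A₁ χ (ρ (t : Γ) b - (((χ' t : ℤˣ) : ℤ) : ℚ) • b))
    (h₂ : ∀ s : A₁, ρ (s : Γ) b ∉ Submodule.span ℚ {b} →
        IsEig ρ A₂ χ' (ρ (s : Γ) b - (((χ s : ℤˣ) : ℤ) : ℚ) • b))
    (s : A₁) (hs : χ s = 1) (t : A₂) (ht : χ' t = 1) :
    ρ (s : Γ) (ρ (t : Γ) b - b) = ρ (t : Γ) b - b ∧ ρ (t : Γ) (ρ (s : Γ) b - b) = ρ (s : Γ) b - b := by
  constructor
  · by_cases htb : ρ (t : Γ) b ∈ Submodule.span ℚ {b}
    · rw [fixed_sub H.symm hD₂ hD₁ χ' χ h₂ t ht htb, sub_self, map_zero]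
    · have h := h₁ t htb s
      rw [hs, ht] at h
      simpa using h
  · by_cases hsb : ρ (s : Γ) b ∈ Submodule.span ℚ {b}
    · rw [fixed_sub H hD₁ hD₂ χ χ' h₁ s hs hsb, sub_self, map_zero]
    · have h := h₂ s hsb t
      rw [hs, ht] at h
      simpa using h

/-- the map `(s b, t b) ↦ s t b` is injective on the orbits of the kernels. -/
theorem ncard_mul_le [Finite Γ] (ρ : Representation ℚ Γ V) (B₁ B₂ : Subgroup Γ) (b : V)
    (h : ∀ s ∈ B₁, ∀ t ∈ B₂, ρ s (ρ t b - b) = ρ t b - b ∧ ρ t (ρ s b - b) = ρ s b - b) :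
    (orb ρ B₁ b).ncard * (orb ρ B₂ b).ncard ≤ (orb ρ ⊤ b).ncard := by
  rw [← Set.ncard_prod]
  refine Set.ncard_le_ncard_of_injOn (fun p : V × V => p.1 + p.2 - b) ?_ ?_ (orb_finite ρ ⊤ b)
  · rintro ⟨x, y⟩ ⟨⟨s, hs, hx⟩, ⟨t, ht, hy⟩⟩
    refine ⟨s * t, Subgroup.mem_top _, ?_⟩
    have h1 := (h s hs t ht).1
    simp only at hx hy
    subst hx hy
    simp only [map_mul, Module.End.mul_apply]
    rw [map_sub] at h1
    have h2 : ρ s (ρ t b) = ρ t b - b + ρ s b := by rw [← h1]; abel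
    rw [h2]
    abel
  · rintro ⟨x₁, y₁⟩ ⟨⟨s₁, hs₁, hx₁⟩, ⟨t₁, ht₁, hy₁⟩⟩ ⟨x₂, y₂⟩ ⟨⟨s₂, hs₂, hx₂⟩, ⟨t₂, ht₂, hy₂⟩⟩ he
    simp only at he hx₁ hx₂ hy₁ hy₂
    have he' : x₁ + y₁ = x₂ + y₂ := by
      have := congrArg (fun v => v + b) he
      simpa using this
    obtain ⟨z, hz⟩ : ∃ z, z = x₁ - x₂ := ⟨_, rfl⟩
    have hz2 : z = (y₂ - b) - (y₁ - b) := by
      rw [hz, sub_sub_sub_cancel_right, sub_eq_sub_iff_add_eq_add, he', add_comm]
    have hfix : ∀ u ∈ B₁, ρ u z = z := by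
      intro u hu
      rw [hz2, map_sub, ← hy₁, ← hy₂, (h u hu t₁ ht₁).1, (h u hu t₂ ht₂).1]
    have hr : s₂⁻¹ * s₁ ∈ B₁ := B₁.mul_mem (B₁.inv_mem hs₂) hs₁
    have hrb : ρ (s₂⁻¹ * s₁) b = b + z := by
      have h1 : ρ s₁ b = ρ s₂ b + z := by rw [hx₁, hx₂, hz]; abel
      have h2 : ρ s₂⁻¹ (ρ s₂ b) = b := by
        rw [← Module.End.mul_apply, ← map_mul, inv_mul_cancel, map_one, Module.End.one_apply]
      rw [map_mul, Module.End.mul_apply, h1, map_add, h2, hfix _ (B₁.inv_mem hs₂)]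
    have hpow : ∀ k : ℕ, ρ ((s₂⁻¹ * s₁) ^ k) b = b + (k : ℚ) • z := by
      intro k
      induction k with
      | zero => simp
      | succ k ih =>
        rw [pow_succ', map_mul, Module.End.mul_apply, ih, map_add, map_smul, hrb, hfix _ hr,
          Nat.cast_succ, add_smul, one_smul]
        abel
    have hk := hpow (orderOf (s₂⁻¹ * s₁))
    rw [pow_orderOf_eq_one, map_one, Module.End.one_apply, left_eq_add] at hk
    have hk0 : ((orderOf (s₂⁻¹ * s₁) : ℕ) : ℚ) ≠ 0 := by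
      exact_mod_cast (orderOf_pos (s₂⁻¹ * s₁)).ne'
    have hz0 := (smul_eq_zero.1 hk).resolve_left hk0
    rw [hz0] at hz
    have hx : x₁ = x₂ := sub_eq_zero.1 hz.symm
    rw [hx] at he'
    rw [hx, add_left_cancel he']

/-- the orbit of the kernel of a sign character has at least half the size of the orbit. -/
theorem ncard_ker [Finite Γ] (ρ : Representation ℚ Γ V) (A : Subgroup Γ) (χ : A →* ℤˣ) (b : V) :
    (orb ρ A b).ncard ≤ 2 * (orb ρ (χ.ker.map A.subtype) b).ncard := by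
  have hfin : (orb ρ (χ.ker.map A.subtype) b).Finite := orb_finite _ _ _
  by_cases hex : ∃ s₀ : A, χ s₀ = -1
  · obtain ⟨s₀, hs₀⟩ := hex
    have hsub : orb ρ A b ⊆ orb ρ (χ.ker.map A.subtype) b ∪
        (fun v => ρ (s₀ : Γ) v) '' orb ρ (χ.ker.map A.subtype) b := by
      rintro _ ⟨u, hu, rfl⟩
      rcases Int.units_eq_one_or (χ ⟨u, hu⟩) with h | h
      · left
        exact ⟨u, ⟨⟨u, hu⟩, h, rfl⟩, rfl⟩
      · right
        refine ⟨ρ ((s₀ : Γ)⁻¹ * u) b, ⟨(s₀ : Γ)⁻¹ * u, ⟨s₀⁻¹ * ⟨u, hu⟩, ?_, rfl⟩, rfl⟩, ?_⟩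
        · change χ (s₀⁻¹ * ⟨u, hu⟩) = 1
          rw [map_mul, map_inv, hs₀, h]
          rfl
        · change ρ (s₀ : Γ) (ρ ((s₀ : Γ)⁻¹ * u) b) = ρ u b
          rw [← Module.End.mul_apply, ← map_mul, mul_inv_cancel_left]
    calc (orb ρ A b).ncard
        ≤ (orb ρ (χ.ker.map A.subtype) b ∪
          (fun v => ρ (s₀ : Γ) v) '' orb ρ (χ.ker.map A.subtype) b).ncard :=
          Set.ncard_le_ncard hsub (hfin.union (hfin.image _))
      _ ≤ (orb ρ (χ.ker.map A.subtype) b).ncard +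
          ((fun v => ρ (s₀ : Γ) v) '' orb ρ (χ.ker.map A.subtype) b).ncard :=
          Set.ncard_union_le _ _
      _ ≤ (orb ρ (χ.ker.map A.subtype) b).ncard + (orb ρ (χ.ker.map A.subtype) b).ncard :=
          Nat.add_le_add_left (Set.ncard_image_le hfin) _
      _ = 2 * (orb ρ (χ.ker.map A.subtype) b).ncard := by ring
  · have hsub : orb ρ A b ⊆ orb ρ (χ.ker.map A.subtype) b := by
      rintro _ ⟨u, hu, rfl⟩
      rcases Int.units_eq_one_or (χ ⟨u, hu⟩) with h | h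
      · exact ⟨u, ⟨⟨u, hu⟩, h, rfl⟩, rfl⟩
      · exact absurd ⟨_, h⟩ hex
    have := Set.ncard_le_ncard hsub hfin
    omega

/-- **LA2** -/
theorem la_main [Finite Γ] {ρ : Representation ℚ Γ V} {A₁ A₂ : Subgroup Γ} {b : V}
    (H : Hyp ρ A₁ A₂ b) (h₁ : 3 ^ 64 < (orb ρ A₁ b).ncard) (h₂ : 3 ^ 64 < (orb ρ A₂ b).ncard) :
    (orb ρ A₁ b).ncard * (orb ρ A₂ b).ncard ≤ 4 * (orb ρ ⊤ b).ncard := by
  have hD₁ : 9 ≤ finrank ℚ (spn ρ A₁ b) := by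
    by_contra h
    exact absurd (orb_ncard_le ρ A₁ b 8 (by omega)) (by simpa using h₁)
  have hD₂ : 9 ≤ finrank ℚ (spn ρ A₂ b) := by
    by_contra h
    exact absurd (orb_ncard_le ρ A₂ b 8 (by omega)) (by simpa using h₂)
  obtain ⟨χ, χ', h1, h2⟩ := exists_chars H hD₁ hD₂
  have hk := ncard_mul_le ρ (χ.ker.map A₁.subtype) (χ'.ker.map A₂.subtype) b (by
    rintro s ⟨s', hs', rfl⟩ t ⟨t', ht', rfl⟩
    exact mul_eq H hD₁ hD₂ χ χ' h1 h2 s' (by simpa using hs') t' (by simpa using ht'))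
  have e1 := ncard_ker ρ A₁ χ b
  have e2 := ncard_ker ρ A₂ χ' b
  calc (orb ρ A₁ b).ncard * (orb ρ A₂ b).ncard
      ≤ (2 * (orb ρ (χ.ker.map A₁.subtype) b).ncard) * (2 * (orb ρ (χ'.ker.map A₂.subtype) b).ncard) :=
        Nat.mul_le_mul e1 e2
    _ = 4 * ((orb ρ (χ.ker.map A₁.subtype) b).ncard * (orb ρ (χ'.ker.map A₂.subtype) b).ncard) := by ring
    _ ≤ 4 * (orb ρ ⊤ b).ncard := Nat.mul_le_mul le_rfl hk

end Pool.H95.Leh
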