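import Pool.Agent.H95.Leh.PIdx
import Pool.Agent.H95.Leh.LAMain

/-!
# LH-PCOMM: Theorem C (commuting subgroups)

PROOF of `pure_comm`. Let `n = (stab ρ a).index`, large. Suppose `s₁ ∈ A₁`, `t₁ ∈ A₂` are not in `lstab ρ a`.
(a) `|orb ρ A₁ a| > n^(4/5)`: otherwise, `a` and `s₁ a` are linearly independent over ℚ: [if `s₁ a = c a` then `c^k = 1` for `k = orderOf s₁`, `c = ± 1`,
`s₁ ∈ lstab`; `a ≠ 0`], so `W2` with `x = ![a, s₁ a]` and `idx_two` give `n^(19/10) < n^(1/20) * n * n^(4/5)`, contradiction. Same for `A₂`.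
(b) (dep): for `s ∈ A₁`, `t ∈ A₂`, if `a, s a, t a, s t a` are independent, `W4` and `idx_four` give `n^(7/2) < 2 n^(1/20) n^3`: contradiction for large `n`.
(c) apply `la_main` to `Γ = G₀`, `ρ' = ρ.comp G₀.subtype`, `A_i.subgroupOf G₀` (normal by `hn_i`), `b = a`:
`Hyp` from `comm` and (b); `orb ρ' (A_i.subgroupOf G₀) a = orb ρ A_i a`, `orb ρ' ⊤ a ⊆ orb ρ ⊤ a`, `(orb ρ ⊤ a).ncard = n` (`index_stab`).
`3 ^ 64 < n^(4/5)` for large `n`. So `n^(8/5) ≤ 4 n`: contradiction for large `n`.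
(`n1` must be chosen with `n^(9/20) > 2`, `n^(4/5) > 3^64`, `n^(3/5) > 4`, e.g. `n1 = 3^80`.)
-/

namespace Pool.H95.Leh

open Pool.Agent.H49.St

theorem orb_subgroupOf {G V : Type*} [Group G] [AddCommGroup V] [Module ℚ V]
    (ρ : G →* Module.End ℚ V) (a : V) (G₀ A : Subgroup G) (hA : A ≤ G₀) :
    orb (ρ.comp G₀.subtype) (A.subgroupOf G₀) a = orb ρ A a := by
  ext v
  constructor
  · rintro ⟨s, hs, rfl⟩
    exact ⟨(s : G), hs, rfl⟩
  · rintro ⟨s, hs, rfl⟩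
    exact ⟨⟨s, hA hs⟩, hs, rfl⟩

theorem orb_mono_sub {G V : Type*} [Group G] [AddCommGroup V] [Module ℚ V]
    (ρ : G →* Module.End ℚ V) (a : V) (G₀ : Subgroup G) :
    orb (ρ.comp G₀.subtype) ⊤ a ⊆ orb ρ ⊤ a := by
  rintro _ ⟨s, _, rfl⟩
  exact ⟨(s : G), Subgroup.mem_top _, rfl⟩

/-- `s ∉ lstab` means that `a, s a` are independent -/
theorem linInd_two {G V : Type*} [Group G] [Finite G] [AddCommGroup V] [Module ℚ V]
    (ρ : G →* Module.End ℚ V) (a : V) (s : G) (hs : s ∉ lstab ρ a) :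
    LinearIndependent ℚ ![a, ρ s a] := by
  have ha : a ≠ 0 := by
    rintro rfl
    apply hs
    left
    simp
  rw [LinearIndependent.pair_iff' ha]
  intro c hc
  apply hs
  have hpow : ∀ k : ℕ, ρ (s ^ k) a = c ^ k • a := by
    intro k
    induction k with
    | zero => simp
    | succ k ih =>
      rw [pow_succ, map_mul, Module.End.mul_apply, ← hc, map_smul, ih, smul_smul, pow_succ, mul_comm]
  have h1 := hpow (orderOf s)
  rw [pow_orderOf_eq_one, map_one, Module.End.one_apply] at h1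
  have h2 : c ^ orderOf s = 1 := by
    have h3 : (c ^ orderOf s - 1) • a = 0 := by
      rw [sub_smul, one_smul, ← h1, sub_self]
    have := (smul_eq_zero.1 h3).resolve_right ha
    linarith
  have h4 : |c| = 1 := by
    have h5 : |c| ^ orderOf s = 1 := by rw [← abs_pow, h2, abs_one]
    exact (pow_eq_one_iff_of_nonneg (abs_nonneg c) (orderOf_pos s).ne').1 h5
  rcases (abs_eq (zero_le_one)).1 h4 with h | h
  · left
    rw [← hc, h, one_smul]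
  · right
    rw [← hc, h, neg_one_smul]

theorem iInf_two {G : Type*} [Group G] (S : Fin 2 → Subgroup G) : (⨅ i, S i) = S 0 ⊓ S 1 := by
  apply le_antisymm
  · exact le_inf (iInf_le _ _) (iInf_le _ _)
  · refine le_iInf fun i => ?_
    fin_cases i
    · exact inf_le_left
    · exact inf_le_right

theorem iInf_four {G : Type*} [Group G] (S : Fin 4 → Subgroup G) :
    (⨅ i, S i) = S 0 ⊓ S 1 ⊓ S 2 ⊓ S 3 := by
  apply le_antisymm
  · exact le_inf (le_inf (le_inf (iInf_le _ _) (iInf_le _ _)) (iInf_le _ _)) (iInf_le _ _)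
  · refine le_iInf fun i => ?_
    fin_cases i
    · exact inf_le_left.trans (inf_le_left.trans inf_le_left)
    · exact inf_le_left.trans (inf_le_left.trans inf_le_right)
    · exact inf_le_left.trans inf_le_right
    · exact inf_le_right

theorem orb_large {G V : Type*} [Group G] [Finite G] [AddCommGroup V] [Module ℚ V]
    (ρ : G →* Module.End ℚ V) (a : V) (hn1 : 1 ≤ (stab ρ a).index) (W2 : Wide ρ a 2 (19 / 10))
    (G₀ A : Subgroup G) (hA : A ≤ G₀) (hn : ∀ g ∈ G₀, ∀ s ∈ A, g * s * g⁻¹ ∈ A)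
    (hm : ((G₀.relIndex (stab ρ a) : ℕ) : ℝ) ≤ ((stab ρ a).index : ℝ) ^ ((1 : ℝ) / 20))
    (s : G) (hs : s ∈ A) (hsl : s ∉ lstab ρ a) :
    ((stab ρ a).index : ℝ) ^ ((17 : ℝ) / 20) ≤ ((orb ρ A a).ncard : ℝ) := by
  have h1 := W2 ![a, ρ s a] (by
    intro i
    fin_cases i
    · exact ⟨1, by simp⟩
    · exact ⟨s, by simp⟩) (linInd_two ρ a s hsl)
  rw [iInf_two] at h1
  simp only [Matrix.cons_val_zero, Matrix.cons_val_one] at h1
  have h2 := idx_two ρ a G₀ A hA hn s hs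
  have h3 : ((stab ρ a ⊓ stab ρ (ρ s a)).index : ℝ) ≤
      (G₀.relIndex (stab ρ a) : ℝ) * ((stab ρ a).index : ℝ) * ((orb ρ A a).ncard : ℝ) := by
    exact_mod_cast h2
  have hnpos : (0 : ℝ) < ((stab ρ a).index : ℝ) := by
    exact_mod_cast hn1
  have h4 : ((stab ρ a).index : ℝ) ^ ((19 : ℝ) / 10) = ((stab ρ a).index : ℝ) ^ ((1 : ℝ) / 20) *
      ((stab ρ a).index : ℝ) * ((stab ρ a).index : ℝ) ^ ((17 : ℝ) / 20) := by
    rw [← Real.rpow_add_one hnpos.ne', ← Real.rpow_add hnpos]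
    norm_num
  by_contra hcon
  push Not at hcon
  have h5 : (G₀.relIndex (stab ρ a) : ℝ) * ((stab ρ a).index : ℝ) * ((orb ρ A a).ncard : ℝ) ≤
      ((stab ρ a).index : ℝ) ^ ((1 : ℝ) / 20) *
      ((stab ρ a).index : ℝ) * ((stab ρ a).index : ℝ) ^ ((17 : ℝ) / 20) := by
    gcongr
  have h6 := lt_of_lt_of_le h1 (h3.trans h5)
  rw [h4] at h6
  exact lt_irrefl _ h6

theorem pure_comm : ∃ n1 : ℕ, ∀ (G V : Type) [Group G] [Finite G] [AddCommGroup V] [Module ℚ V]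
    (ρ : G →* Module.End ℚ V) (a : V), n1 ≤ (stab ρ a).index → Wide ρ a 2 (19 / 10) → Wide ρ a 4 (7 / 2) →
    ∀ (G₀ A₁ A₂ : Subgroup G), A₁ ≤ G₀ → A₂ ≤ G₀ →
    (∀ g ∈ G₀, ∀ s ∈ A₁, g * s * g⁻¹ ∈ A₁) → (∀ g ∈ G₀, ∀ s ∈ A₂, g * s * g⁻¹ ∈ A₂) →
    (∀ s ∈ A₁, ∀ t ∈ A₂, ∀ g ∈ G₀, ρ (s * t * g) a = ρ (t * s * g) a ∨ ρ (s * t * g) a = - ρ (t * s * g) a) →
    ((G₀.relIndex (stab ρ a) : ℕ) : ℝ) ≤ ((stab ρ a).index : ℝ) ^ ((1 : ℝ) / 20) →
    A₁ ≤ lstab ρ a ∨ A₂ ≤ lstab ρ a := by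
  refine ⟨3 ^ 80, ?_⟩
  intro G V _ _ _ _ ρ a hn W2 W4 G₀ A₁ A₂ hA₁ hA₂ hn₁ hn₂ comm hm
  by_contra hcon
  push Not at hcon
  obtain ⟨hc1, hc2⟩ := hcon
  obtain ⟨s₁, hs₁, hs₁l⟩ := SetLike.not_le_iff_exists.1 hc1
  obtain ⟨t₁, ht₁, ht₁l⟩ := SetLike.not_le_iff_exists.1 hc2
  have hn0 : 1 ≤ (stab ρ a).index := le_trans (by norm_num) hn
  have o1 := orb_large ρ a hn0 W2 G₀ A₁ hA₁ hn₁ hm s₁ hs₁ hs₁l
  have o2 := orb_large ρ a hn0 W2 G₀ A₂ hA₂ hn₂ hm t₁ ht₁ ht₁l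
  have hnR : ((3 : ℝ) ^ (80 : ℕ)) ≤ ((stab ρ a).index : ℝ) := by exact_mod_cast hn
  have hnpos : (0 : ℝ) < ((stab ρ a).index : ℝ) := lt_of_lt_of_le (by positivity) hnR
  -- size of powers of `n`
  have hpow : ∀ e : ℝ, 0 ≤ e → ((3 : ℝ) ^ (80 : ℕ)) ^ e ≤ ((stab ρ a).index : ℝ) ^ e := fun e he =>
    Real.rpow_le_rpow (by positivity) hnR he
  have h17 : (3 : ℝ) ^ (64 : ℕ) < ((stab ρ a).index : ℝ) ^ ((17 : ℝ) / 20) := by
    refine lt_of_lt_of_le ?_ (hpow _ (by norm_num))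
    rw [← Real.rpow_natCast, ← Real.rpow_natCast, ← Real.rpow_mul (by norm_num)]
    apply Real.rpow_lt_rpow_of_exponent_lt (by norm_num)
    norm_num
  have h9 : (2 : ℝ) < ((stab ρ a).index : ℝ) ^ ((9 : ℝ) / 20) := by
    refine lt_of_lt_of_le ?_ (hpow _ (by norm_num))
    rw [← Real.rpow_natCast, ← Real.rpow_mul (by norm_num)]
    have : (3 : ℝ) ^ (1 : ℝ) < (3 : ℝ) ^ (((80 : ℕ) : ℝ) * (9 / 20)) := by
      apply Real.rpow_lt_rpow_of_exponent_lt (by norm_num)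
      norm_num
    rw [Real.rpow_one] at this
    linarith
  have h7 : (4 : ℝ) < ((stab ρ a).index : ℝ) ^ ((7 : ℝ) / 10) := by
    refine lt_of_lt_of_le ?_ (hpow _ (by norm_num))
    rw [← Real.rpow_natCast, ← Real.rpow_mul (by norm_num)]
    have : (3 : ℝ) ^ (2 : ℝ) < (3 : ℝ) ^ (((80 : ℕ) : ℝ) * (7 / 10)) := by
      apply Real.rpow_lt_rpow_of_exponent_lt (by norm_num)
      norm_num
    have h2 : (3 : ℝ) ^ (2 : ℝ) = 9 := by
      rw [show (2 : ℝ) = ((2 : ℕ) : ℝ) by norm_num, Real.rpow_natCast]; norm_num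
    rw [h2] at this
    linarith
  -- the hypothesis of the linear algebra theorem
  have H : Hyp (ρ.comp G₀.subtype) (A₁.subgroupOf G₀) (A₂.subgroupOf G₀) a := by
    refine ⟨⟨fun s hs g => ?_⟩, ⟨fun s hs g => ?_⟩, fun s hs t ht g => ?_, fun s hs t ht hL => ?_⟩
    · exact hn₁ g g.2 s hs
    · exact hn₂ g g.2 s hs
    · exact comm s hs t ht g g.2
    · have h1 := W4 ![a, ρ s a, ρ t a, ρ (s * t) a] (by
        intro i
        fin_cases i
        · exact ⟨1, by simp⟩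
        · exact ⟨s, by simp⟩
        · exact ⟨t, by simp⟩
        · exact ⟨s * t, rfl⟩) hL
      rw [iInf_four] at h1
      have h1' : ((stab ρ a).index : ℝ) ^ ((7 : ℝ) / 2) <
          ((stab ρ a ⊓ stab ρ (ρ s a) ⊓ stab ρ (ρ t a) ⊓ stab ρ (ρ ((s : G) * t) a)).index : ℝ) := h1
      have h2 := idx_four ρ a G₀ A₁ A₂ hA₁ hA₂ hn₁ hn₂ (fun s hs t ht => by
        have := comm s hs t ht 1 G₀.one_mem
        simpa using this) s hs t ht
      have h3 : ((stab ρ a ⊓ stab ρ (ρ s a) ⊓ stab ρ (ρ t a) ⊓ stab ρ (ρ ((s : G) * t) a)).index : ℝ) ≤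
          2 * (G₀.relIndex (stab ρ a) : ℝ) * ((stab ρ a).index : ℝ) ^ 3 := by
        exact_mod_cast h2
      have h4 : ((stab ρ a).index : ℝ) ^ ((7 : ℝ) / 2) = ((stab ρ a).index : ℝ) ^ ((9 : ℝ) / 20) *
          ((stab ρ a).index : ℝ) ^ ((1 : ℝ) / 20) * ((stab ρ a).index : ℝ) ^ (3 : ℕ) := by
        rw [← Real.rpow_natCast, ← Real.rpow_add hnpos, ← Real.rpow_add hnpos]
        norm_num
      have h5 : 2 * (G₀.relIndex (stab ρ a) : ℝ) * ((stab ρ a).index : ℝ) ^ 3 ≤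
          ((stab ρ a).index : ℝ) ^ ((9 : ℝ) / 20) *
          ((stab ρ a).index : ℝ) ^ ((1 : ℝ) / 20) * ((stab ρ a).index : ℝ) ^ (3 : ℕ) := by
        gcongr
      have h6 := lt_of_lt_of_le h1' (h3.trans h5)
      rw [h4] at h6
      exact lt_irrefl _ h6
  have o1' : ((orb ρ A₁ a).ncard : ℝ) > (3 : ℝ) ^ (64 : ℕ) := lt_of_lt_of_le h17 o1
  have o2' : ((orb ρ A₂ a).ncard : ℝ) > (3 : ℝ) ^ (64 : ℕ) := lt_of_lt_of_le h17 o2
  have hmain := la_main H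
    (by rw [orb_subgroupOf ρ a G₀ A₁ hA₁]; exact_mod_cast o1')
    (by rw [orb_subgroupOf ρ a G₀ A₂ hA₂]; exact_mod_cast o2')
  rw [orb_subgroupOf ρ a G₀ A₁ hA₁, orb_subgroupOf ρ a G₀ A₂ hA₂] at hmain
  have htop : (orb (ρ.comp G₀.subtype) ⊤ a).ncard ≤ (stab ρ a).index := by
    rw [index_stab]
    exact Set.ncard_le_ncard (orb_mono_sub ρ a G₀) (orb_finite ρ ⊤ a)
  have h8 : ((orb ρ A₁ a).ncard : ℝ) * ((orb ρ A₂ a).ncard : ℝ) ≤ 4 * ((stab ρ a).index : ℝ) := by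
    have : (orb ρ A₁ a).ncard * (orb ρ A₂ a).ncard ≤ 4 * (stab ρ a).index :=
      hmain.trans (Nat.mul_le_mul_left 4 htop)
    exact_mod_cast this
  have h10 : ((stab ρ a).index : ℝ) ^ ((7 : ℝ) / 10) * ((stab ρ a).index : ℝ) ≤
      4 * ((stab ρ a).index : ℝ) := by
    calc ((stab ρ a).index : ℝ) ^ ((7 : ℝ) / 10) * ((stab ρ a).index : ℝ)
        = ((stab ρ a).index : ℝ) ^ ((17 : ℝ) / 20) * ((stab ρ a).index : ℝ) ^ ((17 : ℝ) / 20) := by
          rw [← Real.rpow_add_one hnpos.ne', ← Real.rpow_add hnpos]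
          norm_num
      _ ≤ ((orb ρ A₁ a).ncard : ℝ) * ((orb ρ A₂ a).ncard : ℝ) := by gcongr
      _ ≤ _ := h8
  have h11 := le_of_mul_le_mul_right h10 hnpos
  linarith

end Pool.H95.Leh
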