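import Pool.Agent.H95.Leh.FDefs
import Pool.Agent.H95.Leh.LADefs

/-!
# LH-PIDX: bounds for indices of stabilisers

Notation: `S x = stab ρ x`. `orb ρ A a = {s a : s ∈ A}` (LADefs).

`index_stab`: orbit-stabiliser for the action `g • x = ρ g x`; `(stab ρ x).index = (orb ρ ⊤ x).ncard`.
More generally (`relIndex_le`): for a subgroup `H` with `ρ h x ∈ T` for all `h ∈ H`, `T` a finite set:
`(stab ρ x).relIndex H ≤ T.ncard` (the cosets `H / (H ⊓ S x)` inject into `T` by `h ↦ ρ h x`).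

`idx_two`: PROOF. `H₀ = G₀ ⊓ S a`; `H₀.index = G₀.relIndex (S a) * (S a).index` (`Subgroup.relIndex_mul_index`, `inf_relIndex_right`).
For `h ∈ H₀`: `h s a = (h s h⁻¹) h a = (h s h⁻¹) a ∈ orb ρ A a`. So `(S (s a)).relIndex H₀ ≤ (orb ρ A a).ncard` and
`(S a ⊓ S (s a)).index ≤ (H₀ ⊓ S (s a)).index = (S (s a)).relIndex H₀ * H₀.index`.

`idx_four`: PROOF. `H₁ = G₀ ⊓ S a ⊓ S (s a) ⊓ S (t a)`: index ≤ `m₀ * n * n * n` (`Subgroup.index_inf_le`, and `(S (g a)).index = (S a).index = n` by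
conjugation: `S (g a) = g S(a) g⁻¹`, or `stab_conj`). For `g ∈ H₁`: `h₁ = s⁻¹ g s g⁻¹ ∈ A₁`, `h₁ a = a` [`g s g⁻¹ a = g s a = s a`],
`h₂ = t⁻¹ g t g⁻¹ ∈ A₂`, `h₂ a = a`, `g s t a = (g s g⁻¹)(g t g⁻¹) g a = s h₁ t h₂ a = s h₁ t a = s (± t h₁ a) = ± s t a` by `comm`
(with the group element 1). So `(S (s t a)).relIndex H₁ ≤ 2` (`T = {sta, -sta}`).
-/

namespace Pool.H95.Leh

open Pool.Agent.H49.St

variable {G V : Type*} [Group G] [Finite G] [AddCommGroup V] [Module ℚ V]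

omit [Finite G] in
theorem PIdx.relIndex_eq (ρ : G →* Module.End ℚ V) (x : V) (H : Subgroup G) :
    (stab ρ x).relIndex H = (orb ρ H x).ncard := by
  let _ : MulAction H V := MulAction.compHom V (ρ.comp H.subtype)
  have h1 := MulAction.index_stabilizer H x
  have h2 : MulAction.stabilizer H x = (stab ρ x).subgroupOf H := by
    ext g
    rfl
  have h3 : MulAction.orbit H x = orb ρ H x := by
    ext y
    constructor
    · rintro ⟨g, rfl⟩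
      exact ⟨g, g.2, rfl⟩
    · rintro ⟨g, hg, rfl⟩
      exact ⟨⟨g, hg⟩, rfl⟩
  rw [h2, h3] at h1
  exact h1

theorem index_stab (ρ : G →* Module.End ℚ V) (x : V) : (stab ρ x).index = (orb ρ ⊤ x).ncard := by
  rw [← PIdx.relIndex_eq, Subgroup.relIndex_top_right]

theorem index_stab_apply (ρ : G →* Module.End ℚ V) (x : V) (g : G) : (stab ρ (ρ g x)).index = (stab ρ x).index := by
  rw [index_stab, index_stab]
  congr 1
  ext y
  constructor
  · rintro ⟨h, -, rfl⟩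
    exact ⟨h * g, Subgroup.mem_top _, by simp [map_mul]⟩
  · rintro ⟨h, -, rfl⟩
    refine ⟨h * g⁻¹, Subgroup.mem_top _, ?_⟩
    have h1 : ρ (h * g⁻¹) (ρ g x) = ρ h (ρ g⁻¹ (ρ g x)) := by simp only [map_mul]; rfl
    show ρ (h * g⁻¹) (ρ g x) = ρ h x
    rw [h1, inv_apply_apply]

theorem relIndex_stab_le (ρ : G →* Module.End ℚ V) (x : V) (H : Subgroup G) (T : Set V) (hT : T.Finite)
    (h : ∀ g ∈ H, ρ g x ∈ T) : (stab ρ x).relIndex H ≤ T.ncard := by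
  rw [PIdx.relIndex_eq]
  refine Set.ncard_le_ncard ?_ hT
  rintro _ ⟨g, hg, rfl⟩
  exact h g hg

theorem idx_two (ρ : G →* Module.End ℚ V) (a : V) (G₀ A : Subgroup G) (hA : A ≤ G₀)
    (hn : ∀ g ∈ G₀, ∀ s ∈ A, g * s * g⁻¹ ∈ A) (s : G) (hs : s ∈ A) :
    (stab ρ a ⊓ stab ρ (ρ s a)).index ≤ G₀.relIndex (stab ρ a) * (stab ρ a).index * (orb ρ A a).ncard := by
  set H₀ := G₀ ⊓ stab ρ a with hH₀
  have h1 : G₀.relIndex (stab ρ a) * (stab ρ a).index = H₀.index := by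
    rw [← Subgroup.inf_relIndex_right, Subgroup.relIndex_mul_index inf_le_right]
  have h2 : (stab ρ (ρ s a)).relIndex H₀ ≤ (orb ρ A a).ncard := by
    refine relIndex_stab_le ρ _ _ _ (orb_finite ρ A a) fun g hg => ?_
    have h3 : g ∈ G₀ := hg.1
    have h4 : ρ g a = a := hg.2
    refine ⟨g * s * g⁻¹, hn g h3 s hs, ?_⟩
    show ρ (g * s * g⁻¹) a = ρ g (ρ s a)
    have h5 : ρ g⁻¹ a = a := by
      conv_lhs => rw [← h4]
      exact inv_apply_apply ρ g a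
    calc ρ (g * s * g⁻¹) a = ρ g (ρ s (ρ g⁻¹ a)) := by simp only [map_mul]; rfl
      _ = ρ g (ρ s a) := by rw [h5]
  have h3 : (stab ρ a ⊓ stab ρ (ρ s a)).index ≤ (stab ρ (ρ s a) ⊓ H₀).index := by
    apply Subgroup.index_antitone
    exact le_inf (inf_le_right.trans inf_le_right) inf_le_left
  have h4 : (stab ρ (ρ s a) ⊓ H₀).index = (stab ρ (ρ s a)).relIndex H₀ * H₀.index := by
    rw [← Subgroup.inf_relIndex_right, Subgroup.relIndex_mul_index inf_le_right]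
  rw [h1, mul_comm]
  calc (stab ρ a ⊓ stab ρ (ρ s a)).index ≤ (stab ρ (ρ s a)).relIndex H₀ * H₀.index := h3.trans h4.le
    _ ≤ (orb ρ A a).ncard * H₀.index := Nat.mul_le_mul_right _ h2

theorem idx_four (ρ : G →* Module.End ℚ V) (a : V) (G₀ A₁ A₂ : Subgroup G) (hA₁ : A₁ ≤ G₀) (hA₂ : A₂ ≤ G₀)
    (hn₁ : ∀ g ∈ G₀, ∀ s ∈ A₁, g * s * g⁻¹ ∈ A₁) (hn₂ : ∀ g ∈ G₀, ∀ s ∈ A₂, g * s * g⁻¹ ∈ A₂)
    (comm : ∀ s ∈ A₁, ∀ t ∈ A₂, ρ (s * t) a = ρ (t * s) a ∨ ρ (s * t) a = - ρ (t * s) a)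
    (s : G) (hs : s ∈ A₁) (t : G) (ht : t ∈ A₂) :
    (stab ρ a ⊓ stab ρ (ρ s a) ⊓ stab ρ (ρ t a) ⊓ stab ρ (ρ (s * t) a)).index ≤
      2 * G₀.relIndex (stab ρ a) * (stab ρ a).index ^ 3 := by
  set n := (stab ρ a).index with hn
  set H₀ := G₀ ⊓ stab ρ a with hH₀
  set H₁ := H₀ ⊓ stab ρ (ρ s a) ⊓ stab ρ (ρ t a) with hH₁
  have h1 : G₀.relIndex (stab ρ a) * n = H₀.index := by
    rw [← Subgroup.inf_relIndex_right, hn, Subgroup.relIndex_mul_index inf_le_right]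
  have h2 : H₁.index ≤ G₀.relIndex (stab ρ a) * n * n * n := by
    rw [h1]
    refine (Subgroup.index_inf_le).trans ?_
    rw [index_stab_apply]
    refine Nat.mul_le_mul_right _ ?_
    refine (Subgroup.index_inf_le).trans ?_
    rw [index_stab_apply]
  -- the two values
  have h3 : (stab ρ (ρ (s * t) a)).relIndex H₁ ≤ 2 := by
    refine (relIndex_stab_le ρ _ H₁ {ρ (s * t) a, - ρ (s * t) a} (Set.toFinite _)
      fun g hg => ?_).trans ((Set.ncard_insert_le _ _).trans (by rw [Set.ncard_singleton]))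
    have g0 : g ∈ G₀ := hg.1.1.1
    have ga : ρ g a = a := hg.1.1.2
    have gs : ρ g (ρ s a) = ρ s a := hg.1.2
    have gt : ρ g (ρ t a) = ρ t a := hg.2
    have gia : ρ g⁻¹ a = a := by
      conv_lhs => rw [← ga]
      exact inv_apply_apply ρ g a
    have hmul : ∀ (u v : G) (w : V), ρ (u * v) w = ρ u (ρ v w) := fun u v w => by
      rw [map_mul]; rfl
    set h₁ : G := s⁻¹ * (g * s * g⁻¹) with hh₁
    have m₁ : h₁ ∈ A₁ := A₁.mul_mem (A₁.inv_mem hs) (hn₁ g g0 s hs)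
    have e₁ : ρ h₁ a = a := by
      rw [hh₁, hmul, hmul, hmul, gia, gs, inv_apply_apply]
    set h₂ : G := t⁻¹ * (g * t * g⁻¹) with hh₂
    have e₂ : ρ h₂ a = a := by
      rw [hh₂, hmul, hmul, hmul, gia, gt, inv_apply_apply]
    have e₃ : g * (s * t) = s * (h₁ * t) * h₂ * g := by
      rw [hh₁, hh₂]; group
    have e₄ : ρ g (ρ (s * t) a) = ρ s (ρ (h₁ * t) a) := by
      rw [← hmul, e₃, hmul, ga, hmul, e₂, hmul]
    have e₅ : ρ (t * h₁) a = ρ t a := by rw [hmul, e₁]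
    rw [e₄]
    rcases comm h₁ m₁ t ht with h | h
    · left
      rw [h, e₅, hmul]
    · right
      rw [Set.mem_singleton_iff, h, e₅, map_neg, hmul]
  have h4 : (stab ρ a ⊓ stab ρ (ρ s a) ⊓ stab ρ (ρ t a) ⊓ stab ρ (ρ (s * t) a)).index ≤
      (stab ρ (ρ (s * t) a) ⊓ H₁).index := by
    apply Subgroup.index_antitone
    intro g hg
    exact ⟨⟨⟨hg.2.1.1.2, hg.2.1.2⟩, hg.2.2⟩, hg.1⟩
  have h5 : (stab ρ (ρ (s * t) a) ⊓ H₁).index = (stab ρ (ρ (s * t) a)).relIndex H₁ * H₁.index := by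
    rw [← Subgroup.inf_relIndex_right, Subgroup.relIndex_mul_index inf_le_right]
  calc (stab ρ a ⊓ stab ρ (ρ s a) ⊓ stab ρ (ρ t a) ⊓ stab ρ (ρ (s * t) a)).index
      ≤ (stab ρ (ρ (s * t) a)).relIndex H₁ * H₁.index := h4.trans h5.le
    _ ≤ 2 * (G₀.relIndex (stab ρ a) * n * n * n) := Nat.mul_le_mul h3 h2
    _ = 2 * G₀.relIndex (stab ρ a) * n ^ 3 := by ring

end Pool.H95.Leh
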