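import Pool.Agent.H95.Leh.PComm

/-!
# LH-PSOLV: solvable normal subgroups

PROOF of `pure_solv`. `n1` from `pure_comm` (at least 1). Let `𝒦 = {k : G | ∀ g, ρ (k * g) a = ρ g a ∨ ρ (k * g) a = - ρ g a}`, a normal subgroup of `G`
(`ρ (k g) a = ρ k (ρ g a)`), `𝒦 ≤ lstab ρ a`. Suppose `N` is normal, solvable and not `≤ 𝒦`. Among the normal solvable subgroups `M` of `G` with
`M ≰ 𝒦` choose one with `Nat.card M` minimal. `⁅M, M⁆` is normal in `G` (`Subgroup.commutator_normal`), solvable, and `< M` (as `M ≠ ⊥`:
`IsSolvable.commutator_lt_of_ne_bot` or similar), so `⁅M, M⁆ ≤ 𝒦` by minimality. So for `s, t ∈ M`, `g ∈ G`: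
`s t g = (s t s⁻¹ t⁻¹) (t s g)` with `s t s⁻¹ t⁻¹ ∈ ⁅M, M⁆ ≤ 𝒦`, which is `comm` for `A₁ = A₂ = M`, `G₀ = ⊤` (`(⊤ : Subgroup G).relIndex _ = 1 ≤ n^(1/20)`).
`pure_comm` gives `M ≤ lstab ρ a`; `M` is normal, so for `m ∈ M`, `g`: `m g = g (g⁻¹ m g)`, `ρ (m g) a = ρ g (± a) = ± ρ g a`: `M ≤ 𝒦`, contradiction.
-/

namespace Pool.H95.Leh

open Pool.Agent.H49.St

theorem psolv_commutator_lt {G : Type} [Group G] {M : Subgroup G} (hM : M ≠ ⊥)
    (hs : Group.IsSolvable M) : ⁅M, M⁆ < M := by
  rw [← Subgroup.nontrivial_iff_ne_bot] at hM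
  have h := Group.IsSolvable.commutator_lt_top_of_nontrivial M
  have h2 : Subgroup.map M.subtype (commutator M) < Subgroup.map M.subtype ⊤ :=
    Subgroup.map_subtype_lt_map_subtype.2 h
  have h3 : Subgroup.map M.subtype (⊤ : Subgroup M) = M := by
    rw [← MonoidHom.range_eq_map, Subgroup.range_subtype]
  have h4 : Subgroup.map M.subtype (commutator M) = ⁅M, M⁆ := by
    rw [commutator_def, Subgroup.map_commutator, h3]
  rw [h3, h4] at h2
  exact h2

theorem pure_solv : ∃ n1 : ℕ, ∀ (G V : Type) [Group G] [Finite G] [AddCommGroup V] [Module ℚ V]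
    (ρ : G →* Module.End ℚ V) (a : V), n1 ≤ (stab ρ a).index → Wide ρ a 2 (19 / 10) → Wide ρ a 4 (7 / 2) →
    ∀ N : Subgroup G, N.Normal → Group.IsSolvable N → N ≤ lstab ρ a := by
  obtain ⟨n1, hn1⟩ := pure_comm
  refine ⟨n1, ?_⟩
  intro G V _ _ _ _ ρ a hn hW2 hW4 N hN hNs
  have key : ∀ (k : ℕ) (M : Subgroup G), Nat.card M = k → M.Normal → Group.IsSolvable M →
      ∀ m ∈ M, ∀ g, ρ (m * g) a = ρ g a ∨ ρ (m * g) a = - ρ g a := by
    intro k
    induction k using Nat.strong_induction_on with
    | _ k ih =>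
      intro M hMk hM hMs
      by_cases hbot : M = ⊥
      · intro m hm g
        rw [hbot, Subgroup.mem_bot] at hm
        left
        rw [hm, one_mul]
      · have hlt := psolv_commutator_lt hbot hMs
        have hcard : Nat.card (⁅M, M⁆ : Subgroup G) < k := by
          rw [← hMk]
          exact Set.ncard_lt_ncard (s := ((⁅M, M⁆ : Subgroup G) : Set G)) (t := (M : Set G))
            (SetLike.coe_ssubset_coe.2 hlt) (Set.toFinite _)
        have hsol : Group.IsSolvable (⁅M, M⁆ : Subgroup G) :=
          Group.isSolvable_of_isSolvable_injective (f := Subgroup.inclusion hlt.le)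
            (Subgroup.inclusion_injective hlt.le)
        have hnorm : (⁅M, M⁆ : Subgroup G).Normal := Subgroup.commutator_normal M M
        have hP := ih _ hcard ⁅M, M⁆ rfl hnorm hsol
        have hle : M ≤ lstab ρ a := by
          have h := hn1 G V ρ a hn hW2 hW4 ⊤ M M le_top le_top
            (fun g _ s hs => hM.conj_mem s hs g) (fun g _ s hs => hM.conj_mem s hs g)
            (by
              intro s hs t ht g _
              have h0 : s * t * s⁻¹ * t⁻¹ ∈ (⁅M, M⁆ : Subgroup G) :=
                Subgroup.commutator_mem_commutator hs ht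
              have h1 := hP _ h0 (t * s * g)
              have h2 : s * t * s⁻¹ * t⁻¹ * (t * s * g) = s * t * g := by
                group
              rw [h2] at h1
              exact h1)
            (by
              rw [Subgroup.relIndex_top_left]
              have h3 : (1 : ℝ) ≤ ((stab ρ a).index : ℝ) := by
                have : 0 < (stab ρ a).index := Nat.pos_of_ne_zero Subgroup.index_ne_zero_of_finite
                exact_mod_cast this
              simpa using Real.one_le_rpow h3 (by norm_num : (0 : ℝ) ≤ 1 / 20))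
          exact h.elim id id
        intro m hm g
        have h1 : g⁻¹ * m * g ∈ M := by
          have := hM.conj_mem m hm g⁻¹
          simpa using this
        have h2 : m * g = g * (g⁻¹ * m * g) := by group
        rw [h2, map_mul, Module.End.mul_apply]
        rcases mem_lstab.1 (hle h1) with h3 | h3
        · left
          rw [h3]
        · right
          rw [h3, map_neg]
  intro m hm
  have h := key _ N rfl hN hNs m hm 1
  rw [mul_one, map_one, Module.End.one_apply] at h
  exact mem_lstab.2 h

end Pool.H95.Leh
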